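import Pool.Agent.Run7.h431.SA.Geo4

open scoped MatrixGroups Topology
open UpperHalfPlane Matrix Filter

noncomputable section

namespace Run7.h431.SA

section act
variable {W : Type*} [NormedAddCommGroup W] [NormedSpace ℂ W]

/-- action of a real 2×2 matrix on `W × W` -/
def act2 (A : SL(2, ℝ)) (v : W × W) : W × W :=
  (((A 0 0 : ℝ) : ℂ) • v.1 + ((A 0 1 : ℝ) : ℂ) • v.2,
    ((A 1 0 : ℝ) : ℂ) • v.1 + ((A 1 1 : ℝ) : ℂ) • v.2)

lemma act2_mul (A B : SL(2, ℝ)) (v : W × W) : act2 (A * B) v = act2 A (act2 B v) := by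
  unfold act2
  rw [mul_apply00, mul_apply01, mul_apply10, mul_apply11]
  push_cast
  ext
  · simp only; module
  · simp only; module

lemma act2_one (v : W × W) : act2 1 v = v := by
  unfold act2
  ext <;> simp

lemma act2_add (A : SL(2, ℝ)) (v w : W × W) : act2 A (v + w) = act2 A v + act2 A w := by
  unfold act2
  ext
  · simp only [Prod.fst_add, Prod.snd_add]; module
  · simp only [Prod.fst_add, Prod.snd_add]; module

lemma act2_sub (A : SL(2, ℝ)) (v w : W × W) : act2 A (v - w) = act2 A v - act2 A w := by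
  unfold act2
  ext
  · simp only [Prod.fst_sub, Prod.snd_sub]; module
  · simp only [Prod.fst_sub, Prod.snd_sub]; module

lemma abs_entry_le {A : SL(2, ℝ)} {R : ℝ} (hA : Q A ≤ R) (i j : Fin 2) : |A i j| ≤ √R := by
  apply Real.abs_le_sqrt
  refine le_trans ?_ hA
  unfold Q
  fin_cases i <;> fin_cases j <;> simp <;> nlinarith [sq_nonneg (A 0 0), sq_nonneg (A 0 1),
      sq_nonneg (A 1 0), sq_nonneg (A 1 1)]

lemma norm_comb_le {a b : ℝ} {r : ℝ} (ha : |a| ≤ r) (hb : |b| ≤ r) (v : W × W) :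
    ‖((a : ℝ) : ℂ) • v.1 + ((b : ℝ) : ℂ) • v.2‖ ≤ 2 * r * ‖v‖ := by
  have h1 : ‖v.1‖ ≤ ‖v‖ := norm_fst_le v
  have h2 : ‖v.2‖ ≤ ‖v‖ := norm_snd_le v
  refine (norm_add_le _ _).trans ?_
  rw [norm_smul, norm_smul, Complex.norm_real, Complex.norm_real, Real.norm_eq_abs,
    Real.norm_eq_abs]
  have h3 : |a| * ‖v.1‖ ≤ r * ‖v‖ := mul_le_mul ha h1 (norm_nonneg _) ((abs_nonneg _).trans ha)
  have h4 : |b| * ‖v.2‖ ≤ r * ‖v‖ := mul_le_mul hb h2 (norm_nonneg _) ((abs_nonneg _).trans hb)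
  linarith

lemma norm_act2_le {A : SL(2, ℝ)} {R : ℝ} (hA : Q A ≤ R) (v : W × W) :
    ‖act2 A v‖ ≤ 2 * √R * ‖v‖ := by
  rw [Prod.norm_def]
  exact max_le (norm_comb_le (abs_entry_le hA 0 0) (abs_entry_le hA 0 1) v)
    (norm_comb_le (abs_entry_le hA 1 0) (abs_entry_le hA 1 1) v)

lemma act2_map (A : SL(2, ℝ)) (u : W →ₗ[ℂ] W) (v : W × W) :
    act2 A (Prod.map u u v) = Prod.map u u (act2 A v) := by
  unfold act2
  ext
  · simp
  · simp

lemma norm_map (u : W →ₗ[ℂ] W) (hu : ∀ w, ‖u w‖ = ‖w‖) (v : W × W) :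
    ‖Prod.map u u v‖ = ‖v‖ := by
  rw [Prod.norm_def, Prod.norm_def]
  simp [hu]

end act

variable {g : ℕ} (S : HypSurface g)

lemma exp_half_ge {t : ℝ} (ht : 1 ≤ t) : 13 / 8 ≤ Real.exp (t / 2) := by
  have h1 := Real.quadratic_le_exp_of_nonneg (show (0 : ℝ) ≤ 1 / 2 by norm_num)
  have h2 : Real.exp (1 / 2) ≤ Real.exp (t / 2) := Real.exp_le_exp.mpr (by linarith)
  norm_num at h1
  linarith

/-- One step of the cone argument. -/
lemma cone_step {W : Type*} [NormedAddCommGroup W] [NormedSpace ℂ W] {R : ℝ} (hR : 0 < R)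
    {z z' A : SL(2, ℝ)} {t : ℝ} (ht : 1 ≤ t) (hz : Q z ≤ R) (hz' : Q z' ≤ R)
    (hA : A = z' * flow (-t) * z⁻¹) (u : W →ₗ[ℂ] W) (hu : ∀ w, ‖u w‖ = ‖w‖)
    (f : W × W → W × W)
    (hf : ∀ v, ‖f v - act2 A (Prod.map u u v)‖ ≤ 1 / (16 * R) * ‖v‖)
    (w : W × W) (hw : ‖w.1‖ ≤ ‖w.2‖) :
    ‖(act2 z'⁻¹ (f (act2 z w))).1‖ ≤ ‖(act2 z'⁻¹ (f (act2 z w))).2‖ ∧
      4 / 3 * ‖w.2‖ ≤ ‖(act2 z'⁻¹ (f (act2 z w))).2‖ := by
  set v := act2 z w with hv
  set e := f v - act2 A (Prod.map u u v) with he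
  have h1 : act2 z'⁻¹ (f v) = act2 (flow (-t)) (Prod.map u u w) + act2 z'⁻¹ e := by
    rw [he, act2_sub, hA]
    have : act2 z'⁻¹ (act2 (z' * flow (-t) * z⁻¹) (Prod.map u u v)) =
        act2 (flow (-t)) (Prod.map u u w) := by
      rw [hv, ← act2_map, ← act2_mul, ← act2_mul]
      congr 1; group
    rw [this]; abel
  have hwn : ‖w‖ = ‖w.2‖ := by rw [Prod.norm_def, max_eq_right hw]
  have h2 : ‖act2 z'⁻¹ e‖ ≤ 1 / 4 * ‖w.2‖ := by
    have hq : Q z'⁻¹ ≤ R := by rw [Q_inv]; exact hz'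
    refine (norm_act2_le hq e).trans ?_
    have h3 := (hf v).trans (mul_le_mul_of_nonneg_left (norm_act2_le hz w) (by positivity))
    rw [← he, hwn] at h3
    calc 2 * √R * ‖e‖ ≤ 2 * √R * (1 / (16 * R) * (2 * √R * ‖w.2‖)) := by gcongr
      _ = (√R * √R) * (4 / (16 * R)) * ‖w.2‖ := by ring
      _ = 1 / 4 * ‖w.2‖ := by
        rw [Real.mul_self_sqrt hR.le]; field_simp; norm_num
  have e1 : (act2 z'⁻¹ (f v)).1 = ((Real.exp (-t / 2) : ℝ) : ℂ) • u w.1 + (act2 z'⁻¹ e).1 := by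
    rw [h1]
    unfold act2
    simp [flow00, flow01]
  have e2 : (act2 z'⁻¹ (f v)).2 = ((Real.exp (-(-t / 2)) : ℝ) : ℂ) • u w.2 + (act2 z'⁻¹ e).2 := by
    rw [h1]
    unfold act2
    simp [flow10, flow11]
  have h5 : ‖(act2 z'⁻¹ e).1‖ ≤ 1 / 4 * ‖w.2‖ := (norm_fst_le _).trans h2
  have h6 : ‖(act2 z'⁻¹ e).2‖ ≤ 1 / 4 * ‖w.2‖ := (norm_snd_le _).trans h2
  have h7 : ‖((Real.exp (-t / 2) : ℝ) : ℂ) • u w.1‖ ≤ ‖w.2‖ := by
    rw [norm_smul, Complex.norm_real, Real.norm_eq_abs, abs_of_pos (Real.exp_pos _), hu]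
    have : Real.exp (-t / 2) ≤ 1 := Real.exp_le_one_iff.mpr (by linarith)
    calc Real.exp (-t / 2) * ‖w.1‖ ≤ 1 * ‖w.2‖ := mul_le_mul this hw (norm_nonneg _) zero_le_one
      _ = ‖w.2‖ := one_mul _
  have h8 : 13 / 8 * ‖w.2‖ ≤ ‖((Real.exp (-(-t / 2)) : ℝ) : ℂ) • u w.2‖ := by
    rw [norm_smul, Complex.norm_real, Real.norm_eq_abs, abs_of_pos (Real.exp_pos _), hu,
      show -(-t / 2) = t / 2 by ring]
    exact mul_le_mul_of_nonneg_right (exp_half_ge ht) (norm_nonneg _)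
  have h9 : ‖(act2 z'⁻¹ (f v)).1‖ ≤ ‖w.2‖ + 1 / 4 * ‖w.2‖ := by
    rw [e1]; exact (norm_add_le _ _).trans (add_le_add h7 h5)
  have h10 : 13 / 8 * ‖w.2‖ - 1 / 4 * ‖w.2‖ ≤ ‖(act2 z'⁻¹ (f v)).2‖ := by
    rw [e2]
    have := norm_sub_le_norm_add (((Real.exp (-(-t / 2)) : ℝ) : ℂ) • u w.2) (act2 z'⁻¹ e).2
    linarith
  have h11 := norm_nonneg w.2
  constructor <;> linarith

lemma floor_bound {y : ℝ} (hy : 1 ≤ y) : 1 ≤ ⌊y⌋₊ ∧ 1 ≤ y / ⌊y⌋₊ ∧ y / ⌊y⌋₊ ≤ 2 := by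
  have h1 : 1 ≤ ⌊y⌋₊ := Nat.floor_pos.mpr hy
  have h2 : (1 : ℝ) ≤ (⌊y⌋₊ : ℝ) := by exact_mod_cast h1
  have h3 : (⌊y⌋₊ : ℝ) ≤ y := Nat.floor_le (by linarith)
  have h4 : y < ⌊y⌋₊ + 1 := Nat.lt_floor_add_one y
  refine ⟨h1, ?_, ?_⟩
  · rw [le_div_iff₀ (by linarith)]; linarith
  · rw [div_le_iff₀ (by linarith)]; linarith

/-- The cone argument. -/
theorem cone_growth {R : ℝ} (hR : 0 < R) (G : SL(2, ℝ) → SurfaceGroup g)
    (hG : ∀ x, Q (S.hol (G x) * x) ≤ R)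
    {W : Type*} [NormedAddCommGroup W] [NormedSpace ℂ W] [Nontrivial W]
    (u : SurfaceGroup g → W →ₗ[ℂ] W) (hu : ∀ γ w, ‖u γ w‖ = ‖w‖)
    (f : SurfaceGroup g → W × W → W × W) (hmul : ∀ γ δ v, f (γ * δ) v = f γ (f δ v))
    (hone : ∀ v, f 1 v = v)
    (hclose : ∀ η, Q (S.hol η) ≤ R * (2 * Real.cosh 2) * R → ∀ v,
      ‖f η v - act2 (S.hol η) (Prod.map (u η) (u η) v)‖ ≤ 1 / (16 * R) * ‖v‖)
    {δ : SurfaceGroup g} {x : SL(2, ℝ)} {l : ℝ} (hδ : S.hol δ = x * flow l * x⁻¹)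
    (N : ℕ) (hN : 1 ≤ N * l) :
    ∃ v, v ≠ 0 ∧ (4 / 3 : ℝ) ^ ⌊N * l⌋₊ * ‖v‖ ≤ 4 * R * ‖f (G x * (δ ^ N)⁻¹ * (G x)⁻¹) v‖ := by
  obtain ⟨hn1, ht1, ht2⟩ := floor_bound hN
  set n := ⌊N * l⌋₊ with hn
  set t := N * l / n with ht
  have hn0 : (n : ℝ) ≠ 0 := by
    have : (1 : ℝ) ≤ n := by exact_mod_cast hn1
    linarith
  have hnt : n * t = N * l := by rw [ht]; field_simp
  -- the chain
  set c : ℕ → SurfaceGroup g := fun k => if k = n then G x * (δ ^ N)⁻¹ else G (x * flow (k * t))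
    with hc
  have hc0 : c 0 = G x := by
    rw [hc]
    simp only [if_neg (show ¬ 0 = n by omega), Nat.cast_zero, zero_mul, flow_zero, mul_one]
  have hcn : c n = G x * (δ ^ N)⁻¹ := by rw [hc]; simp
  set z : ℕ → SL(2, ℝ) := fun k => S.hol (c k) * (x * flow (k * t)) with hz
  have hzR : ∀ k, Q (z k) ≤ R := by
    intro k
    by_cases hk : k = n
    · have : z k = S.hol (G x) * x := by
        rw [hz]
        simp only
        rw [hk, hcn, hnt, map_mul, map_inv, map_pow, hδ]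
        have : (x * flow l * x⁻¹) ^ N = x * flow (N * l) * x⁻¹ := by
          rw [flow_nat_mul]; exact conj_pow
        rw [this]; group
      rw [this]; exact hG x
    · have : z k = S.hol (G (x * flow (k * t))) * (x * flow (k * t)) := by
        rw [hz, hc]; simp only [if_neg hk]
      rw [this]; exact hG _
  have hη : ∀ k, S.hol (c (k + 1) * (c k)⁻¹) = z (k + 1) * flow (-t) * (z k)⁻¹ := by
    intro k
    rw [hz]
    simp only
    rw [map_mul, map_inv]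
    have h1 : flow (((k + 1 : ℕ) : ℝ) * t) * flow (-t) = flow (k * t) := by
      rw [flow_add]; congr 1; push_cast; ring
    have h2 : S.hol (c (k + 1)) * (x * flow (((k + 1 : ℕ) : ℝ) * t)) * flow (-t) =
        S.hol (c (k + 1)) * (x * flow (k * t)) := by rw [← h1]; group
    rw [h2]; group
  have hηQ : ∀ k, Q (S.hol (c (k + 1) * (c k)⁻¹)) ≤ R * (2 * Real.cosh 2) * R := by
    intro k
    rw [hη]
    refine (Q_mul_le _ _).trans ?_
    rw [Q_inv]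
    have h1 : Q (z (k + 1) * flow (-t)) ≤ R * (2 * Real.cosh 2) := by
      refine (Q_mul_le _ _).trans ?_
      rw [Q_flow, Real.cosh_neg]
      have : Real.cosh t ≤ Real.cosh 2 := by
        rw [Real.cosh_le_cosh, abs_of_pos (by linarith), abs_of_pos (by norm_num)]
        exact ht2
      exact mul_le_mul (hzR _) (by linarith) (by have := Real.cosh_pos t; positivity) hR.le
    exact mul_le_mul h1 (hzR k) (Q_nonneg _) (by have := Real.cosh_pos 2; positivity)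
  obtain ⟨w, hw⟩ := exists_ne (0 : W)
  set v₀ : W × W := act2 (z 0) (0, w) with hv₀
  set V : ℕ → W × W := fun k => f (c k * (c 0)⁻¹) v₀ with hV
  have hV0 : V 0 = v₀ := by rw [hV]; simp only [mul_inv_cancel, hone]
  have hVs : ∀ k, V (k + 1) = f (c (k + 1) * (c k)⁻¹) (V k) := by
    intro k
    rw [hV]
    simp only
    rw [← hmul]; congr 1; group
  have hback : ∀ k, act2 (z k) (act2 (z k)⁻¹ (V k)) = V k := by
    intro k; rw [← act2_mul, mul_inv_cancel, act2_one]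
  have key : ∀ k, ‖(act2 (z k)⁻¹ (V k)).1‖ ≤ ‖(act2 (z k)⁻¹ (V k)).2‖ ∧
      (4 / 3 : ℝ) ^ k * ‖w‖ ≤ ‖(act2 (z k)⁻¹ (V k)).2‖ := by
    intro k
    induction k with
    | zero =>
      rw [hV0, hv₀, ← act2_mul, inv_mul_cancel, act2_one]
      simp
    | succ k ih =>
      obtain ⟨ih1, ih2⟩ := ih
      have h := cone_step hR ht1 (hzR k) (hzR (k + 1)) (hη k) (u (c (k + 1) * (c k)⁻¹)) (hu _)
        (f (c (k + 1) * (c k)⁻¹)) (hclose _ (hηQ k)) _ ih1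
      rw [hback, ← hVs] at h
      refine ⟨h.1, le_trans ?_ h.2⟩
      rw [pow_succ]
      have := mul_le_mul_of_nonneg_left ih2 (show (0 : ℝ) ≤ 4 / 3 by norm_num)
      linarith
  have hRpos : 0 < √R := Real.sqrt_pos.mpr hR
  refine ⟨v₀, ?_, ?_⟩
  · intro h0
    have h1 := (key 0).2
    rw [hV0, h0] at h1
    have h2 : act2 (z 0)⁻¹ (0 : W × W) = 0 := by unfold act2; ext <;> simp
    rw [h2] at h1
    simp at h1
    exact hw h1
  · have h1 := (key n).2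
    have h2 : ‖(act2 (z n)⁻¹ (V n)).2‖ ≤ 2 * √R * ‖V n‖ :=
      (norm_snd_le _).trans (norm_act2_le (by rw [Q_inv]; exact hzR n) _)
    have h3 : ‖v₀‖ ≤ 2 * √R * ‖w‖ := by
      have := norm_act2_le (hzR 0) ((0, w) : W × W)
      rw [← hv₀] at this
      refine this.trans ?_
      rw [Prod.norm_def]; simp
    have h4 : V n = f (G x * (δ ^ N)⁻¹ * (G x)⁻¹) v₀ := by
      rw [hV]; simp only [hcn, hc0]
    rw [← h4]
    calc (4 / 3 : ℝ) ^ n * ‖v₀‖ ≤ (4 / 3 : ℝ) ^ n * (2 * √R * ‖w‖) := by gcongr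
      _ = 2 * √R * ((4 / 3 : ℝ) ^ n * ‖w‖) := by ring
      _ ≤ 2 * √R * (2 * √R * ‖V n‖) := by
        apply mul_le_mul_of_nonneg_left (h1.trans h2) (by positivity)
      _ = 4 * (√R * √R) * ‖V n‖ := by ring
      _ = 4 * R * ‖V n‖ := by rw [Real.mul_self_sqrt hR.le]

end Run7.h431.SA
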