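import Mathlib

/-!
# Simple Anosov representations of closed surface groups

`SurfaceGroup g` is the fundamental group of the closed oriented surface `S` of genus `g`.
A hyperbolic metric on `S` is given by its holonomy, lifted to `SL₂(ℝ)`.  A point of the unit tangent
bundle `T¹ℍ = PSL₂(ℝ)` is represented by a matrix `x ∈ SL₂(ℝ)` (up to sign): it is the unit tangent
vector of the geodesic `t ↦ (x aₜ) • i` at `t = 0`, where `aₜ = diag(e^{t/2}, e^{-t/2})`, and the
geodesic flow is `x ↦ x aₜ`.  All objects on `T¹S = Γ \ PSL₂(ℝ)` are described by their lifts to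
`SL₂(ℝ)`, that is, by objects on `SL₂(ℝ)` which are equivariant under `Γ` and under `-1`.
-/

open scoped MatrixGroups
open UpperHalfPlane Matrix

noncomputable section

namespace Run7.h431.SA

/-- The relator `[a₀, b₀] [a₁, b₁] ⋯ [a_{g-1}, b_{g-1}]`, where `aᵢ = (i, false)` and
`bᵢ = (i, true)`. -/
def surfaceRelator (g : ℕ) : FreeGroup (Fin g × Bool) :=
  (List.ofFn fun i : Fin g => FreeGroup.of (i, false) * FreeGroup.of (i, true) *
    (FreeGroup.of (i, false))⁻¹ * (FreeGroup.of (i, true))⁻¹).prod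

/-- The fundamental group of the closed oriented surface of genus `g`. -/
abbrev SurfaceGroup (g : ℕ) : Type := PresentedGroup {surfaceRelator g}

/-- A hyperbolic metric on the closed oriented surface of genus `g`, given by its holonomy (lifted to
`SL₂(ℝ)`): the fundamental group acts freely and properly discontinuously on the upper half plane
with compact quotient. -/
structure HypSurface (g : ℕ) where
  /-- the holonomy -/
  hol : SurfaceGroup g →* SL(2, ℝ)
  free : ∀ γ : SurfaceGroup g, γ ≠ 1 → ∀ z : ℍ, hol γ • z ≠ z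
  discontinuous : ∀ K : Set ℍ, IsCompact K →
    {γ : SurfaceGroup g | ((fun z : ℍ => hol γ • z) '' K ∩ K).Nonempty}.Finite
  cocompact : ∃ K : Set ℍ, IsCompact K ∧ ∀ z : ℍ, ∃ γ : SurfaceGroup g, hol γ • z ∈ K

/-- The matrix `aₜ = diag(e^{t/2}, e^{-t/2})`; the geodesic flow is right multiplication by `aₜ`. -/
def flow (t : ℝ) : SL(2, ℝ) :=
  ⟨!![Real.exp (t / 2), 0; 0, Real.exp (-(t / 2))], by
    rw [Matrix.det_fin_two_of, ← Real.exp_add]; simp⟩

variable {g : ℕ}

/-- The geodesic in `ℍ` with initial vector `x` projects to a simple closed geodesic of the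
surface: for some length `L > 0` it is closed with period `L`, and it does not meet itself otherwise. -/
def IsSimpleClosed (S : HypSurface g) (x : SL(2, ℝ)) : Prop :=
  ∃ L : ℝ, 0 < L ∧
    (∃ γ : SurfaceGroup g, ∀ t : ℝ, S.hol γ • (x * flow t) • (I : ℍ) = (x * flow (t + L)) • (I : ℍ)) ∧
    ∀ s t : ℝ, (∃ γ : SurfaceGroup g,
      S.hol γ • (x * flow s) • (I : ℍ) = (x * flow t) • (I : ℍ)) → ∃ n : ℤ, t - s = n * L

/-- The (preimage in `SL₂(ℝ)` of the) Birman–Series set `F₀(S) ⊂ T¹S`: the closure of the union of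
all simple closed geodesics. -/
def BirmanSeries (S : HypSurface g) : Set SL(2, ℝ) := closure {x | IsSimpleClosed S x}

/-- `ρ` is simple `k`-Anosov.
* `P` describes a continuous splitting `E_ρ = E^u ⊕ E^s` over the Birman–Series set, invariant under
  the flow: `E^u` is the range and `E^s` the kernel of the projection `P x`, and `E^u` has rank `k`.
* `N` describes a continuous metric on `E_ρ` over the Birman–Series set.
* The splitting is dominated with constants `C, c > 0`. -/
def SimpleAnosov {d : ℕ} (S : HypSurface g) (k : ℕ) (ρ : SurfaceGroup g →* SL(d, ℂ)) : Prop :=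
  ∃ (P : SL(2, ℝ) → Matrix (Fin d) (Fin d) ℂ) (N : SL(2, ℝ) → Seminorm ℂ (Fin d → ℂ)) (C c : ℝ),
    0 < C ∧ 0 < c ∧
    ContinuousOn P (BirmanSeries S) ∧
    (∀ x ∈ BirmanSeries S, P x * P x = P x ∧ (P x).rank = k ∧ P (-x) = P x ∧
      (∀ γ, P (S.hol γ * x) = (ρ γ).1 * P x * (ρ γ⁻¹).1) ∧ ∀ t, P (x * flow t) = P x) ∧
    ContinuousOn (fun p : SL(2, ℝ) × (Fin d → ℂ) => N p.1 p.2) (BirmanSeries S ×ˢ Set.univ) ∧
    (∀ x ∈ BirmanSeries S, (∀ v, N x v = 0 → v = 0) ∧ N (-x) = N x ∧
      ∀ γ v, N (S.hol γ * x) ((ρ γ).1 *ᵥ v) = N x v) ∧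
    ∀ x ∈ BirmanSeries S, ∀ v w : Fin d → ℂ, v ≠ 0 → P x *ᵥ v = v → P x *ᵥ w = 0 →
      ∀ t : ℝ, 0 ≤ t →
        N (x * flow t) w * N x v ≤ C * Real.exp (-(c * t)) * (N (x * flow t) v * N x w)

/-- The character variety `χ(Γ, SL(d, ℂ))`: its points are the characters (traces) of the
representations of `Γ` in `SL(d, ℂ)`, and its topology is that of pointwise convergence. -/
def CharVar (Γ : Type) [Group Γ] (d : ℕ) : Type :=
  {c : Γ → ℂ // ∃ ρ : Γ →* SL(d, ℂ), ∀ γ, c γ = ((ρ γ).1).trace}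

instance (Γ : Type) [Group Γ] (d : ℕ) : TopologicalSpace (CharVar Γ d) :=
  inferInstanceAs (TopologicalSpace {c : Γ → ℂ // ∃ ρ : Γ →* SL(d, ℂ), ∀ γ, c γ = ((ρ γ).1).trace})

/-- The character of a representation. -/
def character {Γ : Type} [Group Γ] {d : ℕ} (ρ : Γ →* SL(d, ℂ)) : CharVar Γ d :=
  ⟨fun γ => ((ρ γ).1).trace, ρ, fun _ => rfl⟩

/-- The automorphism group acts on the character variety by precomposition (with the inverse). -/
def act {Γ : Type} [Group Γ] {d : ℕ} (φ : MulAut Γ) (c : CharVar Γ d) : CharVar Γ d :=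
  ⟨fun γ => c.1 (φ⁻¹ γ), by
    obtain ⟨ρ, hρ⟩ := c.2
    exact ⟨ρ.comp (φ⁻¹ : MulAut Γ).toMonoidHom, fun γ => hρ _⟩⟩

/-- The outer automorphism group `Out(Γ) = Aut(Γ) / Inn(Γ)`, which is the mapping class group when
`Γ` is the fundamental group of a closed surface. -/
abbrev Out (Γ : Type) [Group Γ] : Type := MulAut Γ ⧸ (MulAut.conj : Γ →* MulAut Γ).range

/-- A domain of discontinuity: an open invariant subset of the character variety on which
`Out(Γ)` acts properly discontinuously. -/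
def IsDomain {Γ : Type} [Group Γ] {d : ℕ} (D : Set (CharVar Γ d)) : Prop :=
  IsOpen D ∧ (∀ (φ : MulAut Γ), ∀ c ∈ D, act φ c ∈ D) ∧
    ∀ K ⊆ D, IsCompact K →
      {q : Out Γ | ∃ φ : MulAut Γ, (QuotientGroup.mk φ : Out Γ) = q ∧ ∃ c ∈ K, act φ c ∈ K}.Finite

/-- A domain of discontinuity is maximal if it is not properly contained in another one. -/
def IsMaximalDomain {Γ : Type} [Group Γ] {d : ℕ} (D : Set (CharVar Γ d)) : Prop :=
  IsDomain D ∧ ∀ D' : Set (CharVar Γ d), IsDomain D' → D ⊆ D' → D' = D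

/-- The simple `k`-Anosov domain. -/
def SimpleAnosovDomain (S : HypSurface g) (k d : ℕ) : Set (CharVar (SurfaceGroup g) d) :=
  {c | ∃ ρ : SurfaceGroup g →* SL(d, ℂ), SimpleAnosov S k ρ ∧ character ρ = c}

end Run7.h431.SA
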