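import Pool.Agent.Run7.h431.SA.Defs

open scoped MatrixGroups Topology
open UpperHalfPlane Matrix Filter

noncomputable section

namespace Run7.h431.SA

/-- squared Hilbert–Schmidt norm -/
def Q (x : SL(2, ℝ)) : ℝ := x 0 0 ^ 2 + x 0 1 ^ 2 + x 1 0 ^ 2 + x 1 1 ^ 2

lemma det_eq (x : SL(2, ℝ)) : x 0 0 * x 1 1 - x 0 1 * x 1 0 = 1 := by
  have := x.det_coe
  rwa [Matrix.det_fin_two] at this

lemma Q_nonneg (x : SL(2, ℝ)) : 0 ≤ Q x := by unfold Q; positivity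

lemma two_le_Q (x : SL(2, ℝ)) : 2 ≤ Q x := by
  have := det_eq x
  unfold Q
  nlinarith [sq_nonneg (x 0 0 - x 1 1), sq_nonneg (x 0 1 + x 1 0)]

lemma mul_apply00 (x y : SL(2, ℝ)) : (x * y) 0 0 = x 0 0 * y 0 0 + x 0 1 * y 1 0 := by
  simp [Matrix.mul_apply, Fin.sum_univ_two]
lemma mul_apply01 (x y : SL(2, ℝ)) : (x * y) 0 1 = x 0 0 * y 0 1 + x 0 1 * y 1 1 := by
  simp [Matrix.mul_apply, Fin.sum_univ_two]
lemma mul_apply10 (x y : SL(2, ℝ)) : (x * y) 1 0 = x 1 0 * y 0 0 + x 1 1 * y 1 0 := by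
  simp [Matrix.mul_apply, Fin.sum_univ_two]
lemma mul_apply11 (x y : SL(2, ℝ)) : (x * y) 1 1 = x 1 0 * y 0 1 + x 1 1 * y 1 1 := by
  simp [Matrix.mul_apply, Fin.sum_univ_two]

lemma inv00 (x : SL(2, ℝ)) : x⁻¹ 0 0 = x 1 1 := by
  rw [SpecialLinearGroup.SL2_inv_expl]; rfl
lemma inv01 (x : SL(2, ℝ)) : x⁻¹ 0 1 = -x 0 1 := by
  rw [SpecialLinearGroup.SL2_inv_expl]; rfl
lemma inv10 (x : SL(2, ℝ)) : x⁻¹ 1 0 = -x 1 0 := by
  rw [SpecialLinearGroup.SL2_inv_expl]; rfl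
lemma inv11 (x : SL(2, ℝ)) : x⁻¹ 1 1 = x 0 0 := by
  rw [SpecialLinearGroup.SL2_inv_expl]; rfl

lemma Q_inv (x : SL(2, ℝ)) : Q x⁻¹ = Q x := by
  unfold Q
  rw [inv00, inv01, inv10, inv11]
  ring

lemma Q_mul_le (x y : SL(2, ℝ)) : Q (x * y) ≤ Q x * Q y := by
  unfold Q
  rw [mul_apply00, mul_apply01, mul_apply10, mul_apply11]
  nlinarith [sq_nonneg (x 0 0 * y 1 0 - x 0 1 * y 0 0), sq_nonneg (x 0 0 * y 1 1 - x 0 1 * y 0 1),
    sq_nonneg (x 1 0 * y 1 0 - x 1 1 * y 0 0), sq_nonneg (x 1 0 * y 1 1 - x 1 1 * y 0 1)]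

lemma continuous_Q : Continuous Q := by
  unfold Q
  have h : ∀ i j, Continuous fun x : SL(2, ℝ) => x i j := fun i j =>
    (continuous_apply_apply i j).comp Matrix.SpecialLinearGroup.isClosedEmbedding_val.continuous
  exact ((((h 0 0).pow 2).add ((h 0 1).pow 2)).add ((h 1 0).pow 2)).add ((h 1 1).pow 2)

lemma isCompact_Q (R : ℝ) : IsCompact {x : SL(2, ℝ) | Q x ≤ R} := by
  have hc : IsCompact {m : Matrix (Fin 2) (Fin 2) ℝ | ∀ i j, m i j ∈ Set.Icc (-√R) (√R)} := by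
    have : {m : Matrix (Fin 2) (Fin 2) ℝ | ∀ i j, m i j ∈ Set.Icc (-√R) (√R)} =
        Set.pi Set.univ fun _ : Fin 2 => Set.pi Set.univ fun _ : Fin 2 => Set.Icc (-√R) (√R) := by
      ext m
      constructor
      · intro h i _ j _; exact h i j
      · intro h i j; exact h i trivial j trivial
    rw [this]
    exact isCompact_univ_pi fun _ => isCompact_univ_pi fun _ => isCompact_Icc
  refine (Matrix.SpecialLinearGroup.isClosedEmbedding_val.isCompact_preimage hc).of_isClosed_subset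
    (isClosed_le continuous_Q continuous_const) ?_
  intro x hx i j
  change SL(2, ℝ) at x
  have hx' : Q x ≤ R := hx
  have : (x.1 i j) ^ 2 ≤ R := by
    refine le_trans ?_ hx'
    unfold Q
    fin_cases i <;> fin_cases j <;> simp <;> nlinarith [sq_nonneg (x.1 0 0), sq_nonneg (x.1 0 1),
      sq_nonneg (x.1 1 0), sq_nonneg (x.1 1 1)]
  exact abs_le.mp (Real.abs_le_sqrt this)

lemma smulI_im (x : SL(2, ℝ)) : (x • (I : ℍ)).im = 1 / (x 1 0 ^ 2 + x 1 1 ^ 2) := by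
  have h := coe_specialLinearGroup_apply x I
  have h2 := congrArg Complex.im h
  simp only [UpperHalfPlane.coe_im] at h2
  rw [h2, Complex.div_im]
  simp [Complex.normSq_apply]
  have hd := det_eq x
  have hne : x 1 1 * x 1 1 + x 1 0 * x 1 0 ≠ 0 := by
    intro h0
    have h1 : x 1 1 = 0 := by nlinarith [sq_nonneg (x 1 1), sq_nonneg (x 1 0)]
    have h2 : x 1 0 = 0 := by nlinarith [sq_nonneg (x 1 1), sq_nonneg (x 1 0)]
    rw [h1, h2] at hd; norm_num at hd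
  have hne' : x 1 0 ^ 2 + x 1 1 ^ 2 ≠ 0 := by intro h0; apply hne; linarith
  have hd' : x 0 0 * x 1 1 = 1 + x 0 1 * x 1 0 := by linarith
  rw [show x 1 1 * x 1 1 + x 1 0 * x 1 0 = x 1 0 ^ 2 + x 1 1 ^ 2 by ring, ← sub_div,
    hd', inv_eq_one_div]
  congr 1
  ring

lemma smulI_re (x : SL(2, ℝ)) :
    (x • (I : ℍ)).re = (x 0 0 * x 1 0 + x 0 1 * x 1 1) / (x 1 0 ^ 2 + x 1 1 ^ 2) := by
  have h := coe_specialLinearGroup_apply x I
  have h2 := congrArg Complex.re h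
  simp only [UpperHalfPlane.coe_re] at h2
  rw [h2, Complex.div_re]
  simp [Complex.normSq_apply]
  ring

lemma Q_eq (x : SL(2, ℝ)) :
    Q x = ((x • (I : ℍ)).re ^ 2 + (x • (I : ℍ)).im ^ 2 + 1) / (x • (I : ℍ)).im := by
  rw [smulI_im, smulI_re]
  have hd := det_eq x
  have hne : x 1 0 ^ 2 + x 1 1 ^ 2 ≠ 0 := by
    intro h0
    have h1 : x 1 1 = 0 := by nlinarith [sq_nonneg (x 1 1), sq_nonneg (x 1 0)]
    have h2 : x 1 0 = 0 := by nlinarith [sq_nonneg (x 1 1), sq_nonneg (x 1 0)]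
    rw [h1, h2] at hd; norm_num at hd
  unfold Q
  field_simp
  have h3 : x 0 0 * x 1 1 = 1 + x 0 1 * x 1 0 := by linarith
  have h4 : (x 0 0 * x 1 0 + x 0 1 * x 1 1) ^ 2 + 1 =
      (x 0 0 ^ 2 + x 0 1 ^ 2) * (x 1 0 ^ 2 + x 1 1 ^ 2) := by
    have : (x 0 0 * x 1 1 - x 0 1 * x 1 0) ^ 2 = 1 := by rw [hd]; norm_num
    linear_combination -this
  linear_combination -h4

lemma Q_eq_of_smul_I {x y : SL(2, ℝ)} (h : x • (I : ℍ) = y • (I : ℍ)) : Q x = Q y := by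
  rw [Q_eq, Q_eq, h]

lemma smul_I_of_Q {x : SL(2, ℝ)} (h : Q x ≤ 2) : x • (I : ℍ) = I := by
  have hd := det_eq x
  unfold Q at h
  have h1 : x 0 0 - x 1 1 = 0 := by
    nlinarith [sq_nonneg (x 0 0 - x 1 1), sq_nonneg (x 0 1 + x 1 0)]
  have h2 : x 0 1 + x 1 0 = 0 := by
    nlinarith [sq_nonneg (x 0 0 - x 1 1), sq_nonneg (x 0 1 + x 1 0)]
  have h3 : x 0 0 = x 1 1 := by linarith
  have h4 : x 0 1 = -x 1 0 := by linarith
  have h5 : x 1 0 ^ 2 + x 1 1 ^ 2 = 1 := by rw [h3, h4] at hd; linarith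
  apply UpperHalfPlane.ext
  apply Complex.ext
  · rw [UpperHalfPlane.coe_re, UpperHalfPlane.coe_re, smulI_re, h5, h3, h4]
    simp; ring
  · rw [UpperHalfPlane.coe_im, UpperHalfPlane.coe_im, smulI_im, h5]
    simp

variable {g : ℕ} (S : HypSurface g)

lemma finite_of_Q (R : ℝ) : {γ : SurfaceGroup g | Q (S.hol γ) ≤ R}.Finite := by
  let K : Set ℍ := (fun x : SL(2, ℝ) => x • (I : ℍ)) '' {x | Q x ≤ R} ∪ {I}
  have hK : IsCompact K := by
    refine IsCompact.union ((isCompact_Q R).image ?_) isCompact_singleton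
    fun_prop
  refine (S.discontinuous K hK).subset ?_
  intro γ hγ
  exact ⟨S.hol γ • I, ⟨I, Or.inr rfl, rfl⟩, Or.inl ⟨S.hol γ, hγ, rfl⟩⟩

lemma exists_R : ∃ R : ℝ, ∀ x : SL(2, ℝ), ∃ γ : SurfaceGroup g, Q (S.hol γ * x) ≤ R := by
  obtain ⟨K, hK, hcov⟩ := S.cocompact
  have h1 : IsCompact ((fun x : SL(2, ℝ) => x • (I : ℍ)) ⁻¹' K) :=
    isProperMap_smul_I.isCompact_preimage hK
  obtain ⟨R, hR⟩ := h1.bddAbove_image (f := Q) continuous_Q.continuousOn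
  refine ⟨R, fun x => ?_⟩
  obtain ⟨γ, hγ⟩ := hcov (x • I)
  refine ⟨γ, hR ⟨S.hol γ * x, ?_, rfl⟩⟩
  change (S.hol γ * x) • (I : ℍ) ∈ K
  rw [mul_smul]; exact hγ

/-- uniform gap -/
lemma exists_gap : ∃ m : ℝ, 2 < m ∧ ∀ γ : SurfaceGroup g, γ ≠ 1 → ∀ y : SL(2, ℝ),
    m ≤ Q (y⁻¹ * S.hol γ * y) := by
  obtain ⟨R, hR⟩ := exists_R S
  have hR2 : 0 ≤ R := by
    obtain ⟨γ, hγ⟩ := hR 1
    exact (Q_nonneg _).trans hγ
  have hfin := finite_of_Q S (R * 3 * R)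
  -- on each nontrivial element there is a gap
  have h1 : ∀ γ : SurfaceGroup g, γ ≠ 1 → ∀ᶠ m in 𝓝[>] (2 : ℝ),
      ∀ z : SL(2, ℝ), Q z ≤ R → m ≤ Q (z⁻¹ * S.hol γ * z) := by
    intro γ hγ
    rcases Set.eq_empty_or_nonempty {z : SL(2, ℝ) | Q z ≤ R} with he | hne
    · refine Eventually.of_forall fun m z hz => ?_
      exact absurd (show z ∈ {z : SL(2, ℝ) | Q z ≤ R} from hz) (by rw [he]; simp)
    · have hcont : Continuous fun z : SL(2, ℝ) => Q (z⁻¹ * S.hol γ * z) :=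
        continuous_Q.comp (by fun_prop)
      obtain ⟨z₀, hz₀, hmin⟩ := (isCompact_Q R).exists_isMinOn hne hcont.continuousOn
      have hgt : 2 < Q (z₀⁻¹ * S.hol γ * z₀) := by
        refine lt_of_le_of_ne (two_le_Q _) fun heq => ?_
        have h2 := smul_I_of_Q heq.symm.le
        apply S.free γ hγ (z₀ • I)
        have h3 : z₀ • ((z₀⁻¹ * S.hol γ * z₀) • (I : ℍ)) = z₀ • (I : ℍ) := by rw [h2]
        rw [← mul_smul] at h3
        have h4 : z₀ * (z₀⁻¹ * S.hol γ * z₀) = S.hol γ * z₀ := by group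
        rw [h4, mul_smul] at h3
        exact h3
      have : ∀ᶠ m in 𝓝[>] (2 : ℝ), m < Q (z₀⁻¹ * S.hol γ * z₀) :=
        mem_nhdsWithin_of_mem_nhds (Iio_mem_nhds hgt)
      filter_upwards [this] with m hm z hz
      exact hm.le.trans (hmin hz)
  have h2 : ∀ᶠ m in 𝓝[>] (2 : ℝ), ∀ γ ∈ {γ : SurfaceGroup g | Q (S.hol γ) ≤ R * 3 * R},
      γ ≠ 1 → ∀ z : SL(2, ℝ), Q z ≤ R → m ≤ Q (z⁻¹ * S.hol γ * z) := by
    rw [Filter.eventually_all_finite hfin]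
    intro γ _
    by_cases h : γ = 1
    · exact Eventually.of_forall fun m h' => absurd h h'
    · filter_upwards [h1 γ h] with m hm _ z hz
      exact hm z hz
  have h3 : ∀ᶠ m in 𝓝[>] (2 : ℝ), m < 3 :=
    mem_nhdsWithin_of_mem_nhds (Iio_mem_nhds (show (2 : ℝ) < 3 by norm_num))
  have h3' : ∀ᶠ m in 𝓝[>] (2 : ℝ), 2 < m := self_mem_nhdsWithin
  obtain ⟨m, hm1, hm2, hm3⟩ := (h2.and (h3.and h3')).exists
  refine ⟨m, hm3, fun γ hγ y => ?_⟩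
  by_contra hlt
  push Not at hlt
  obtain ⟨δ, hδ⟩ := hR y
  set z := S.hol δ * y with hz
  have hconj : z⁻¹ * S.hol (δ * γ * δ⁻¹) * z = y⁻¹ * S.hol γ * y := by
    rw [hz, map_mul, map_mul, map_inv]; group
  have hne : δ * γ * δ⁻¹ ≠ 1 := by
    intro h
    apply hγ
    have : γ = δ⁻¹ * (δ * γ * δ⁻¹) * δ := by group
    rw [this, h]; group
  have hQ : Q (S.hol (δ * γ * δ⁻¹)) ≤ R * 3 * R := by
    have h5 : S.hol (δ * γ * δ⁻¹) = z * (z⁻¹ * S.hol (δ * γ * δ⁻¹) * z) * z⁻¹ := by group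
    rw [h5]
    refine (Q_mul_le _ _).trans ?_
    rw [Q_inv]
    have h6 : Q (z * (z⁻¹ * S.hol (δ * γ * δ⁻¹) * z)) ≤ R * 3 := by
      refine (Q_mul_le _ _).trans ?_
      rw [hconj]
      have h7 : Q (y⁻¹ * S.hol γ * y) ≤ 3 := (hlt.trans hm2).le
      exact mul_le_mul hδ h7 (Q_nonneg _) hR2
    exact mul_le_mul h6 hδ (Q_nonneg _) (by positivity)
  have := hm1 _ hQ hne z hδ
  rw [hconj] at this
  exact absurd this (not_le.mpr hlt)

end Run7.h431.SA
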