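import Pool.Agent.Run7.h431.SA.Geo

open scoped MatrixGroups Topology
open UpperHalfPlane Matrix Filter

noncomputable section

namespace Run7.h431.SA

/-- trace -/
def tr (x : SL(2, ℝ)) : ℝ := x 0 0 + x 1 1

lemma tr_sq_le (x : SL(2, ℝ)) : tr x ^ 2 - 2 ≤ Q x := by
  have := det_eq x
  unfold Q tr
  nlinarith [sq_nonneg (x 0 1 - x 1 0)]

lemma tr_mul_comm (x y : SL(2, ℝ)) : tr (x * y) = tr (y * x) := by
  unfold tr
  rw [mul_apply00, mul_apply11, mul_apply00, mul_apply11]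
  ring

lemma tr_conj (x y : SL(2, ℝ)) : tr (x * y * x⁻¹) = tr y := by
  rw [tr_mul_comm, ← mul_assoc, inv_mul_cancel, one_mul]

lemma neg00 (x : SL(2, ℝ)) (i j : Fin 2) : (-x) i j = -x i j := by
  rw [SpecialLinearGroup.coe_neg]; rfl

lemma Q_neg (x : SL(2, ℝ)) : Q (-x) = Q x := by
  unfold Q
  simp only [neg00]
  ring

lemma tr_neg (x : SL(2, ℝ)) : tr (-x) = -tr x := by
  unfold tr
  simp only [neg00]
  ring

lemma flow00 (t : ℝ) : flow t 0 0 = Real.exp (t / 2) := rfl
lemma flow01 (t : ℝ) : flow t 0 1 = 0 := rfl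
lemma flow10 (t : ℝ) : flow t 1 0 = 0 := rfl
lemma flow11 (t : ℝ) : flow t 1 1 = Real.exp (-(t / 2)) := rfl

lemma ext2 {x y : SL(2, ℝ)} (h00 : x 0 0 = y 0 0) (h01 : x 0 1 = y 0 1) (h10 : x 1 0 = y 1 0)
    (h11 : x 1 1 = y 1 1) : x = y := by
  ext i j
  fin_cases i <;> fin_cases j
  · exact h00
  · exact h01
  · exact h10
  · exact h11

lemma flow_add (s t : ℝ) : flow s * flow t = flow (s + t) := by
  apply ext2
  · rw [mul_apply00, flow00, flow00, flow00, flow01, zero_mul, add_zero, ← Real.exp_add]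
    congr 1; ring
  · rw [mul_apply01, flow01, flow01, flow01]; ring
  · rw [mul_apply10, flow10, flow10, flow10]; ring
  · rw [mul_apply11, flow11, flow11, flow11, flow10, zero_mul, zero_add, ← Real.exp_add]
    congr 1; ring

lemma flow_zero : flow 0 = 1 := by
  apply ext2
  · rw [flow00]; simp
  · rw [flow01]; simp
  · rw [flow10]; simp
  · rw [flow11]; simp

lemma flow_neg (t : ℝ) : flow (-t) = (flow t)⁻¹ := by
  rw [eq_inv_iff_mul_eq_one, flow_add, neg_add_cancel, flow_zero]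

lemma flow_nat_mul (n : ℕ) (t : ℝ) : flow (n * t) = flow t ^ n := by
  induction n with
  | zero => simp [flow_zero]
  | succ n ih => rw [pow_succ, ← ih, flow_add]; congr 1; push_cast; ring

lemma flow_int_mul (n : ℤ) (t : ℝ) : flow (n * t) = flow t ^ n := by
  cases n with
  | ofNat n => simpa using flow_nat_mul n t
  | negSucc n =>
    rw [zpow_negSucc, ← flow_nat_mul, ← flow_neg]
    congr 1; push_cast; ring

lemma Q_flow (t : ℝ) : Q (flow t) = 2 * Real.cosh t := by
  unfold Q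
  rw [flow00, flow01, flow10, flow11, Real.cosh_eq, ← Real.exp_nat_mul, ← Real.exp_nat_mul]
  push_cast
  rw [show (2 : ℝ) * (t / 2) = t by ring, show (2 : ℝ) * -(t / 2) = -t by ring]
  ring

lemma tr_flow (t : ℝ) : tr (flow t) = 2 * Real.cosh (t / 2) := by
  unfold tr
  rw [flow00, flow11, Real.cosh_eq]
  ring

/-- the upper triangular matrix used to conjugate -/
def upperr (r u : ℝ) (hr : 0 < r) : SL(2, ℝ) :=
  ⟨!![r, u / r; 0, 1 / r], by
    rw [Matrix.det_fin_two_of]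
    have : r ≠ 0 := hr.ne'
    field_simp
    ring⟩

lemma Q_upperr_conj (A : SL(2, ℝ)) (r u : ℝ) (hr : 0 < r) :
    Q ((upperr r u hr)⁻¹ * A * upperr r u hr) =
      (A 0 0 - u * A 1 0) ^ 2 + (((A 0 0 - u * A 1 0) * u + A 0 1 - u * A 1 1) / r ^ 2) ^ 2 +
        (A 1 0 * r ^ 2) ^ 2 + (A 1 0 * u + A 1 1) ^ 2 := by
  have h : r ≠ 0 := hr.ne'
  have e00 : upperr r u hr 0 0 = r := rfl
  have e01 : upperr r u hr 0 1 = u / r := rfl
  have e10 : upperr r u hr 1 0 = 0 := rfl
  have e11 : upperr r u hr 1 1 = 1 / r := rfl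
  unfold Q
  simp only [mul_apply00, mul_apply01, mul_apply10, mul_apply11, inv00, inv01, inv10, inv11, e00,
    e01, e10, e11]
  have h3 : (1 / r * A 0 0 + -(u / r) * A 1 0) * r + (1 / r * A 0 1 + -(u / r) * A 1 1) * 0 =
      A 0 0 - u * A 1 0 := by field_simp; ring
  have h4 : (1 / r * A 0 0 + -(u / r) * A 1 0) * (u / r) +
      (1 / r * A 0 1 + -(u / r) * A 1 1) * (1 / r) =
      ((A 0 0 - u * A 1 0) * u + A 0 1 - u * A 1 1) / r ^ 2 := by
    field_simp; ring
  have h5 : (-0 * A 0 0 + r * A 1 0) * r + (-0 * A 0 1 + r * A 1 1) * 0 = A 1 0 * r ^ 2 := by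
    ring
  have h6 : (-0 * A 0 0 + r * A 1 0) * (u / r) + (-0 * A 0 1 + r * A 1 1) * (1 / r) =
      A 1 0 * u + A 1 1 := by field_simp; ring
  rw [h3, h4, h5, h6]

/-- the upper triangular matrix used to conjugate -/
def upper (w u : ℝ) (hw : 0 < w) : SL(2, ℝ) := upperr (√w) u (Real.sqrt_pos.mpr hw)

lemma Q_upper_conj (A : SL(2, ℝ)) (w u : ℝ) (hw : 0 < w) :
    Q ((upper w u hw)⁻¹ * A * upper w u hw) =
      (A 0 0 - u * A 1 0) ^ 2 + (((A 0 0 - u * A 1 0) * u + A 0 1 - u * A 1 1) / w) ^ 2 +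
        (A 1 0 * w) ^ 2 + (A 1 0 * u + A 1 1) ^ 2 := by
  unfold upper
  rw [Q_upperr_conj, Real.sq_sqrt hw.le]

/-- If `|tr A| ≤ 2` then the conjugates of `A` have `Q` arbitrarily close to `2`. -/
lemma exists_conj_lt (A : SL(2, ℝ)) (hA : |tr A| ≤ 2) {m : ℝ} (hm : 2 < m) :
    ∃ y : SL(2, ℝ), Q (y⁻¹ * A * y) < m := by
  have hd := det_eq A
  have ht : tr A ^ 2 ≤ 4 := by
    have := sq_abs (tr A)
    nlinarith [abs_nonneg (tr A)]
  by_cases hc : A 1 0 = 0
  · -- upper triangular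
    have had : A 0 0 * A 1 1 = 1 := by rw [hc] at hd; linarith
    have h1 : (A 0 0 - A 1 1) ^ 2 ≤ 0 := by unfold tr at ht; nlinarith
    have h2 : A 0 0 = A 1 1 := by
      have : A 0 0 - A 1 1 = 0 := by
        by_contra h; exact absurd h1 (not_le.mpr (by positivity))
      linarith
    have h3 : A 1 1 ^ 2 = 1 := by rw [h2] at had; nlinarith
    -- choose w large
    have hw : 0 < (A 0 1 ^ 2 + 1) / (m - 2) + 1 := by
      have : 0 < m - 2 := by linarith
      positivity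
    refine ⟨upper _ 0 hw, ?_⟩
    rw [Q_upper_conj, hc, h2]
    set w := (A 0 1 ^ 2 + 1) / (m - 2) + 1 with hwdef
    have hw1 : 1 ≤ w := by
      have : 0 < m - 2 := by linarith
      have : 0 ≤ (A 0 1 ^ 2 + 1) / (m - 2) := by positivity
      linarith
    have h4 : (A 0 1 ^ 2 + 1) < (m - 2) * w := by
      have : 0 < m - 2 := by linarith
      rw [hwdef]; field_simp; linarith
    have h5 : (A 0 1 / w) ^ 2 < m - 2 := by
      rw [div_pow, div_lt_iff₀ (by positivity)]
      nlinarith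
    simp only [zero_mul, mul_zero, sub_zero, zero_add]
    nlinarith
  · -- general
    set u := (A 0 0 - A 1 1) / (2 * A 1 0) with hu
    have hu1 : u * A 1 0 = (A 0 0 - A 1 1) / 2 := by rw [hu]; field_simp
    set β := (A 0 0 - u * A 1 0) * u + A 0 1 - u * A 1 1 with hβ
    have hβc : β * A 1 0 = tr A ^ 2 / 4 - 1 := by
      rw [hβ]
      unfold tr
      have : ((A 0 0 - u * A 1 0) * u + A 0 1 - u * A 1 1) * A 1 0 =
        (A 0 0 - u * A 1 0) * (u * A 1 0) + A 0 1 * A 1 0 - (u * A 1 0) * A 1 1 := by ring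
      rw [this, hu1]
      nlinarith
    have hkey : ∃ w : ℝ, 0 < w ∧ (β / w) ^ 2 + (A 1 0 * w) ^ 2 < m - tr A ^ 2 / 2 := by
      by_cases hβ0 : β = 0
      · have ht4 : tr A ^ 2 = 4 := by rw [hβ0] at hβc; linarith
        have hm2 : 0 < m - 2 := by linarith
        set w := √((m - 2) / 2) / |A 1 0| with hw
        have hwpos : 0 < w := by
          have := abs_pos.mpr hc
          have := Real.sqrt_pos.mpr (show 0 < (m - 2) / 2 by positivity)
          positivity
        refine ⟨w, hwpos, ?_⟩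
        rw [hβ0, ht4]
        have h6 : (A 1 0 * w) ^ 2 = (m - 2) / 2 := by
          rw [hw, mul_pow, div_pow, Real.sq_sqrt (by positivity), sq_abs]
          have : A 1 0 ^ 2 ≠ 0 := pow_ne_zero 2 hc
          field_simp
        rw [h6]; simp; linarith
      · set w := √(|β| / |A 1 0|) with hw
        have hpos : 0 < |β| / |A 1 0| := div_pos (abs_pos.mpr hβ0) (abs_pos.mpr hc)
        have hwpos : 0 < w := Real.sqrt_pos.mpr hpos
        refine ⟨w, hwpos, ?_⟩
        have hw2 : w ^ 2 = |β| / |A 1 0| := Real.sq_sqrt hpos.le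
        have h6 : (A 1 0 * w) ^ 2 = |β| * |A 1 0| := by
          rw [mul_pow, hw2, ← sq_abs (A 1 0)]
          have : |A 1 0| ≠ 0 := (abs_pos.mpr hc).ne'
          field_simp
        have h7 : (β / w) ^ 2 = |β| * |A 1 0| := by
          rw [div_pow, hw2, ← sq_abs β]
          have : |A 1 0| ≠ 0 := (abs_pos.mpr hc).ne'
          have : |β| ≠ 0 := (abs_pos.mpr hβ0).ne'
          field_simp
        rw [h6, h7, ← abs_mul, hβc, abs_of_nonpos (by linarith)]
        linarith
    obtain ⟨w, hw, hlt⟩ := hkey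
    refine ⟨upper w u hw, ?_⟩
    rw [Q_upper_conj, ← hβ]
    have e1 : A 0 0 - u * A 1 0 = tr A / 2 := by rw [hu1]; unfold tr; ring
    have e2 : A 1 0 * u + A 1 1 = tr A / 2 := by rw [mul_comm, hu1]; unfold tr; ring
    rw [e1, e2]
    linarith

variable {g : ℕ} (S : HypSurface g)

lemma two_lt_abs_tr {γ : SurfaceGroup g} (hγ : γ ≠ 1) : 2 < |tr (S.hol γ)| := by
  by_contra h
  push Not at h
  obtain ⟨m, hm, hgap⟩ := exists_gap S
  obtain ⟨y, hy⟩ := exists_conj_lt _ h hm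
  exact absurd (hgap γ hγ y) (not_le.mpr hy)

end Run7.h431.SA
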