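import Pool.Agent.Run7.h431.SA.Geo2

open scoped MatrixGroups Topology
open UpperHalfPlane Matrix Filter

noncomputable section

namespace Run7.h431.SA

/-- helper: a matrix with prescribed entries and determinant one -/
def mk2 (a b c d : ℝ) (h : a * d - b * c = 1) : SL(2, ℝ) :=
  ⟨!![a, b; c, d], by rw [Matrix.det_fin_two_of]; exact h⟩

lemma exists_flow_aux (A : SL(2, ℝ)) {l : ℝ} (hl : 1 < l) (ht : tr A = l + 1 / l) :
    ∃ x : SL(2, ℝ), A * x = x * mk2 l 0 0 (1 / l) (by field_simp; ring) := by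
  have hd := det_eq A
  have hl0 : l ≠ 0 := by linarith
  set μ := 1 / l with hμ
  have hlμ : l * μ = 1 := by rw [hμ]; field_simp
  have hμ1 : μ < 1 := by rw [hμ, div_lt_one (by linarith)]; exact hl
  have hne : l - μ ≠ 0 := by linarith
  have e00 : mk2 l 0 0 μ (by rw [hlμ]; ring) 0 0 = l := rfl
  have e01 : mk2 l 0 0 μ (by rw [hlμ]; ring) 0 1 = 0 := rfl
  have e10 : mk2 l 0 0 μ (by rw [hlμ]; ring) 1 0 = 0 := rfl
  have e11 : mk2 l 0 0 μ (by rw [hlμ]; ring) 1 1 = μ := rfl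
  unfold tr at ht
  have hl2 : l * l = (A 0 0 + A 1 1) * l - 1 := by rw [ht]; linear_combination -hlμ
  have hμ2 : μ * μ = (A 0 0 + A 1 1) * μ - 1 := by rw [ht]; linear_combination -hlμ
  by_cases hc : A 1 0 = 0
  · by_cases hb : A 0 1 = 0
    · have had : A 0 0 * A 1 1 = 1 := by rw [hb] at hd; linarith
      have h1' : (A 0 0 - l) * (A 0 0 - μ) = 0 := by
        have : A 0 0 * A 0 0 - (l + μ) * A 0 0 + l * μ = 0 := by
          rw [← ht, hlμ]; linear_combination -had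
        linear_combination this
      rcases mul_eq_zero.mp h1' with h | h
      · have ha : A 0 0 = l := by linarith
        have hdd : A 1 1 = μ := by linarith
        refine ⟨1, ?_⟩
        rw [mul_one, one_mul]
        exact ext2 (by rw [e00, ha]) (by rw [e01, hb]) (by rw [e10, hc]) (by rw [e11, hdd])
      · have ha : A 0 0 = μ := by linarith
        have hdd : A 1 1 = l := by linarith
        refine ⟨mk2 0 (-1) 1 0 (by norm_num), ?_⟩
        have f00 : mk2 0 (-1) 1 0 (by norm_num) 0 0 = 0 := rfl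
        have f01 : mk2 0 (-1) 1 0 (by norm_num) 0 1 = -1 := rfl
        have f10 : mk2 0 (-1) 1 0 (by norm_num) 1 0 = 1 := rfl
        have f11 : mk2 0 (-1) 1 0 (by norm_num) 1 1 = 0 := rfl
        apply ext2
        · rw [mul_apply00, mul_apply00, e00, e10, f00, f10, f01, ha, hb]; ring
        · rw [mul_apply01, mul_apply01, e01, e11, f00, f11, f01, ha, hb]; ring
        · rw [mul_apply10, mul_apply10, e00, e10, f00, f10, f11, hdd, hc]; ring
        · rw [mul_apply11, mul_apply11, e01, e11, f01, f10, f11, hdd, hc]; ring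
    · -- b ≠ 0
      set D := A 0 1 * (μ - l) with hD
      have hD0 : D ≠ 0 := mul_ne_zero hb (by intro h; apply hne; linarith)
      have hdet : A 0 1 * ((μ - A 0 0) / D) - (A 0 1 / D) * (l - A 0 0) = 1 := by
        field_simp; rw [hD]; ring
      refine ⟨mk2 (A 0 1) (A 0 1 / D) (l - A 0 0) ((μ - A 0 0) / D) hdet, ?_⟩
      have f00 : mk2 (A 0 1) (A 0 1 / D) (l - A 0 0) ((μ - A 0 0) / D) hdet 0 0 = A 0 1 := rfl
      have f01 : mk2 (A 0 1) (A 0 1 / D) (l - A 0 0) ((μ - A 0 0) / D) hdet 0 1 = A 0 1 / D := rfl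
      have f10 : mk2 (A 0 1) (A 0 1 / D) (l - A 0 0) ((μ - A 0 0) / D) hdet 1 0 = l - A 0 0 := rfl
      have f11 : mk2 (A 0 1) (A 0 1 / D) (l - A 0 0) ((μ - A 0 0) / D) hdet 1 1 =
        (μ - A 0 0) / D := rfl
      apply ext2
      · rw [mul_apply00, mul_apply00, e00, e10, f00, f10, f01]; ring
      · rw [mul_apply01, mul_apply01, e01, e11, f00, f11, f01]; field_simp; ring
      · rw [mul_apply10, mul_apply10, e00, e10, f00, f10, f11]
        linear_combination (-1 : ℝ) * hl2 - hd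
      · rw [mul_apply11, mul_apply11, e01, e11, f01, f10, f11]
        field_simp
        linear_combination (-1 : ℝ) * hμ2 - hd
  · set D := A 1 0 * (l - μ) with hD
    have hD0 : D ≠ 0 := mul_ne_zero hc hne
    have hdet : (l - A 1 1) * (A 1 0 / D) - ((μ - A 1 1) / D) * (A 1 0) = 1 := by
      field_simp; rw [hD]; ring
    refine ⟨mk2 (l - A 1 1) ((μ - A 1 1) / D) (A 1 0) (A 1 0 / D) hdet, ?_⟩
    have f00 : mk2 (l - A 1 1) ((μ - A 1 1) / D) (A 1 0) (A 1 0 / D) hdet 0 0 = l - A 1 1 := rfl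
    have f01 : mk2 (l - A 1 1) ((μ - A 1 1) / D) (A 1 0) (A 1 0 / D) hdet 0 1 =
      (μ - A 1 1) / D := rfl
    have f10 : mk2 (l - A 1 1) ((μ - A 1 1) / D) (A 1 0) (A 1 0 / D) hdet 1 0 = A 1 0 := rfl
    have f11 : mk2 (l - A 1 1) ((μ - A 1 1) / D) (A 1 0) (A 1 0 / D) hdet 1 1 = A 1 0 / D := rfl
    apply ext2
    · rw [mul_apply00, mul_apply00, e00, e10, f00, f10, f01]
      linear_combination (-1 : ℝ) * hl2 - hd
    · rw [mul_apply01, mul_apply01, e01, e11, f00, f11, f01]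
      field_simp
      linear_combination (-1 : ℝ) * hμ2 - hd
    · rw [mul_apply10, mul_apply10, e00, e10, f00, f10, f11]; ring
    · rw [mul_apply11, mul_apply11, e01, e11, f01, f10, f11]; field_simp; ring

/-- normal form of hyperbolic elements of positive trace -/
lemma exists_flow_pos (A : SL(2, ℝ)) (hA : 2 < tr A) :
    ∃ (x : SL(2, ℝ)) (L : ℝ), 0 < L ∧ A = x * flow L * x⁻¹ := by
  set t := tr A with ht
  have hs : 0 < √(t ^ 2 - 4) := Real.sqrt_pos.mpr (by nlinarith)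
  have hs2 : √(t ^ 2 - 4) * √(t ^ 2 - 4) = t ^ 2 - 4 := Real.mul_self_sqrt (by nlinarith)
  set l := (t + √(t ^ 2 - 4)) / 2 with hl
  have hl1 : 1 < l := by rw [hl]; linarith
  have hsum : t = l + 1 / l := by
    have hl0 : l ≠ 0 := by linarith
    have : l * l = t * l - 1 := by rw [hl]; nlinarith
    field_simp
    linarith
  obtain ⟨x, hx⟩ := exists_flow_aux A hl1 hsum
  refine ⟨x, 2 * Real.log l, by have := Real.log_pos hl1; linarith, ?_⟩
  have hl0 : 0 < l := by linarith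
  have hf : flow (2 * Real.log l) = mk2 l 0 0 (1 / l) (by field_simp; ring) := by
    apply ext2
    · rw [flow00, show 2 * Real.log l / 2 = Real.log l by ring, Real.exp_log hl0]; rfl
    · rfl
    · rfl
    · rw [flow11, show 2 * Real.log l / 2 = Real.log l by ring, Real.exp_neg, Real.exp_log hl0,
        inv_eq_one_div]
      rfl
  rw [hf, ← hx, mul_assoc, mul_inv_cancel, mul_one]

lemma mul_neg' (x y : SL(2, ℝ)) : x * -y = -(x * y) := by
  apply Subtype.ext
  simp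

lemma neg_mul' (x y : SL(2, ℝ)) : -x * y = -(x * y) := by
  apply Subtype.ext
  simp

/-- normal form of hyperbolic elements -/
lemma exists_flow (A : SL(2, ℝ)) (hA : 2 < |tr A|) :
    ∃ (x : SL(2, ℝ)) (L : ℝ), 0 < L ∧ (A = x * flow L * x⁻¹ ∨ A = -(x * flow L * x⁻¹)) ∧
      |tr A| = 2 * Real.cosh (L / 2) := by
  rcases le_or_gt 0 (tr A) with h | h
  · rw [abs_of_nonneg h] at hA
    obtain ⟨x, L, hL, he⟩ := exists_flow_pos A hA
    refine ⟨x, L, hL, Or.inl he, ?_⟩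
    rw [abs_of_nonneg h, he, tr_conj, tr_flow]
  · rw [abs_of_neg h, ← tr_neg] at hA
    obtain ⟨x, L, hL, he⟩ := exists_flow_pos (-A) hA
    refine ⟨x, L, hL, Or.inr (by rw [← he, neg_neg]), ?_⟩
    rw [abs_of_neg h, ← tr_neg, he, tr_conj, tr_flow]

lemma neg_smul_I' (x : SL(2, ℝ)) (z : ℍ) : (-x) • z = x • z := by
  apply UpperHalfPlane.ext
  rw [coe_specialLinearGroup_apply, coe_specialLinearGroup_apply]
  simp only [neg00, map_neg, Complex.ofReal_neg]
  rw [← neg_div_neg_eq]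
  congr 1 <;> ring

variable {g : ℕ} (S : HypSurface g)

lemma tr_sq_eq_cosh {A : SL(2, ℝ)} {L : ℝ} (h : |tr A| = 2 * Real.cosh (L / 2)) :
    tr A ^ 2 - 2 = 2 * Real.cosh L := by
  rw [← sq_abs, h]
  have := Real.cosh_sq (L / 2)
  have h2 := Real.cosh_two_mul (L / 2)
  rw [show 2 * (L / 2) = L by ring] at h2
  nlinarith

/-- every nontrivial element is conjugate to one with `Q` bounded in terms of the trace -/
lemma exists_conj_Q {R : ℝ} (hR : ∀ x : SL(2, ℝ), ∃ γ : SurfaceGroup g, Q (S.hol γ * x) ≤ R)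
    {γ : SurfaceGroup g} (hγ : γ ≠ 1) :
    ∃ δ : SurfaceGroup g, Q (S.hol (δ * γ * δ⁻¹)) ≤ R * (tr (S.hol γ) ^ 2 - 2) * R := by
  obtain ⟨x, L, hL, he, ht⟩ := exists_flow _ (two_lt_abs_tr S hγ)
  obtain ⟨δ, hδ⟩ := hR x
  refine ⟨δ, ?_⟩
  have hR0 : 0 ≤ R := (Q_nonneg _).trans hδ
  rw [tr_sq_eq_cosh ht]
  have key : Q (S.hol (δ * γ * δ⁻¹)) = Q ((S.hol δ * x) * flow L * (S.hol δ * x)⁻¹) := by
    rw [map_mul, map_mul, map_inv]
    rcases he with he | he
    · rw [he]; congr 1; group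
    · rw [he, mul_neg', neg_mul', Q_neg]; congr 1; group
  rw [key]
  refine (Q_mul_le _ _).trans ?_
  rw [Q_inv]
  have h1 : Q (S.hol δ * x * flow L) ≤ R * (2 * Real.cosh L) := by
    refine (Q_mul_le _ _).trans ?_
    rw [Q_flow]
    exact mul_le_mul_of_nonneg_right hδ (by have := Real.cosh_pos L; positivity)
  exact mul_le_mul h1 hδ (Q_nonneg _) (by have := Real.cosh_pos L; positivity)

/-- elements with bounded trace are conjugate into a finite set -/
lemma exists_finite_conj (B : ℝ) : ∃ F : Set (SurfaceGroup g), F.Finite ∧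
    ∀ γ : SurfaceGroup g, γ ≠ 1 → |tr (S.hol γ)| ≤ B → ∃ δ : SurfaceGroup g, δ * γ * δ⁻¹ ∈ F := by
  obtain ⟨R, hR⟩ := exists_R S
  have hR0 : 0 ≤ R := by
    obtain ⟨γ, hγ⟩ := hR 1
    exact (Q_nonneg _).trans hγ
  refine ⟨_, finite_of_Q S (R * (B ^ 2 - 2) * R), fun γ hγ hB => ?_⟩
  obtain ⟨δ, hδ⟩ := exists_conj_Q S hR hγ
  refine ⟨δ, hδ.trans ?_⟩
  have h1 : tr (S.hol γ) ^ 2 ≤ B ^ 2 := by
    rw [← sq_abs]
    exact pow_le_pow_left₀ (abs_nonneg _) hB 2
  gcongr

/-- a nontrivial element with minimal trace -/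
lemma exists_min (hne : ∃ γ : SurfaceGroup g, γ ≠ 1) :
    ∃ γ₀ : SurfaceGroup g, γ₀ ≠ 1 ∧ ∀ γ : SurfaceGroup g, γ ≠ 1 →
      |tr (S.hol γ₀)| ≤ |tr (S.hol γ)| := by
  obtain ⟨γ₁, hγ₁⟩ := hne
  obtain ⟨F, hF, hconj⟩ := exists_finite_conj S |tr (S.hol γ₁)|
  have hF' : (F ∩ {γ | γ ≠ 1}).Finite := hF.inter_of_left _
  have hconj' : ∀ γ : SurfaceGroup g, γ ≠ 1 → |tr (S.hol γ)| ≤ |tr (S.hol γ₁)| →
      ∃ γ' ∈ F ∩ {γ | γ ≠ 1}, |tr (S.hol γ')| = |tr (S.hol γ)| := by
    intro γ hγ hB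
    obtain ⟨δ, hδ⟩ := hconj γ hγ hB
    refine ⟨_, ⟨hδ, ?_⟩, ?_⟩
    · intro h
      apply hγ
      have : γ = δ⁻¹ * (δ * γ * δ⁻¹) * δ := by group
      rw [this, h]; group
    · rw [map_mul, map_mul, map_inv, tr_conj]
  obtain ⟨γ', hγ', he'⟩ := hconj' γ₁ hγ₁ le_rfl
  obtain ⟨γ₀, hγ₀, hmin⟩ := Set.exists_min_image (F ∩ {γ | γ ≠ 1}) (fun γ => |tr (S.hol γ)|) hF'
    ⟨γ', hγ'⟩
  refine ⟨γ₀, hγ₀.2, fun γ hγ => ?_⟩
  rcases le_or_gt |tr (S.hol γ)| |tr (S.hol γ₁)| with h | h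
  · obtain ⟨γ'', hγ'', he''⟩ := hconj' γ hγ h
    rw [← he'']
    exact hmin _ hγ''
  · refine le_trans ?_ h.le
    rw [← he']
    exact hmin _ hγ'

/-- the axis of an element of minimal trace is a simple closed geodesic -/
lemma isSimpleClosed_of_min {γ₀ : SurfaceGroup g}
    (hmin : ∀ γ : SurfaceGroup g, γ ≠ 1 → |tr (S.hol γ₀)| ≤ |tr (S.hol γ)|)
    {x : SL(2, ℝ)} {L : ℝ} (hL : 0 < L)
    (he : S.hol γ₀ = x * flow L * x⁻¹ ∨ S.hol γ₀ = -(x * flow L * x⁻¹))
    (ht : |tr (S.hol γ₀)| = 2 * Real.cosh (L / 2)) : IsSimpleClosed S x := by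
  have hmove : ∀ t : ℝ, S.hol γ₀ • (x * flow t) • (I : ℍ) = (x * flow (t + L)) • (I : ℍ) := by
    intro t
    rw [← mul_smul]
    have h1 : x * flow L * x⁻¹ * (x * flow t) = x * flow (t + L) := by
      rw [add_comm, ← flow_add]; group
    rcases he with he | he
    · rw [he, h1]
    · rw [he, neg_mul', neg_smul_I', h1]
  refine ⟨L, hL, ⟨γ₀, hmove⟩, ?_⟩
  have hmoven : ∀ (n : ℕ) (t : ℝ), S.hol (γ₀ ^ n) • (x * flow t) • (I : ℍ) =
      (x * flow (t + n * L)) • (I : ℍ) := by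
    intro n
    induction n with
    | zero => intro t; simp
    | succ n ih =>
      intro t
      rw [pow_succ, map_mul, mul_smul, hmove, ih]
      congr 3; push_cast; ring
  have hmovez : ∀ (n : ℤ) (t : ℝ), S.hol (γ₀ ^ n) • (x * flow t) • (I : ℍ) =
      (x * flow (t + n * L)) • (I : ℍ) := by
    intro n
    cases n with
    | ofNat n => intro t; simpa using hmoven n t
    | negSucc n =>
      intro t
      rw [zpow_negSucc, map_inv, inv_smul_eq_iff, hmoven]
      congr 3; push_cast; ring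
  rintro s t ⟨γ, hγ⟩
  set n : ℤ := round ((t - s) / L) with hn
  refine ⟨n, ?_⟩
  have habs : |(t - s) - n * L| ≤ L / 2 := by
    have := abs_sub_round ((t - s) / L)
    rw [← hn] at this
    have h2 : (t - s) - n * L = ((t - s) / L - n) * L := by field_simp
    rw [h2, abs_mul, abs_of_pos hL]
    calc |(t - s) / L - n| * L ≤ 1 / 2 * L := by gcongr
      _ = L / 2 := by ring
  -- the modified element
  set γ' := γ₀ ^ (-n) * γ with hγ'
  have h3 : S.hol γ' • (x * flow s) • (I : ℍ) = (x * flow (t - n * L)) • (I : ℍ) := by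
    rw [hγ', map_mul, mul_smul, hγ, hmovez]
    congr 3; push_cast; ring
  have h4 : ((x * flow s)⁻¹ * S.hol γ' * (x * flow s)) • (I : ℍ) =
      (flow ((t - s) - n * L)) • (I : ℍ) := by
    rw [mul_smul, mul_smul, h3, ← mul_smul]
    congr 1
    have : t - n * L = s + ((t - s) - n * L) := by ring
    rw [this, ← flow_add]; group
  have h5 := Q_eq_of_smul_I h4
  rw [Q_flow] at h5
  have h6 : γ' = 1 := by
    by_contra hne
    have h7 := hmin γ' hne
    have h8 := tr_sq_le ((x * flow s)⁻¹ * S.hol γ' * (x * flow s))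
    have h9 : tr ((x * flow s)⁻¹ * S.hol γ' * (x * flow s)) = tr (S.hol γ') := by
      have := tr_conj (x * flow s)⁻¹ (S.hol γ')
      rwa [inv_inv] at this
    rw [h9, h5] at h8
    have h10 : tr (S.hol γ₀) ^ 2 ≤ tr (S.hol γ') ^ 2 := by
      rw [← sq_abs, ← sq_abs (tr (S.hol γ'))]
      exact pow_le_pow_left₀ (abs_nonneg _) h7 2
    have h11 := tr_sq_eq_cosh ht
    have h12 : Real.cosh L ≤ Real.cosh ((t - s) - n * L) := by linarith
    rw [Real.cosh_le_cosh, abs_of_pos hL] at h12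
    linarith
  rw [h6, map_one, mul_one, inv_mul_cancel] at h5
  have h13 : Q 1 = 2 := by
    have := Q_flow 0
    rwa [flow_zero, Real.cosh_zero, mul_one] at this
  rw [h13] at h5
  have h14 : Real.cosh ((t - s) - n * L) ≤ 1 := by linarith
  have h15 : (t - s) - n * L = 0 := by
    by_contra hne
    exact absurd h14 (not_le.mpr (Real.one_lt_cosh.mpr hne))
  linarith

end Run7.h431.SA
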