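import Pool.Agent.Run7.h431.SA.Geo3

open scoped MatrixGroups Topology
open UpperHalfPlane Matrix Filter

noncomputable section

namespace Run7.h431.SA

/-- bound for diagonal entries -/
def MM (L B₁ B₂ : ℝ) : ℝ := (B₁ + B₂) / (Real.exp (L / 2) - Real.exp (-(L / 2)))

lemma exp_gap {L : ℝ} (hL : 0 < L) : 0 < Real.exp (L / 2) - Real.exp (-(L / 2)) := by
  have : Real.exp (-(L / 2)) < Real.exp (L / 2) := Real.exp_lt_exp.mpr (by linarith)
  linarith

lemma diag_bound {L B₁ B₂ : ℝ} (hL : 0 < L) {z : SL(2, ℝ)} (h1 : |tr z| ≤ B₁)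
    (h2 : |tr (flow L * z)| ≤ B₂) : |z 0 0| ≤ MM L B₁ B₂ ∧ |z 1 1| ≤ B₁ + MM L B₁ B₂ := by
  have hg := exp_gap hL
  set l := Real.exp (L / 2) with hl
  set μ := Real.exp (-(L / 2)) with hμ
  have hμ0 : 0 < μ := Real.exp_pos _
  have hμ1 : μ ≤ 1 := by rw [hμ]; exact Real.exp_le_one_iff.mpr (by linarith)
  have e : tr (flow L * z) = l * z 0 0 + μ * z 1 1 := by
    unfold tr
    rw [mul_apply00, mul_apply11, flow00, flow01, flow10, flow11]; ring
  have e2 : tr z = z 0 0 + z 1 1 := rfl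
  have key : (l - μ) * z 0 0 = tr (flow L * z) - μ * tr z := by rw [e, e2]; ring
  have h3 : |z 0 0| ≤ MM L B₁ B₂ := by
    unfold MM
    rw [le_div_iff₀ hg, mul_comm, ← abs_of_pos hg, ← abs_mul, key]
    refine (abs_sub _ _).trans ?_
    rw [abs_mul, abs_of_pos hμ0]
    have : μ * |tr z| ≤ 1 * B₁ := mul_le_mul hμ1 h1 (abs_nonneg _) zero_le_one
    linarith
  refine ⟨h3, ?_⟩
  have : z 1 1 = tr z - z 0 0 := by rw [e2]; ring
  rw [this]
  exact (abs_sub _ _).trans (add_le_add h1 h3)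

lemma tr_comm (L : ℝ) (y : SL(2, ℝ)) : tr (flow L * y * (flow L)⁻¹ * y⁻¹) =
    2 + 2 * (y 0 1 * y 1 0) - 2 * Real.cosh L * (y 0 1 * y 1 0) := by
  have hd := det_eq y
  rw [← flow_neg]
  unfold tr
  simp only [mul_apply00, mul_apply01, mul_apply10, mul_apply11, flow00, flow01, flow10, flow11,
    inv00, inv01, inv10, inv11]
  have h1 : Real.exp (L / 2) * Real.exp (-(L / 2)) = 1 := by rw [← Real.exp_add]; simp
  have h2 : Real.exp (-L / 2) = Real.exp (-(L / 2)) := by congr 1; ring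
  have h3 : Real.exp (-(-L / 2)) = Real.exp (L / 2) := by congr 1; ring
  have h4 : Real.exp (L / 2) * Real.exp (L / 2) = Real.exp L := by
    rw [← Real.exp_add]; congr 1; ring
  have h5 : Real.exp (-(L / 2)) * Real.exp (-(L / 2)) = Real.exp (-L) := by
    rw [← Real.exp_add]; congr 1; ring
  rw [h2, h3, Real.cosh_eq]
  linear_combination 2 * hd + (2 * y 0 0 * y 1 1) * h1 - y 0 1 * y 1 0 * h4 - y 0 1 * y 1 0 * h5

variable {g : ℕ} (S : HypSurface g)

/-- the signs do not matter -/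
lemma conj_eq {A x : SL(2, ℝ)} {L : ℝ} (he : A = x * flow L * x⁻¹ ∨ A = -(x * flow L * x⁻¹)) :
    MulAut.conj A = MulAut.conj (x * flow L * x⁻¹) := by
  rcases he with he | he
  · rw [he]
  · rw [he]
    ext y : 1
    rw [MulAut.conj_apply, MulAut.conj_apply]
    have h1 : (-(x * flow L * x⁻¹))⁻¹ = -(x * flow L * x⁻¹)⁻¹ := by
      rw [inv_eq_iff_mul_eq_one]
      rw [neg_mul', mul_neg', neg_neg, mul_inv_cancel]
    rw [h1, neg_mul', neg_mul', mul_neg', neg_neg]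

lemma abs_tr_eq {A x C : SL(2, ℝ)} {L : ℝ}
    (he : A = x * flow L * x⁻¹ ∨ A = -(x * flow L * x⁻¹)) :
    |tr (flow L * (x⁻¹ * C * x))| = |tr (A * C)| := by
  have h1 : tr (flow L * (x⁻¹ * C * x)) = tr (x * flow L * x⁻¹ * C) := by
    rw [← tr_conj x (flow L * (x⁻¹ * C * x))]
    congr 1; group
  rw [h1]
  rcases he with he | he
  · rw [he]
  · rw [he, neg_mul', tr_neg, abs_neg]

/-- off-diagonal entries do not vanish for non commuting elements -/
lemma offdiag_ne {a b : SurfaceGroup g} (hab : a * b ≠ b * a) {x : SL(2, ℝ)} {L : ℝ}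
    (he : S.hol a = x * flow L * x⁻¹ ∨ S.hol a = -(x * flow L * x⁻¹)) :
    (x⁻¹ * S.hol b * x) 0 1 ≠ 0 ∧ (x⁻¹ * S.hol b * x) 1 0 ≠ 0 := by
  rw [← mul_ne_zero_iff]
  intro h0
  have h1 : a * b * a⁻¹ * b⁻¹ ≠ 1 := by
    intro h; apply hab
    have h2 : a * b = (a * b * a⁻¹ * b⁻¹) * (b * a) := by group
    rw [h2, h, one_mul]
  have h2 := two_lt_abs_tr S h1
  have h3 : S.hol (a * b * a⁻¹ * b⁻¹) =
      x * (flow L * (x⁻¹ * S.hol b * x) * (flow L)⁻¹ * (x⁻¹ * S.hol b * x)⁻¹) * x⁻¹ := by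
    have h4 := congrArg (fun f => f (S.hol b)) (conj_eq he)
    simp only [MulAut.conj_apply] at h4
    rw [map_mul, map_mul, map_mul, map_inv, map_inv, h4]
    group
  rw [h3, tr_conj, tr_comm, h0] at h2
  norm_num at h2

/-- the entries of `flow t * y * (flow t)⁻¹` -/
lemma Q_flow_conj (t : ℝ) (y : SL(2, ℝ)) : Q (flow t * y * (flow t)⁻¹) =
    y 0 0 ^ 2 + (Real.exp t * y 0 1) ^ 2 + (Real.exp (-t) * y 1 0) ^ 2 + y 1 1 ^ 2 := by
  rw [← flow_neg]
  unfold Q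
  simp only [mul_apply00, mul_apply01, mul_apply10, mul_apply11, flow00, flow01, flow10, flow11]
  have h1 : Real.exp (t / 2) * Real.exp (-(t / 2)) = 1 := by rw [← Real.exp_add]; simp
  have h2 : Real.exp (-t / 2) = Real.exp (-(t / 2)) := by congr 1; ring
  have h3 : Real.exp (-(-t / 2)) = Real.exp (t / 2) := by congr 1; ring
  have h4 : Real.exp (t / 2) * Real.exp (t / 2) = Real.exp t := by
    rw [← Real.exp_add]; congr 1; ring
  have h5 : Real.exp (-(t / 2)) * Real.exp (-(t / 2)) = Real.exp (-t) := by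
    rw [← Real.exp_add]; congr 1; ring
  rw [h2, h3]
  have e1 : (Real.exp (t / 2) * y 0 0 + 0 * y 1 0) * Real.exp (-(t / 2)) +
      (Real.exp (t / 2) * y 0 1 + 0 * y 1 1) * 0 = y 0 0 := by
    linear_combination y 0 0 * h1
  have e2 : (Real.exp (t / 2) * y 0 0 + 0 * y 1 0) * 0 +
      (Real.exp (t / 2) * y 0 1 + 0 * y 1 1) * Real.exp (t / 2) = Real.exp t * y 0 1 := by
    linear_combination y 0 1 * h4
  have e3 : (0 * y 0 0 + Real.exp (-(t / 2)) * y 1 0) * Real.exp (-(t / 2)) +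
      (0 * y 0 1 + Real.exp (-(t / 2)) * y 1 1) * 0 = Real.exp (-t) * y 1 0 := by
    linear_combination y 1 0 * h5
  have e4 : (0 * y 0 0 + Real.exp (-(t / 2)) * y 1 0) * 0 +
      (0 * y 0 1 + Real.exp (-(t / 2)) * y 1 1) * Real.exp (t / 2) = y 1 1 := by
    linear_combination y 1 1 * h1
  rw [e1, e2, e3, e4]

/-- bounded automorphisms -/
def Bd (B : SurfaceGroup g → ℝ) (ψ : MulAut (SurfaceGroup g)) : Prop :=
  ∀ γ, |tr (S.hol (ψ γ))| ≤ B γ

lemma step2 (B : SurfaceGroup g → ℝ) {a b : SurfaceGroup g} (hab : a * b ≠ b * a)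
    {a' : SurfaceGroup g} (ha' : a' ≠ 1) :
    ∃ F : Set (SurfaceGroup g), F.Finite ∧ ∀ ψ : MulAut (SurfaceGroup g), Bd S B ψ → ψ a = a' →
      ∃ n : ℤ, a' ^ n * ψ b * (a' ^ n)⁻¹ ∈ F := by
  obtain ⟨x, L, hL, he, ht⟩ := exists_flow _ (two_lt_abs_tr S ha')
  set M := MM L (B b) (B (a * b)) with hM
  refine ⟨_, finite_of_Q S (Q x * (M ^ 2 + Real.exp L ^ 2 + (M * (B b + M) + 1) ^ 2 +
    (B b + M) ^ 2) * Q x), fun ψ hψ hψa => ?_⟩
  set y := x⁻¹ * S.hol (ψ b) * x with hy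
  have hab' : a' * ψ b ≠ ψ b * a' := by
    rw [← hψa, ← map_mul, ← map_mul]
    intro h; exact hab (ψ.injective h)
  obtain ⟨hq, hr⟩ := offdiag_ne S hab' he
  rw [← hy] at hq hr
  have h1 : |tr y| ≤ B b := by
    have : tr y = tr (S.hol (ψ b)) := by
      have := tr_conj x⁻¹ (S.hol (ψ b))
      rwa [inv_inv] at this
    rw [this]; exact hψ b
  have h2 : |tr (flow L * y)| ≤ B (a * b) := by
    rw [hy, abs_tr_eq he, ← map_mul, ← hψa, ← map_mul]
    exact hψ _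
  obtain ⟨hp, hs⟩ := diag_bound hL h1 h2
  rw [← hM] at hp hs
  have hM0 : 0 ≤ M := (abs_nonneg _).trans hp
  have hd := det_eq y
  have hqr : |y 0 1 * y 1 0| ≤ M * (B b + M) + 1 := by
    have : y 0 1 * y 1 0 = y 0 0 * y 1 1 - 1 := by linarith
    rw [this]
    refine (abs_sub _ _).trans ?_
    rw [abs_mul, abs_one]
    have := mul_le_mul hp hs (abs_nonneg _) hM0
    linarith
  set n : ℤ := ⌈-Real.log |y 0 1| / L⌉ with hn
  refine ⟨n, ?_⟩
  have hqpos : 0 < |y 0 1| := abs_pos.mpr hq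
  have hn1 : 0 ≤ n * L + Real.log |y 0 1| := by
    have := Int.le_ceil (-Real.log |y 0 1| / L)
    rw [← hn, div_le_iff₀ hL] at this
    linarith
  have hn2 : n * L + Real.log |y 0 1| ≤ L := by
    have := Int.ceil_lt_add_one (-Real.log |y 0 1| / L)
    rw [← hn] at this
    have h3 : (n : ℝ) * L < (-Real.log |y 0 1| / L + 1) * L := by gcongr
    have h4 : (-Real.log |y 0 1| / L + 1) * L = -Real.log |y 0 1| + L := by field_simp
    linarith
  have hexp : |Real.exp (n * L) * y 0 1| = Real.exp (n * L + Real.log |y 0 1|) := by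
    rw [abs_mul, abs_of_pos (Real.exp_pos _), Real.exp_add, Real.exp_log hqpos]
  have hb1 : |Real.exp (n * L) * y 0 1| ≤ Real.exp L := by
    rw [hexp]; exact Real.exp_le_exp.mpr hn2
  have hb2 : 1 ≤ |Real.exp (n * L) * y 0 1| := by
    rw [hexp]; exact Real.one_le_exp hn1
  have hb3 : |Real.exp (-(n * L)) * y 1 0| ≤ M * (B b + M) + 1 := by
    refine le_trans ?_ hqr
    have h5 : |y 0 1 * y 1 0| = |Real.exp (n * L) * y 0 1| * |Real.exp (-(n * L)) * y 1 0| := by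
      rw [← abs_mul]
      congr 1
      have h1 : Real.exp (n * L) * Real.exp (-(n * L)) = 1 := by rw [← Real.exp_add]; simp
      linear_combination -(y 0 1 * y 1 0) * h1
    rw [h5]
    exact le_mul_of_one_le_left (abs_nonneg _) hb2
  -- the conjugated element
  have hconj : S.hol (a' ^ n * ψ b * (a' ^ n)⁻¹) =
      x * (flow (n * L) * y * (flow (n * L))⁻¹) * x⁻¹ := by
    have h6 : MulAut.conj (S.hol a' ^ n) = MulAut.conj (x * flow (n * L) * x⁻¹) := by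
      rw [map_zpow, conj_eq he, ← map_zpow, flow_int_mul]
      congr 1
      exact conj_zpow
    have h7 := congrArg (fun f => f (S.hol (ψ b))) h6
    simp only [MulAut.conj_apply] at h7
    rw [map_mul, map_mul, map_inv, map_zpow, h7, hy]
    group
  change Q (S.hol (a' ^ n * ψ b * (a' ^ n)⁻¹)) ≤ _
  rw [hconj]
  refine (Q_mul_le _ _).trans ?_
  rw [Q_inv]
  refine mul_le_mul_of_nonneg_right ?_ (Q_nonneg _)
  refine (Q_mul_le _ _).trans ?_
  refine mul_le_mul_of_nonneg_left ?_ (Q_nonneg _)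
  rw [Q_flow_conj]
  have i1 : y 0 0 ^ 2 ≤ M ^ 2 := by rw [← sq_abs]; exact pow_le_pow_left₀ (abs_nonneg _) hp 2
  have i2 : y 1 1 ^ 2 ≤ (B b + M) ^ 2 := by
    rw [← sq_abs]; exact pow_le_pow_left₀ (abs_nonneg _) hs 2
  have i3 : (Real.exp (n * L) * y 0 1) ^ 2 ≤ Real.exp L ^ 2 := by
    rw [← sq_abs]; exact pow_le_pow_left₀ (abs_nonneg _) hb1 2
  have i4 : (Real.exp (-(n * L)) * y 1 0) ^ 2 ≤ (M * (B b + M) + 1) ^ 2 := by
    rw [← sq_abs]; exact pow_le_pow_left₀ (abs_nonneg _) hb3 2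
  linarith

lemma step3 (B : SurfaceGroup g → ℝ) {a b : SurfaceGroup g}
    {a' b' : SurfaceGroup g} (hab' : a' * b' ≠ b' * a') (γ : SurfaceGroup g) :
    ∃ F : Set (SurfaceGroup g), F.Finite ∧ ∀ ψ : MulAut (SurfaceGroup g), Bd S B ψ → ψ a = a' →
      ψ b = b' → ψ γ ∈ F := by
  have ha' : a' ≠ 1 := by rintro rfl; simp at hab'
  obtain ⟨x, L, hL, he, ht⟩ := exists_flow _ (two_lt_abs_tr S ha')
  set y := x⁻¹ * S.hol b' * x with hy
  obtain ⟨hq, hr⟩ := offdiag_ne S hab' he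
  rw [← hy] at hq hr
  set M := MM L (B γ) (B (a * γ)) with hM
  set M' := MM L (B (b * γ)) (B (a * (b * γ))) with hM'
  set C1 := (B (b * γ) + M' + |y 1 1| * (B γ + M)) / |y 1 0| with hC1
  set C2 := (M' + |y 0 0| * M) / |y 0 1| with hC2
  refine ⟨_, finite_of_Q S (Q x * (M ^ 2 + C1 ^ 2 + C2 ^ 2 + (B γ + M) ^ 2) * Q x),
    fun ψ hψ hψa hψb => ?_⟩
  set z := x⁻¹ * S.hol (ψ γ) * x with hz
  have h1 : |tr z| ≤ B γ := by
    have : tr z = tr (S.hol (ψ γ)) := by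
      have := tr_conj x⁻¹ (S.hol (ψ γ))
      rwa [inv_inv] at this
    rw [this]; exact hψ γ
  have h2 : |tr (flow L * z)| ≤ B (a * γ) := by
    rw [hz, abs_tr_eq he, ← map_mul, ← hψa, ← map_mul]
    exact hψ _
  have hyz : y * z = x⁻¹ * S.hol (ψ (b * γ)) * x := by
    rw [hy, hz, map_mul, map_mul, hψb]; group
  have h3 : |tr (y * z)| ≤ B (b * γ) := by
    have : tr (y * z) = tr (S.hol (ψ (b * γ))) := by
      have := tr_conj x⁻¹ (S.hol (ψ (b * γ)))
      rw [inv_inv] at this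
      rw [hyz, this]
    rw [this]; exact hψ _
  have h4 : |tr (flow L * (y * z))| ≤ B (a * (b * γ)) := by
    rw [hyz, abs_tr_eq he, ← map_mul, ← hψa, ← map_mul]
    exact hψ _
  obtain ⟨hp, hs⟩ := diag_bound hL h1 h2
  obtain ⟨hp', hs'⟩ := diag_bound hL h3 h4
  rw [← hM] at hp hs
  rw [← hM'] at hp' hs'
  rw [mul_apply00] at hp'
  rw [mul_apply11] at hs'
  have hM0 : 0 ≤ M := (abs_nonneg _).trans hp
  have hb1 : |z 0 1| ≤ C1 := by
    rw [hC1, le_div_iff₀ (abs_pos.mpr hr), mul_comm, ← abs_mul]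
    have : y 1 0 * z 0 1 = (y 1 0 * z 0 1 + y 1 1 * z 1 1) - y 1 1 * z 1 1 := by ring
    rw [this]
    refine (abs_sub _ _).trans ?_
    rw [abs_mul (y 1 1)]
    exact add_le_add hs' (mul_le_mul_of_nonneg_left hs (abs_nonneg _))
  have hb2 : |z 1 0| ≤ C2 := by
    rw [hC2, le_div_iff₀ (abs_pos.mpr hq), mul_comm, ← abs_mul]
    have : y 0 1 * z 1 0 = (y 0 0 * z 0 0 + y 0 1 * z 1 0) - y 0 0 * z 0 0 := by ring
    rw [this]
    refine (abs_sub _ _).trans ?_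
    rw [abs_mul (y 0 0)]
    exact add_le_add hp' (mul_le_mul_of_nonneg_left hp (abs_nonneg _))
  change Q (S.hol (ψ γ)) ≤ _
  have hx : S.hol (ψ γ) = x * z * x⁻¹ := by rw [hz]; group
  rw [hx]
  refine (Q_mul_le _ _).trans ?_
  rw [Q_inv]
  refine mul_le_mul_of_nonneg_right ?_ (Q_nonneg _)
  refine (Q_mul_le _ _).trans ?_
  refine mul_le_mul_of_nonneg_left ?_ (Q_nonneg _)
  unfold Q
  have i1 : z 0 0 ^ 2 ≤ M ^ 2 := by rw [← sq_abs]; exact pow_le_pow_left₀ (abs_nonneg _) hp 2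
  have i2 : z 1 1 ^ 2 ≤ (B γ + M) ^ 2 := by
    rw [← sq_abs]; exact pow_le_pow_left₀ (abs_nonneg _) hs 2
  have i3 : z 0 1 ^ 2 ≤ C1 ^ 2 := by
    rw [← sq_abs]; exact pow_le_pow_left₀ (abs_nonneg _) hb1 2
  have i4 : z 1 0 ^ 2 ≤ C2 ^ 2 := by
    rw [← sq_abs]; exact pow_le_pow_left₀ (abs_nonneg _) hb2 2
  linarith

/-- the generators of the surface group -/
def gen (i : Fin g × Bool) : SurfaceGroup g := PresentedGroup.of i

/-- automorphisms with bounded traces are finite in number, modulo inner ones -/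
theorem finite_out (B : SurfaceGroup g → ℝ) {a b : SurfaceGroup g} (hab : a * b ≠ b * a) :
    {q : Out (SurfaceGroup g) | ∃ φ : MulAut (SurfaceGroup g),
      (QuotientGroup.mk φ : Out (SurfaceGroup g)) = q ∧ Bd S B φ}.Finite := by
  classical
  have ha : a ≠ 1 := by rintro rfl; simp at hab
  obtain ⟨Fa, hFa, hFa'⟩ := exists_finite_conj S (B a)
  have h2 : ∀ a' : SurfaceGroup g, ∃ F : Set (SurfaceGroup g), F.Finite ∧ (a' ≠ 1 →
      ∀ ψ : MulAut (SurfaceGroup g), Bd S B ψ → ψ a = a' →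
      ∃ n : ℤ, a' ^ n * ψ b * (a' ^ n)⁻¹ ∈ F) := by
    intro a'
    by_cases h : a' = 1
    · exact ⟨∅, Set.finite_empty, fun h' => absurd h h'⟩
    · obtain ⟨F, hF, hF'⟩ := step2 S B hab h
      exact ⟨F, hF, fun _ => hF'⟩
  choose Fb hFb hFb' using h2
  have h3 : ∀ a' b' γ : SurfaceGroup g, ∃ F : Set (SurfaceGroup g), F.Finite ∧
      (a' * b' ≠ b' * a' → ∀ ψ : MulAut (SurfaceGroup g), Bd S B ψ → ψ a = a' →
      ψ b = b' → ψ γ ∈ F) := by
    intro a' b' γ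
    by_cases h : a' * b' = b' * a'
    · exact ⟨∅, Set.finite_empty, fun h' => absurd h h'⟩
    · obtain ⟨F, hF, hF'⟩ := step3 S B (a := a) (b := b) h γ
      exact ⟨F, hF, fun _ => hF'⟩
  choose Fc hFc hFc' using h3
  -- the union
  set Fall : SurfaceGroup g → Set (SurfaceGroup g) := fun γ =>
    ⋃ a' ∈ Fa, ⋃ b' ∈ Fb a', Fc a' b' γ with hFall
  have hFallfin : ∀ γ, (Fall γ).Finite := fun γ =>
    hFa.biUnion fun a' _ => (hFb a').biUnion fun b' _ => hFc a' b' γ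
  -- the finite set of automorphisms
  set Ψ : Set (MulAut (SurfaceGroup g)) := {ψ | ∀ i : Fin g × Bool, ψ (gen i) ∈ Fall (gen i)} with hΨ
  have hΨfin : Ψ.Finite := by
    have hpi : (Set.pi Set.univ fun i : Fin g × Bool => Fall (gen i)).Finite :=
      Set.Finite.pi fun i => hFallfin _
    refine Set.Finite.of_injOn (f := fun ψ : MulAut (SurfaceGroup g) => fun i => ψ (gen i))
      (t := Set.pi Set.univ fun i : Fin g × Bool => Fall (gen i)) ?_ ?_ hpi
    · intro ψ hψ i _; exact hψ i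
    · intro ψ _ ψ' _ h
      have : ψ.toMonoidHom = ψ'.toMonoidHom := PresentedGroup.ext fun i => congrFun h i
      ext γ
      exact DFunLike.congr_fun this γ
  refine (hΨfin.image (fun ψ => (QuotientGroup.mk ψ : Out (SurfaceGroup g)))).subset ?_
  rintro q ⟨φ, rfl, hφ⟩
  have hBd : ∀ (α : SurfaceGroup g) (ψ : MulAut (SurfaceGroup g)), Bd S B ψ →
      Bd S B (MulAut.conj α * ψ) := by
    intro α ψ hψ γ
    rw [MulAut.mul_apply, MulAut.conj_apply, map_mul, map_mul, map_inv, tr_conj]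
    exact hψ γ
  -- first conjugation
  have hφa : φ a ≠ 1 := by
    intro h; apply ha; exact φ.injective (by rw [h, map_one])
  obtain ⟨δ, hδ⟩ := hFa' (φ a) hφa (hφ a)
  set φ₁ := MulAut.conj δ * φ with hφ₁
  have hφ₁B := hBd δ φ hφ
  rw [← hφ₁] at hφ₁B
  have hφ₁a : φ₁ a = δ * φ a * δ⁻¹ := by rw [hφ₁, MulAut.mul_apply, MulAut.conj_apply]
  set a' := φ₁ a with ha'
  have ha'1 : a' ≠ 1 := by
    intro h; apply ha; exact φ₁.injective (by rw [map_one]; exact h)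
  rw [← hφ₁a] at hδ
  obtain ⟨n, hn⟩ := hFb' a' ha'1 φ₁ hφ₁B rfl
  set φ₂ := MulAut.conj (a' ^ n) * φ₁ with hφ₂
  have hφ₂B := hBd (a' ^ n) φ₁ hφ₁B
  rw [← hφ₂] at hφ₂B
  have hφ₂a : φ₂ a = a' := by
    rw [hφ₂, MulAut.mul_apply, MulAut.conj_apply, ← ha']
    group
  have hφ₂b : φ₂ b = a' ^ n * φ₁ b * (a' ^ n)⁻¹ := by
    rw [hφ₂, MulAut.mul_apply, MulAut.conj_apply]
  have hcomm : a' * φ₂ b ≠ φ₂ b * a' := by
    rw [← hφ₂a, ← map_mul, ← map_mul]
    intro h; exact hab (φ₂.injective h)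
  refine ⟨φ₂, ?_, ?_⟩
  · intro i
    rw [hFall]
    simp only [Set.mem_iUnion]
    refine ⟨a', hδ, φ₂ b, by rw [hφ₂b]; exact hn, ?_⟩
    exact hFc' a' (φ₂ b) (gen i) hcomm φ₂ hφ₂B hφ₂a rfl
  · -- the classes agree
    change (QuotientGroup.mk φ₂ : Out (SurfaceGroup g)) = QuotientGroup.mk φ
    rw [QuotientGroup.eq]
    have h5 : φ₂ = MulAut.conj (a' ^ n * δ) * φ := by
      rw [hφ₂, hφ₁, map_mul, mul_assoc]
    generalize a' ^ n * δ = w at h5
    refine ⟨φ⁻¹ w⁻¹, ?_⟩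
    rw [h5, _root_.mul_inv_rev, ← map_inv, mul_assoc]
    ext γ : 1
    rw [MulAut.mul_apply, MulAut.mul_apply, MulAut.conj_apply, MulAut.conj_apply, map_mul, map_mul,
      inv_inv, MulAut.inv_apply_self, ← map_inv, inv_inv]

end Run7.h431.SA
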