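import Pool.Agent.Run7.h431.SA.Spec

open scoped MatrixGroups Topology Kronecker
open UpperHalfPlane Matrix Filter

noncomputable section

namespace Run7.h431.SA

variable {g : ℕ} (S : HypSurface g) (m : ℕ) [NeZero m]

/-- The character of `rep` is not simple `k`-Anosov for `k ≠ m`. -/
theorem not_mem_domain (hg : 2 ≤ g) {k : ℕ} (hk1 : 1 ≤ k) (hk2 : k < 2 * m) (hkm : k ≠ m) :
    character (rep S m) ∉ SimpleAnosovDomain S k (2 * m) := by
  rintro ⟨ρ, ⟨P, N, C, c, hC, hc, -, hP, -, hN, hdom⟩, hρ⟩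
  -- the simple closed geodesic
  have hne : ∃ γ : SurfaceGroup g, γ ≠ 1 := by
    refine ⟨gb hg 0, fun h => gb_not_comm hg ?_⟩
    rw [h]; simp
  obtain ⟨γ₀, hγ₀, hmin⟩ := exists_min S hne
  obtain ⟨x, L, hL, he, ht⟩ := exists_flow _ (two_lt_abs_tr S hγ₀)
  have hx : x ∈ BirmanSeries S := subset_closure (isSimpleClosed_of_min S hmin hL he ht)
  obtain ⟨M, hM, hτ⟩ := exists_tau_pow (m := m) γ₀
  set ζ := γ₀ ^ M * γ₀ ^ M with hζdef
  have hζτ : tauM m ζ = 1 := by rw [hζdef, tauM_mul, hτ, Matrix.one_mul]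
  set T : ℝ := 2 * (M * L) with hT
  have hMpos : (0 : ℝ) < M := by exact_mod_cast hM
  have hTpos : 0 < T := by positivity
  have hζ : S.hol ζ = x * flow T * x⁻¹ := by
    have h1 : S.hol γ₀ * S.hol γ₀ = (x * flow L * x⁻¹) * (x * flow L * x⁻¹) := by
      rcases he with he | he
      · rw [he]
      · rw [he, neg_mul', mul_neg', neg_neg]
    have h2 : ζ = (γ₀ * γ₀) ^ M := by
      rw [hζdef, ← pow_add, ← two_mul, pow_mul, sq]
    have h3 : (x * flow L * x⁻¹) * (x * flow L * x⁻¹) = x * flow (2 * L) * x⁻¹ := by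
      rw [show 2 * L = L + L by ring, ← flow_add]; group
    rw [h2, map_pow, map_mul, h1, h3, conj_pow, ← flow_nat_mul]
    congr 3
    rw [hT]; ring
  have hζx : S.hol ζ * x = x * flow T := by rw [hζ]; group
  have hζn : ∀ n : ℕ, S.hol (ζ ^ n) * x = x * flow (n * T) := by
    intro n
    rw [map_pow, hζ, conj_pow, ← flow_nat_mul]; group
  set α := Real.exp (T / 2) with hα
  have hα1 : 1 < α := Real.one_lt_exp_iff.mpr (by positivity)
  have htr : tr (S.hol ζ) = α + α⁻¹ := by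
    rw [hζ, tr_conj, tr_flow, Real.cosh_eq, hα, ← Real.exp_neg]; ring
  set A := (ρ ζ).1 with hA
  obtain ⟨hPP, hPr, hPneg, hPeq, hPflow⟩ := hP x hx
  obtain ⟨hN0, hNneg, hNeq⟩ := hN x hx
  have hAinv : (ρ ζ⁻¹).1 * A = 1 := by
    rw [hA, ← rho_mul, inv_mul_cancel, map_one]; rfl
  have hcomm : P x * A = A * P x := by
    have h1 := hPeq ζ
    rw [hζx, hPflow, ← hA] at h1
    calc P x * A = A * P x * (ρ ζ⁻¹).1 * A := by rw [← h1]
      _ = A * P x := by rw [Matrix.mul_assoc, hAinv, Matrix.mul_one]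
  have hquad : A * A - ((α + α⁻¹ : ℝ) : ℂ) • A + 1 = 0 := by
    have := quad_rel S m hg ρ hρ hζτ
    rwa [htr] at this
  -- growth of eigenvectors
  have hpow : ∀ (v : Fin (2 * m) → ℂ) (ε : ℂ), A *ᵥ v = ε • v → ∀ n : ℕ,
      (ρ (ζ ^ n)).1 *ᵥ v = ε ^ n • v := by
    intro v ε hv n
    induction n with
    | zero =>
      rw [pow_zero, map_one, pow_zero, one_smul]
      exact Matrix.one_mulVec v
    | succ n ih =>
      rw [pow_succ, rho_mul, ← Matrix.mulVec_mulVec, ← hA, hv, Matrix.mulVec_smul, ih, smul_smul,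
        pow_succ, mul_comm ε]
  have hgrow : ∀ (v : Fin (2 * m) → ℂ) (ε : ℂ), A *ᵥ v = ε • v → ∀ n : ℕ,
      ‖ε‖ ^ n * N (x * flow (n * T)) v = N x v := by
    intro v ε hv n
    have h1 := hNeq (ζ ^ n) v
    rw [hζn, hpow v ε hv n, map_smul_eq_mul, norm_pow] at h1
    exact h1
  have hspec := spec_lemma (n := 2 * m) hk1 hk2 hα1 hquad hPP hPr hcomm (by
    intro v w ε ε' hv0 hw0 hPv hPw hAv hAw hε hε'
    by_contra hlt
    push Not at hlt
    have hεpos : 0 < ‖ε‖ := norm_pos_iff.mpr hε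
    have hε'pos : 0 < ‖ε'‖ := norm_pos_iff.mpr hε'
    have hNv : 0 < N x v := lt_of_le_of_ne (apply_nonneg _ _) (fun h => hv0 (hN0 v h.symm))
    have hNw : 0 < N x w := lt_of_le_of_ne (apply_nonneg _ _) (fun h => hw0 (hN0 w h.symm))
    have hall : ∀ n : ℕ, 1 ≤ C * Real.exp (-(c * (n * T))) := by
      intro n
      have h1 := hdom x hx v w hv0 hPv hPw (n * T) (by positivity)
      have gv := hgrow v ε hAv n
      have gw := hgrow w ε' hAw n
      set a := N (x * flow (n * T)) v with ha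
      set b := N (x * flow (n * T)) w with hb
      have hεn : 0 < ‖ε‖ ^ n := by positivity
      have hε'n : 0 < ‖ε'‖ ^ n := by positivity
      have ha0 : 0 ≤ a := apply_nonneg _ _
      have hb0 : 0 ≤ b := apply_nonneg _ _
      have hle : ‖ε'‖ ^ n ≤ ‖ε‖ ^ n := pow_le_pow_left₀ hε'pos.le hlt n
      have hapos : 0 < a := by
        rcases ha0.lt_or_eq with h | h
        · exact h
        · rw [← h, mul_zero] at gv; linarith
      have hbpos : 0 < b := by
        rcases hb0.lt_or_eq with h | h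
        · exact h
        · rw [← h, mul_zero] at gw; linarith
      set D := C * Real.exp (-(c * (n * T))) with hD
      have hDpos : 0 < D := by positivity
      -- b * (|ε|^n a) ≤ D * (a * (|ε'|^n b))
      rw [← gv, ← gw] at h1
      have h2 : (a * b) * ‖ε‖ ^ n ≤ (a * b) * (D * ‖ε'‖ ^ n) := by
        calc (a * b) * ‖ε‖ ^ n = b * (‖ε‖ ^ n * a) := by ring
          _ ≤ D * (a * (‖ε'‖ ^ n * b)) := h1
          _ = (a * b) * (D * ‖ε'‖ ^ n) := by ring
      have h3 := le_of_mul_le_mul_left h2 (mul_pos hapos hbpos)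
      have h4 : ‖ε'‖ ^ n * 1 ≤ ‖ε'‖ ^ n * D := by
        rw [mul_one, mul_comm]; exact hle.trans h3
      exact le_of_mul_le_mul_left h4 hε'n
    have hlim : Tendsto (fun n : ℕ => C * Real.exp (-(c * (n * T)))) atTop (𝓝 (C * 0)) := by
      apply Tendsto.const_mul
      apply Real.tendsto_exp_neg_atTop_nhds_zero.comp
      apply Tendsto.const_mul_atTop hc
      exact tendsto_natCast_atTop_atTop.atTop_mul_const hTpos
    rw [mul_zero] at hlim
    have h5 := ge_of_tendsto' hlim hall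
    linarith)
  have htrA : A.trace = ((α + α⁻¹ : ℝ) : ℂ) * m := by
    have h1 : A.trace = (xM S m ζ).trace := by
      have := congrArg (fun c : CharVar (SurfaceGroup g) (2 * m) => c.1 ζ) hρ
      exact this
    rw [h1, xM_trace S m hζτ, htr]
  rw [htrA] at hspec
  have h6 : (α + α⁻¹) * (m : ℝ) = α⁻¹ * k + α * ((2 * m : ℕ) - k) := by
    have h7 : (((α + α⁻¹) * (m : ℝ) : ℝ) : ℂ) = ((α⁻¹ * k + α * ((2 * m : ℕ) - k) : ℝ) : ℂ) := by
      push_cast
      push_cast at hspec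
      exact hspec
    exact_mod_cast h7
  push_cast at h6
  have h8 : (α - α⁻¹) * ((k : ℝ) - m) = 0 := by linarith
  have hα2 : α⁻¹ < 1 := inv_lt_one_of_one_lt₀ hα1
  rcases mul_eq_zero.mp h8 with h | h
  · linarith
  · apply hkm
    have : (k : ℝ) = m := by linarith
    exact_mod_cast this

/-! ### unions of domains -/

section domains

variable {Γ : Type} [Group Γ] {d : ℕ}

instance : T2Space (CharVar Γ d) :=
  inferInstanceAs (T2Space {c : Γ → ℂ // ∃ ρ : Γ →* SL(d, ℂ), ∀ γ, c γ = ((ρ γ).1).trace})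

lemma continuous_act (φ : MulAut Γ) : Continuous (act φ : CharVar Γ d → CharVar Γ d) := by
  refine Continuous.subtype_mk ?_ _
  exact continuous_pi fun γ => (continuous_apply _).comp continuous_subtype_val

lemma act_act (φ ψ : MulAut Γ) (c : CharVar Γ d) : act φ (act ψ c) = act (φ * ψ) c := by
  apply Subtype.ext
  ext γ
  change c.1 (ψ⁻¹ (φ⁻¹ γ)) = c.1 ((φ * ψ)⁻¹ γ)
  rw [_root_.mul_inv_rev]
  rfl

lemma act_one (c : CharVar Γ d) : act 1 c = c := by
  apply Subtype.ext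
  ext γ
  change c.1 ((1 : MulAut Γ)⁻¹ γ) = c.1 γ
  rw [inv_one]; rfl

/-- the orbit of a set -/
def sat (N₀ : Set (CharVar Γ d)) : Set (CharVar Γ d) := {c | ∃ φ : MulAut Γ, act φ c ∈ N₀}

lemma finite_left {Φ : Set (MulAut Γ)} (ψ : MulAut Γ)
    (h : {q : Out Γ | ∃ φ, (QuotientGroup.mk φ : Out Γ) = q ∧ ψ * φ ∈ Φ}.Finite ∨
      {q : Out Γ | ∃ φ, (QuotientGroup.mk φ : Out Γ) = q ∧ φ ∈ Φ}.Finite) :
    {q : Out Γ | ∃ φ, (QuotientGroup.mk φ : Out Γ) = q ∧ ψ * φ ∈ Φ}.Finite := by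
  rcases h with h | h
  · exact h
  · refine (h.image (fun q => (QuotientGroup.mk (ψ⁻¹ * q.out) : Out Γ))).subset ?_
    rintro q ⟨φ, rfl, hφ⟩
    refine ⟨(QuotientGroup.mk (ψ * φ) : Out Γ), ⟨_, rfl, hφ⟩, ?_⟩
    simp only
    rw [QuotientGroup.eq]
    have h1 : (QuotientGroup.mk (Quotient.out (QuotientGroup.mk (ψ * φ) : Out Γ)) : Out Γ) =
        QuotientGroup.mk (ψ * φ) := QuotientGroup.out_eq' _
    rw [QuotientGroup.eq] at h1
    have h2 : (ψ⁻¹ * Quotient.out (QuotientGroup.mk (ψ * φ) : Out Γ))⁻¹ * φ =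
        (Quotient.out (QuotientGroup.mk (ψ * φ) : Out Γ))⁻¹ * (ψ * φ) := by group
    rw [h2]; exact h1

lemma inn_normal (φ n : MulAut Γ) (hn : n ∈ (MulAut.conj : Γ →* MulAut Γ).range) :
    φ * n * φ⁻¹ ∈ (MulAut.conj : Γ →* MulAut Γ).range := by
  obtain ⟨a, rfl⟩ := hn
  refine ⟨φ a, ?_⟩
  ext γ : 1
  rw [MulAut.mul_apply, MulAut.mul_apply, MulAut.conj_apply, MulAut.conj_apply, map_mul, map_mul,
    map_inv, MulAut.apply_inv_self]

lemma finite_right {Φ : Set (MulAut Γ)} (ψ : MulAut Γ)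
    (h : {q : Out Γ | ∃ φ, (QuotientGroup.mk φ : Out Γ) = q ∧ φ ∈ Φ}.Finite) :
    {q : Out Γ | ∃ φ, (QuotientGroup.mk φ : Out Γ) = q ∧ ψ * φ⁻¹ ∈ Φ}.Finite := by
  refine (h.image (fun q => (QuotientGroup.mk (q.out⁻¹ * ψ) : Out Γ))).subset ?_
  rintro q ⟨φ, rfl, hφ⟩
  refine ⟨(QuotientGroup.mk (ψ * φ⁻¹) : Out Γ), ⟨_, rfl, hφ⟩, ?_⟩
  simp only
  rw [QuotientGroup.eq]
  have h1 : (QuotientGroup.mk (Quotient.out (QuotientGroup.mk (ψ * φ⁻¹) : Out Γ)) : Out Γ) =
      QuotientGroup.mk (ψ * φ⁻¹) := QuotientGroup.out_eq' _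
  rw [QuotientGroup.eq] at h1
  set o := Quotient.out (QuotientGroup.mk (ψ * φ⁻¹) : Out Γ) with ho
  -- `(o⁻¹ ψ)⁻¹ φ = ψ⁻¹ o φ = (ψ⁻¹ o φ)`, conjugate of `(o⁻¹ ψ φ⁻¹)⁻¹`
  have h2 : (o⁻¹ * ψ)⁻¹ * φ = (ψ⁻¹ * o) * (o⁻¹ * (ψ * φ⁻¹))⁻¹ * (ψ⁻¹ * o)⁻¹ := by group
  rw [h2]
  exact inn_normal _ _ (inv_mem h1)

/-- the key union lemma -/
theorem isDomain_union {U N₀ : Set (CharVar Γ d)} (hU : IsDomain U) (hN₀ : IsOpen N₀)
    (hstrong : ∀ K : Set (CharVar Γ d), IsCompact K →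
      {q : Out Γ | ∃ φ : MulAut Γ, (QuotientGroup.mk φ : Out Γ) = q ∧
        ∃ c ∈ K, act φ c ∈ N₀}.Finite) : IsDomain (U ∪ sat N₀) := by
  classical
  obtain ⟨hUo, hUi, hUd⟩ := hU
  have hopen : ∀ φ : MulAut Γ, IsOpen {c : CharVar Γ d | act φ c ∈ N₀} := fun φ =>
    hN₀.preimage (continuous_act φ)
  refine ⟨?_, ?_, ?_⟩
  · refine hUo.union ?_
    have : sat N₀ = ⋃ φ : MulAut Γ, {c : CharVar Γ d | act φ c ∈ N₀} := by
      ext c; simp [sat]
    rw [this]
    exact isOpen_iUnion hopen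
  · rintro φ c (hc | ⟨ψ, hψ⟩)
    · exact Or.inl (hUi φ c hc)
    · refine Or.inr ⟨ψ * φ⁻¹, ?_⟩
      rw [act_act, mul_assoc, inv_mul_cancel, mul_one]; exact hψ
  · intro K hKD hK
    set Uo : Option (MulAut Γ) → Set (CharVar Γ d) := fun o =>
      o.elim U (fun φ => {c | act φ c ∈ N₀}) with hUo'
    have hUoo : ∀ o, IsOpen (Uo o) := by
      intro o; cases o with
      | none => exact hUo
      | some φ => exact hopen φ
    have hcov : K ⊆ ⋃ o, Uo o := by
      intro c hc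
      rcases hKD hc with h | ⟨φ, hφ⟩
      · exact Set.mem_iUnion.mpr ⟨none, h⟩
      · exact Set.mem_iUnion.mpr ⟨some φ, hφ⟩
    obtain ⟨t, ht⟩ := hK.elim_finite_subcover Uo hUoo hcov
    obtain ⟨Kp, hKc, hKU, hKeq⟩ := hK.finite_compact_cover t Uo (fun o _ => hUoo o) ht
    have hpair : ∀ i j : Option (MulAut Γ), {q : Out Γ | ∃ φ : MulAut Γ,
        (QuotientGroup.mk φ : Out Γ) = q ∧ ∃ c ∈ Kp i, act φ c ∈ Kp j}.Finite := by
      intro i j
      cases j with
      | some ψ =>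
        refine (finite_left (Φ := {χ | ∃ c ∈ Kp i, act χ c ∈ N₀}) ψ
          (Or.inr (hstrong _ (hKc i)))).subset ?_
        rintro q ⟨φ, rfl, c, hc, hφ⟩
        refine ⟨φ, rfl, c, hc, ?_⟩
        have := hKU (some ψ) hφ
        rw [← act_act]; exact this
      | none =>
        cases i with
        | none => exact hUd _ (hKU none) (hKc none)
        | some ψ =>
          refine (finite_right (Φ := {χ | ∃ c ∈ Kp none, act χ c ∈ N₀}) ψ
            (hstrong _ (hKc none))).subset ?_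
          rintro q ⟨φ, rfl, c, hc, hφ⟩
          refine ⟨φ, rfl, act φ c, hφ, ?_⟩
          have := hKU (some ψ) hc
          rw [act_act, mul_assoc, inv_mul_cancel, mul_one]; exact this
    have hfin : (⋃ i ∈ t, ⋃ j ∈ t, {q : Out Γ | ∃ φ : MulAut Γ,
        (QuotientGroup.mk φ : Out Γ) = q ∧ ∃ c ∈ Kp i, act φ c ∈ Kp j}).Finite :=
      t.finite_toSet.biUnion fun i _ => t.finite_toSet.biUnion fun j _ => hpair i j
    refine hfin.subset ?_
    rintro q ⟨φ, rfl, c, hc, hφ⟩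
    rw [hKeq] at hc hφ
    simp only [Set.mem_iUnion] at hc hφ
    obtain ⟨i, hi, hci⟩ := hc
    obtain ⟨j, hj, hcj⟩ := hφ
    simp only [Set.mem_iUnion]
    exact ⟨i, hi, j, hj, φ, rfl, c, hci, hcj⟩

end domains

/-- There is a domain of discontinuity (consisting of characters near a simple `m`-Anosov one)
whose union with every domain of discontinuity is again a domain of discontinuity, and which is not
contained in the simple `k`-Anosov domain for `k ≠ m`. -/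
theorem exists_domain (hg : 2 ≤ g) : ∃ N : Set (CharVar (SurfaceGroup g) (2 * m)),
    IsDomain N ∧ (∀ U, IsDomain U → IsDomain (U ∪ N)) ∧
      ∀ k, 1 ≤ k → k < 2 * m → k ≠ m → ¬ N ⊆ SimpleAnosovDomain S k (2 * m) := by
  obtain ⟨N₀, hopen, hmem, hstrong⟩ := strong_property S m hg
  have hempty : IsDomain (∅ : Set (CharVar (SurfaceGroup g) (2 * m))) := by
    refine ⟨isOpen_empty, fun _ _ h => h.elim, fun K hK _ => ?_⟩
    have : K = ∅ := Set.subset_empty_iff.mp hK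
    subst this
    simp
  have hall : ∀ U, IsDomain U → IsDomain (U ∪ sat N₀) := fun U hU =>
    isDomain_union hU hopen hstrong
  refine ⟨sat N₀, ?_, hall, fun k hk1 hk2 hkm hsub => ?_⟩
  · have := hall ∅ hempty
    rwa [Set.empty_union] at this
  · exact not_mem_domain S m hg hk1 hk2 hkm (hsub ⟨1, by rw [act_one]; exact hmem⟩)

theorem not_maximal (hg : 2 ≤ g) {k : ℕ} (hk1 : 1 ≤ k) (hk2 : k < 2 * m) (hkm : k ≠ m) :
    ¬ IsMaximalDomain (SimpleAnosovDomain S k (2 * m)) := by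
  rintro ⟨hU, hmax⟩
  obtain ⟨N, -, hN, hnot⟩ := exists_domain S m hg
  have h1 := hmax _ (hN _ hU) Set.subset_union_left
  exact hnot k hk1 hk2 hkm (by rw [← h1]; exact Set.subset_union_right)

end Run7.h431.SA
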