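import Mathlib
import Pool.Agent.N190.Sd.Rat

open Matrix Filter Pool.Agent.N190.Sd

noncomputable section

namespace Run7.h431.SA

variable {n : ℕ}

lemma adjc_sum (A : Matrix (Fin n) (Fin n) ℂ) (d : ℕ) : ∀ k, k + d = n →
    adjc A k = ∑ j ∈ Finset.range d, A.charpoly.coeff (k + 1 + j) • A ^ j := by
  induction d with
  | zero =>
    intro k hk
    rw [adjc_eq_zero A k (by simp; omega)]; simp
  | succ d ih =>
    intro k hk
    rw [adjc_rec, ih (k + 1) (by omega), Finset.mul_sum, Finset.sum_range_succ']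
    congr 1
    · refine Finset.sum_congr rfl fun j _ => ?_
      rw [Matrix.mul_smul, pow_succ']
      congr 2; ring

lemma coeff_bound (A : Matrix (Fin n) (Fin n) ℂ) {M : ℝ} (hM : 0 ≤ M)
    (h : ∀ j, 1 ≤ j → j ≤ n → ‖(A ^ j).trace‖ ≤ M) (d : ℕ) :
    ∀ k, k + d = n → ‖A.charpoly.coeff k‖ ≤ (1 + M) ^ d := by
  induction d using Nat.strong_induction_on with
  | _ d ih =>
    intro k hk
    rcases Nat.eq_zero_or_pos d with hd | hd
    · subst hd
      have hk' : k = n := by omega
      subst hk'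
      have h2 := A.charpoly_monic.coeff_natDegree
      rw [charpoly_natDegree_eq_dim, Fintype.card_fin] at h2
      rw [h2]; simp
    · have hN := newton A k
      have h1 : (A * adjc A k).trace =
          ∑ j ∈ Finset.range d, A.charpoly.coeff (k + 1 + j) * (A ^ (j + 1)).trace := by
        rw [adjc_sum A d k hk, Finset.mul_sum, Matrix.trace_sum]
        refine Finset.sum_congr rfl fun j _ => ?_
        rw [Matrix.mul_smul, Matrix.trace_smul, smul_eq_mul, pow_succ']
      rw [h1, Fintype.card_fin] at hN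
      have h2 : ‖((k : ℂ) - n) * A.charpoly.coeff k‖ ≤
          ∑ j ∈ Finset.range d, (1 + M) ^ (d - 1 - j) * M := by
        rw [hN]
        refine (norm_sum_le _ _).trans (Finset.sum_le_sum fun j hj => ?_)
        rw [Finset.mem_range] at hj
        rw [norm_mul]
        exact mul_le_mul (ih (d - 1 - j) (by omega) (k + 1 + j) (by omega))
          (h (j + 1) (by omega) (by omega)) (norm_nonneg _) (by positivity)
      have h3 : ∑ j ∈ Finset.range d, (1 + M) ^ (d - 1 - j) * M = (1 + M) ^ d - 1 := by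
        rw [Finset.sum_range_reflect (fun j => (1 + M) ^ j * M) d, ← Finset.sum_mul]
        have := geom_sum_mul (1 + M) d
        rwa [add_sub_cancel_left] at this
      rw [h3] at h2
      have h4 : 1 ≤ ‖(k : ℂ) - n‖ := by
        have : (k : ℂ) - n = -((d : ℕ) : ℂ) := by rw [← hk]; push_cast; ring
        rw [this, norm_neg, Complex.norm_natCast]
        exact_mod_cast hd
      rw [norm_mul] at h2
      have h5 : ‖A.charpoly.coeff k‖ ≤ ‖(k : ℂ) - n‖ * ‖A.charpoly.coeff k‖ :=
        le_mul_of_one_le_left (norm_nonneg _) h4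
      linarith

lemma cayley (A : Matrix (Fin n) (Fin n) ℂ) :
    A ^ n = ∑ k ∈ Finset.range n, (-A.charpoly.coeff k) • A ^ k := by
  have h := A.aeval_self_charpoly
  rw [Polynomial.aeval_eq_sum_range, charpoly_natDegree_eq_dim, Fintype.card_fin,
    Finset.sum_range_succ] at h
  have h2 := A.charpoly_monic.coeff_natDegree
  rw [charpoly_natDegree_eq_dim, Fintype.card_fin] at h2
  rw [h2, one_smul] at h
  rw [eq_neg_of_add_eq_zero_right h, ← Finset.sum_neg_distrib]
  refine Finset.sum_congr rfl fun k _ => ?_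
  rw [neg_smul]

lemma growth {f : ℕ → ℝ} (hf : ∀ N, 0 ≤ f N) {E : ℝ} (hE : 0 ≤ E)
    (hrec : ∀ N, f (N + n) ≤ ∑ k ∈ Finset.range n, E * f (N + k)) :
    ∃ C : ℝ, 0 ≤ C ∧ ∀ N, f N ≤ C * (1 + n * E) ^ N := by
  set C := ∑ k ∈ Finset.range n, f k with hC
  have hC0 : 0 ≤ C := Finset.sum_nonneg fun k _ => hf k
  have hb : 1 ≤ 1 + n * E := by have : 0 ≤ n * E := by positivity
                                linarith
  refine ⟨C, hC0, fun N => ?_⟩
  induction N using Nat.strong_induction_on with
  | _ N ih =>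
    by_cases hN : N < n
    · have h1 : f N ≤ C := Finset.single_le_sum (f := f) (fun k _ => hf k) (Finset.mem_range.mpr hN)
      have h2 : C * 1 ≤ C * (1 + n * E) ^ N := mul_le_mul_of_nonneg_left (one_le_pow₀ hb) hC0
      linarith
    · push Not at hN
      obtain ⟨K, rfl⟩ := Nat.exists_eq_add_of_le' hN
      refine (hrec K).trans ?_
      rcases Nat.eq_zero_or_pos n with hn | hn
      · subst hn
        simp only [Finset.range_zero, Finset.sum_empty]
        positivity
      have h1 : ∀ k ∈ Finset.range n, E * f (K + k) ≤ E * (C * (1 + n * E) ^ (K + n - 1)) := by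
        intro k hk
        rw [Finset.mem_range] at hk
        apply mul_le_mul_of_nonneg_left _ hE
        refine (ih (K + k) (by omega)).trans ?_
        apply mul_le_mul_of_nonneg_left _ hC0
        exact pow_le_pow_right₀ hb (by omega)
      refine (Finset.sum_le_sum h1).trans ?_
      rw [Finset.sum_const, Finset.card_range, nsmul_eq_mul]
      have h2 : (1 + (n : ℝ) * E) ^ (K + n) = (1 + n * E) * (1 + n * E) ^ (K + n - 1) := by
        rw [← pow_succ']; congr 1; omega
      rw [h2]
      have h3 : 0 ≤ C * (1 + (n : ℝ) * E) ^ (K + n - 1) := by positivity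
      nlinarith

/-- comparison of exponential growths -/
lemma compare {l K b : ℝ} (hl : 0 < l) (hb : 1 ≤ b)
    (h : ∀ N : ℕ, 1 ≤ N * l → (4 / 3 : ℝ) ^ ⌊N * l⌋₊ ≤ K * b ^ N) :
    l * Real.log (4 / 3) ≤ Real.log b := by
  by_contra hlt
  push Not at hlt
  have hlog : 0 < Real.log (4 / 3) := Real.log_pos (by norm_num)
  set e := l * Real.log (4 / 3) - Real.log b with he
  have he0 : 0 < e := by linarith
  obtain ⟨N₁, hN₁⟩ := exists_nat_ge (1 / l)
  have hN₁' : 1 ≤ N₁ * l := by rwa [div_le_iff₀ hl] at hN₁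
  have hK : 0 < K := by
    have h1 := h N₁ hN₁'
    have h2 : (0 : ℝ) < (4 / 3 : ℝ) ^ ⌊N₁ * l⌋₊ := by positivity
    have h3 : 0 < K * b ^ N₁ := lt_of_lt_of_le h2 h1
    exact pos_of_mul_pos_left h3 (by positivity)
  obtain ⟨N₂, hN₂⟩ := exists_nat_gt ((Real.log K + Real.log (4 / 3)) / e)
  have hN₂' : Real.log K + Real.log (4 / 3) < N₂ * e := by rwa [div_lt_iff₀ he0] at hN₂
  set N := max N₁ N₂ with hN
  have hNN₁ : (N₁ : ℝ) ≤ N := by exact_mod_cast le_max_left _ _
  have hNN₂ : (N₂ : ℝ) ≤ N := by exact_mod_cast le_max_right _ _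
  have h1 := h N (hN₁'.trans (by gcongr))
  have h2 := Real.log_le_log (by positivity) h1
  rw [Real.log_mul hK.ne' (by positivity), Real.log_pow, Real.log_pow] at h2
  have h3 : N * l < ⌊N * l⌋₊ + 1 := Nat.lt_floor_add_one _
  have h4 : (N * l - 1) * Real.log (4 / 3) ≤ ⌊N * l⌋₊ * Real.log (4 / 3) := by
    apply mul_le_mul_of_nonneg_right _ hlog.le; linarith
  have h5 : N₂ * e ≤ N * e := mul_le_mul_of_nonneg_right hNN₂ he0.le
  have h6 : N * e = N * (l * Real.log (4 / 3)) - N * Real.log b := by rw [he]; ring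
  nlinarith

end Run7.h431.SA
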