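import Pool.Agent.Run7.h431.SA.Rep
import Pool.Agent.Run7.h431.SA.Cone
import Pool.Agent.Run7.h431.SA.New

open scoped MatrixGroups Topology Kronecker
open UpperHalfPlane Matrix Filter

noncomputable section

namespace Run7.h431.SA

section general

variable {Γ : Type} [Group Γ] {n : ℕ} {ι : Type} [Fintype ι] [DecidableEq ι] (s : ι → Γ)

/-- Gram matrix -/
def Tm (c : Γ → ℂ) : Matrix ι ι ℂ := fun k i => c (s k * s i)

/-- structure matrix -/
def Um (c : Γ → ℂ) (γ : Γ) : Matrix ι ι ℂ := fun k j => c (s k * (γ * s j))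

/-- left multiplication in the basis -/
def Bm (c : Γ → ℂ) (γ : Γ) : Matrix ι ι ℂ := (Tm s c)⁻¹ * Um s c γ

lemma trace_mul_sum (A : Matrix (Fin n) (Fin n) ℂ) (v : ι → Matrix (Fin n) (Fin n) ℂ)
    (a : ι → ℂ) : (A * ∑ i, a i • v i).trace = ∑ i, (A * v i).trace * a i := by
  rw [Finset.mul_sum, Matrix.trace_sum]
  refine Finset.sum_congr rfl fun i _ => ?_
  rw [Matrix.mul_smul, Matrix.trace_smul, smul_eq_mul, mul_comm]

lemma rho_mul (ρ : Γ →* SL(n, ℂ)) (γ δ : Γ) : (ρ (γ * δ)).1 = (ρ γ).1 * (ρ δ).1 := by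
  rw [map_mul]; rfl

lemma lin_indep (ρ : Γ →* SL(n, ℂ)) {c : Γ → ℂ} (hc : ∀ γ, c γ = (ρ γ).1.trace)
    (hdet : (Tm s c).det ≠ 0) : LinearIndependent ℂ (fun i => (ρ (s i)).1) := by
  rw [Fintype.linearIndependent_iff]
  intro a ha
  have h1 : Tm s c *ᵥ a = 0 := by
    ext k
    rw [Matrix.mulVec, dotProduct]
    have h2 := trace_mul_sum (ρ (s k)).1 (fun i => (ρ (s i)).1) a
    rw [ha, Matrix.mul_zero, Matrix.trace_zero] at h2
    rw [Pi.zero_apply, h2]
    refine Finset.sum_congr rfl fun i _ => ?_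
    rw [Tm, hc, rho_mul]
  have h2 := Matrix.eq_zero_of_mulVec_eq_zero hdet h1
  intro i; rw [h2]; rfl

lemma det_ne_zero (ρ : Γ →* SL(n, ℂ)) {c : Γ → ℂ} (hc : ∀ γ, c γ = (ρ γ).1.trace)
    (b : Module.Basis ι ℂ (Matrix (Fin n) (Fin n) ℂ)) (hb : ∀ i, b i = (ρ (s i)).1) :
    (Tm s c).det ≠ 0 := by
  intro h0
  obtain ⟨a, ha, ha0⟩ := Matrix.exists_mulVec_eq_zero_iff.mpr h0
  apply ha
  set y := ∑ i, a i • b i with hy
  have h1 : ∀ k, (b k * y).trace = 0 := by
    intro k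
    have h2 := congrFun ha0 k
    rw [Matrix.mulVec, dotProduct, Pi.zero_apply] at h2
    rw [hy, trace_mul_sum, ← h2]
    refine Finset.sum_congr rfl fun i _ => ?_
    rw [Tm, hc, rho_mul, hb, hb]
  have h3 : ∀ z : Matrix (Fin n) (Fin n) ℂ, (z * y).trace = 0 := by
    intro z
    rw [← b.sum_repr z, Finset.sum_mul, Matrix.trace_sum]
    refine Finset.sum_eq_zero fun i _ => ?_
    rw [Matrix.smul_mul, Matrix.trace_smul, h1, smul_zero]
  have h4 : y = 0 := by
    ext i j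
    have := h3 (Matrix.single j i 1)
    rw [Matrix.trace_single_mul] at this
    simpa using this
  have h5 := b.linearIndependent
  rw [Fintype.linearIndependent_iff] at h5
  ext i
  exact h5 a h4 i

lemma toMatrix_eq (ρ : Γ →* SL(n, ℂ)) {c : Γ → ℂ} (hc : ∀ γ, c γ = (ρ γ).1.trace)
    (b : Module.Basis ι ℂ (Matrix (Fin n) (Fin n) ℂ)) (hb : ∀ i, b i = (ρ (s i)).1) (γ : Γ) :
    LinearMap.toMatrix b b (LinearMap.mulLeft ℂ (ρ γ).1) = Bm s c γ := by
  have hdet := det_ne_zero s ρ hc b hb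
  set M := LinearMap.toMatrix b b (LinearMap.mulLeft ℂ (ρ γ).1) with hM
  have h1 : Tm s c * M = Um s c γ := by
    ext k j
    rw [Matrix.mul_apply]
    have h2 := trace_mul_sum (ρ (s k)).1 (fun i => b i) (fun i => M i j)
    have h3 : ∑ i, M i j • b i = (ρ γ).1 * b j := by
      have := b.sum_repr ((ρ γ).1 * b j)
      rw [← this]
      refine Finset.sum_congr rfl fun i _ => ?_
      rw [hM, LinearMap.toMatrix_apply, LinearMap.mulLeft_apply]
    rw [h3] at h2
    rw [Um, hc, rho_mul, rho_mul, ← hb j, h2]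
    refine Finset.sum_congr rfl fun i _ => ?_
    rw [Tm, hc, rho_mul, hb]
  rw [Bm, ← h1, ← Matrix.mul_assoc, Matrix.nonsing_inv_mul _ (isUnit_iff_ne_zero.mpr hdet),
    Matrix.one_mul]

lemma exists_basis (ρ : Γ →* SL(n, ℂ)) {c : Γ → ℂ} (hc : ∀ γ, c γ = (ρ γ).1.trace)
    (hdet : (Tm s c).det ≠ 0) (hcard : Fintype.card ι = n * n) :
    ∃ b : Module.Basis ι ℂ (Matrix (Fin n) (Fin n) ℂ), ∀ i, b i = (ρ (s i)).1 := by
  have hli := lin_indep s ρ hc hdet
  have hfin : Fintype.card ι = Module.finrank ℂ (Matrix (Fin n) (Fin n) ℂ) := by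
    rw [hcard, Module.finrank_matrix]; simp
  refine ⟨Module.Basis.mk hli (hli.span_eq_top_of_card_eq_finrank' hfin).ge, fun i => ?_⟩
  rw [Module.Basis.mk_apply]

/-- basis of group elements from spanning -/
lemma exists_index (ρ : Γ →* SL(n, ℂ))
    (hspan : Submodule.span ℂ (Set.range fun γ => (ρ γ).1) = ⊤) :
    ∃ (s : Fin (n * n) → Γ) (b : Module.Basis (Fin (n * n)) ℂ (Matrix (Fin n) (Fin n) ℂ)),
      ∀ i, b i = (ρ (s i)).1 := by
  have hfin : Module.finrank ℂ (Matrix (Fin n) (Fin n) ℂ) = n * n := by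
    rw [Module.finrank_matrix]; simp
  obtain ⟨f, hf, hsp, hli⟩ := Submodule.exists_fun_fin_finrank_span_eq ℂ
    (Set.range fun γ => (ρ γ).1)
  have hN : Module.finrank ℂ (Submodule.span ℂ (Set.range fun γ => (ρ γ).1)) = n * n := by
    rw [hspan, finrank_top, hfin]
  choose s hs using hf
  have hli' : LinearIndependent ℂ (f ∘ finCongr hN.symm) := hli.comp _ (finCongr hN.symm).injective
  have hsp' : ⊤ ≤ Submodule.span ℂ (Set.range (f ∘ finCongr hN.symm)) := by
    rw [(finCongr hN.symm).surjective.range_comp, hsp, hspan]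
  refine ⟨s ∘ finCongr hN.symm, Module.Basis.mk hli' hsp', fun i => ?_⟩
  rw [Module.Basis.mk_apply]
  exact (hs _).symm

end general

end Run7.h431.SA
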