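import Pool.Agent.Run7.h431.SA.Rec

open scoped MatrixGroups Topology Kronecker
open UpperHalfPlane Matrix Filter

noncomputable section

namespace Run7.h431.SA

/-- the space `W` -/
abbrev WW (m : ℕ) : Type := Fin (2 * m) → Fin m → ℂ

/-- matrices as pairs -/
def eV (m : ℕ) : Matrix (Fin (2 * m)) (Fin (2 * m)) ℂ ≃ₗ[ℂ] WW m × WW m where
  toFun A := (fun j i => A (finProdFinEquiv (0, i)) j, fun j i => A (finProdFinEquiv (1, i)) j)
  invFun v := fun p j => if (finProdFinEquiv.symm p).1 = 0 then v.1 j (finProdFinEquiv.symm p).2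
    else v.2 j (finProdFinEquiv.symm p).2
  map_add' A B := rfl
  map_smul' r A := rfl
  left_inv A := by
    ext p j
    obtain ⟨⟨a, i⟩, rfl⟩ := finProdFinEquiv.surjective p
    simp only [Equiv.symm_apply_apply]
    fin_cases a <;> simp
  right_inv v := by
    ext j i <;> simp

lemma eV_fst {m : ℕ} (A : Matrix (Fin (2 * m)) (Fin (2 * m)) ℂ) (j : Fin (2 * m)) (i : Fin m) :
    (eV m A).1 j i = A (finProdFinEquiv (0, i)) j := rfl

lemma eV_snd {m : ℕ} (A : Matrix (Fin (2 * m)) (Fin (2 * m)) ℂ) (j : Fin (2 * m)) (i : Fin m) :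
    (eV m A).2 j i = A (finProdFinEquiv (1, i)) j := rfl

variable {g : ℕ} (S : HypSurface g) (m : ℕ) [NeZero m]

/-- the isometries -/
def uW (γ : SurfaceGroup g) : WW m →ₗ[ℂ] WW m where
  toFun w := fun j => tauM m γ *ᵥ w j
  map_add' v w := by ext j i; simp [Matrix.mulVec_add]
  map_smul' r w := by ext j i; simp [Matrix.mulVec_smul]

lemma norm_uW (γ : SurfaceGroup g) (w : WW m) : ‖uW m γ w‖ = ‖w‖ := by
  have h : ∀ j, ‖uW m γ w j‖ = ‖w j‖ := fun j => SP_norm (tauM_SP γ) (w j)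
  apply le_antisymm
  · rw [pi_norm_le_iff_of_nonneg (norm_nonneg _)]
    intro j; rw [h]; exact norm_le_pi_norm _ _
  · rw [pi_norm_le_iff_of_nonneg (norm_nonneg _)]
    intro j; rw [← h]; exact norm_le_pi_norm _ _

lemma eV_mul (γ : SurfaceGroup g) (A : Matrix (Fin (2 * m)) (Fin (2 * m)) ℂ) :
    eV m (xM S m γ * A) = act2 (S.hol γ) (Prod.map (uW m γ) (uW m γ) (eV m A)) := by
  have key : ∀ (a : Fin 2) (i : Fin m) (j : Fin (2 * m)),
      (xM S m γ * A) (finProdFinEquiv (a, i)) j =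
        ((S.hol γ a 0 : ℝ) : ℂ) * ∑ k, tauM m γ i k * A (finProdFinEquiv (0, k)) j +
        ((S.hol γ a 1 : ℝ) : ℂ) * ∑ k, tauM m γ i k * A (finProdFinEquiv (1, k)) j := by
    intro a i j
    rw [Matrix.mul_apply, ← (finProdFinEquiv (m := 2) (n := m)).sum_comp, Fintype.sum_prod_type,
      Fin.sum_univ_two, Finset.mul_sum, Finset.mul_sum]
    congr 1
    · refine Finset.sum_congr rfl fun k _ => ?_
      rw [xM_apply]; ring
    · refine Finset.sum_congr rfl fun k _ => ?_
      rw [xM_apply]; ring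
  ext j i
  · rw [eV_fst, key]; rfl
  · rw [eV_snd, key]; rfl

section
variable {Γ : Type} [Group Γ] {n : ℕ} {ι : Type} [Fintype ι] [DecidableEq ι] (s : ι → Γ)

lemma continuous_char (γ : Γ) : Continuous fun c : CharVar Γ n => c.1 γ :=
  (continuous_apply γ).comp continuous_subtype_val

lemma continuous_Tm : Continuous fun c : CharVar Γ n => Tm s c.1 :=
  continuous_matrix fun _ _ => continuous_char _

lemma continuous_Um (γ : Γ) : Continuous fun c : CharVar Γ n => Um s c.1 γ :=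
  continuous_matrix fun _ _ => continuous_char _

lemma continuousAt_Bm (γ : Γ) (c : CharVar Γ n) (hc : (Tm s c.1).det ≠ 0) :
    ContinuousAt (fun c : CharVar Γ n => Bm s c.1 γ) c := by
  unfold Bm
  have h1 : ContinuousAt (fun c : CharVar Γ n => (Tm s c.1)⁻¹) c := by
    have h2 : (fun c : CharVar Γ n => (Tm s c.1)⁻¹) =
        fun c : CharVar Γ n => ((Tm s c.1).det)⁻¹ • (Tm s c.1).adjugate := by
      ext c : 1
      rw [Matrix.inv_def, Ring.inverse_eq_inv']
    rw [h2]
    exact ((continuous_Tm s).matrix_det.continuousAt.inv₀ hc).smul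
      (continuous_Tm s).matrix_adjugate.continuousAt
  exact h1.mul (continuous_Um s γ).continuousAt

end

lemma toMatrix_map {ι M V : Type*} [Fintype ι] [DecidableEq ι] [AddCommGroup M] [Module ℂ M]
    [AddCommGroup V] [Module ℂ V] (b : Module.Basis ι ℂ M) (e : M ≃ₗ[ℂ] V) (f : M →ₗ[ℂ] M) (v : V) :
    Matrix.toLin (b.map e) (b.map e) (LinearMap.toMatrix b b f) v = e (f (e.symm v)) := by
  have h : LinearMap.toMatrix (b.map e) (b.map e) (e.toLinearMap ∘ₗ f ∘ₗ e.symm.toLinearMap) =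
      LinearMap.toMatrix b b f := by
    ext i j
    rw [LinearMap.toMatrix_apply, LinearMap.toMatrix_apply, Module.Basis.map_repr,
      Module.Basis.map_apply]
    simp
  rw [← h, Matrix.toLin_toMatrix]
  rfl

/-- a neighbourhood of the character of `rep` on which the reconstructed representation is close -/
lemma exists_nhd (hg : 2 ≤ g) {ε : ℝ} (hε : 0 < ε) {F : Set (SurfaceGroup g)} (hF : F.Finite) :
    ∃ (s : Fin ((2 * m) * (2 * m)) → SurfaceGroup g)
      (bV : Module.Basis (Fin ((2 * m) * (2 * m))) ℂ (WW m × WW m))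
      (N₀ : Set (CharVar (SurfaceGroup g) (2 * m))), IsOpen N₀ ∧ character (rep S m) ∈ N₀ ∧
      (Tm s (character (rep S m)).1).det ≠ 0 ∧
      ∀ c ∈ N₀, (Tm s c.1).det ≠ 0 ∧ ∀ η ∈ F, ∀ v,
        ‖Matrix.toLin bV bV (Bm s c.1 η) v - act2 (S.hol η) (Prod.map (uW m η) (uW m η) v)‖ ≤
          ε * ‖v‖ := by
  obtain ⟨s, b, hb⟩ := exists_index (rep S m) (span_xM S m hg)
  set χ := character (rep S m) with hχ
  have hχc : ∀ γ, χ.1 γ = (rep S m γ).1.trace := fun _ => rfl
  have hdet := det_ne_zero s (rep S m) hχc b hb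
  set bV := b.map (eV m) with hbV
  have hlim : ∀ η v, Matrix.toLin bV bV (Bm s χ.1 η) v =
      act2 (S.hol η) (Prod.map (uW m η) (uW m η) v) := by
    intro η v
    rw [← toMatrix_eq s (rep S m) hχc b hb, hbV, toMatrix_map, LinearMap.mulLeft_apply, rep_val,
      eV_mul, LinearEquiv.apply_symm_apply]
  -- the linear map to continuous endomorphisms
  set Lc : Matrix (Fin ((2 * m) * (2 * m))) (Fin ((2 * m) * (2 * m))) ℂ →ₗ[ℂ]
      ((WW m × WW m) →L[ℂ] (WW m × WW m)) :=
    (LinearMap.toContinuousLinearMap : ((WW m × WW m) →ₗ[ℂ] (WW m × WW m)) ≃ₗ[ℂ] _).toLinearMap ∘ₗ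
      (Matrix.toLin bV bV).toLinearMap with hLc
  have hLcc : Continuous Lc := LinearMap.continuous_of_finiteDimensional Lc
  have hev : ∀ᶠ c in 𝓝 χ, (Tm s c.1).det ≠ 0 ∧ ∀ η ∈ F,
      ‖Lc (Bm s c.1 η) - Lc (Bm s χ.1 η)‖ < ε := by
    apply Filter.Eventually.and
    · exact (continuous_Tm s).matrix_det.continuousAt.eventually_ne hdet
    · rw [Filter.eventually_all_finite hF]
      intro η _
      have h1 : ContinuousAt (fun c : CharVar (SurfaceGroup g) (2 * m) =>
          ‖Lc (Bm s c.1 η) - Lc (Bm s χ.1 η)‖) χ := by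
        have h2 : ContinuousAt (fun c : CharVar (SurfaceGroup g) (2 * m) => Lc (Bm s c.1 η)) χ :=
          hLcc.continuousAt.comp (continuousAt_Bm s η χ hdet)
        exact (h2.sub continuousAt_const).norm
      have h3 := h1.tendsto
      simp only [sub_self, norm_zero] at h3
      exact h3.eventually (Iio_mem_nhds hε)
  obtain ⟨N₀, hN₀, hopen, hmem⟩ := eventually_nhds_iff.mp hev
  refine ⟨s, bV, N₀, hopen, hmem, hdet, fun c hc => ⟨(hN₀ c hc).1, fun η hη v => ?_⟩⟩
  have h1 := (hN₀ c hc).2 η hη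
  rw [← hlim]
  have h2 : Matrix.toLin bV bV (Bm s c.1 η) v - Matrix.toLin bV bV (Bm s χ.1 η) v =
      (Lc (Bm s c.1 η) - Lc (Bm s χ.1 η)) v := rfl
  rw [h2]
  exact (ContinuousLinearMap.le_opNorm _ _).trans (mul_le_mul_of_nonneg_right h1.le (norm_nonneg _))

end Run7.h431.SA
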