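import Pool.Agent.Run7.h431.SA.Rec2

open scoped MatrixGroups Topology Kronecker
open UpperHalfPlane Matrix Filter

noncomputable section

namespace Run7.h431.SA

variable {g : ℕ} (S : HypSurface g) (m : ℕ) [NeZero m]

/-- the bound on the trace of the holonomy -/
def trB (m : ℕ) (M : ℝ) : ℝ :=
  2 * Real.cosh (Real.log (1 + ((2 * m : ℕ) : ℝ) * (1 + M) ^ (2 * m)) / (4 * Real.log (4 / 3)))

theorem trace_bound (hg : 2 ≤ g) : ∃ (N₀ : Set (CharVar (SurfaceGroup g) (2 * m))),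
    IsOpen N₀ ∧ character (rep S m) ∈ N₀ ∧
    ∀ M : ℝ, 0 ≤ M → ∀ c ∈ N₀, ∀ γ : SurfaceGroup g,
      (∀ j, 1 ≤ j → j ≤ 2 * m → ‖c.1 ((γ ^ 2)⁻¹ ^ j)‖ ≤ M) → |tr (S.hol γ)| ≤ trB m M := by
  obtain ⟨R₁, hR₁⟩ := exists_R S
  set R := max R₁ 1 with hRdef
  have hR : 0 < R := lt_of_lt_of_le one_pos (le_max_right _ _)
  have hR' : ∀ x : SL(2, ℝ), ∃ γ : SurfaceGroup g, Q (S.hol γ * x) ≤ R := fun x => by
    obtain ⟨γ, hγ⟩ := hR₁ x
    exact ⟨γ, hγ.trans (le_max_left _ _)⟩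
  choose G hG using hR'
  obtain ⟨s, bV, N₀, hopen, hmem, -, hN₀⟩ := exists_nhd S m hg (ε := 1 / (16 * R)) (by positivity)
    (finite_of_Q S (R * (2 * Real.cosh 2) * R))
  refine ⟨N₀, hopen, hmem, fun M hM c hc γ hγ => ?_⟩
  by_cases h1 : γ = 1
  · have h2 : |tr (S.hol γ)| = 2 := by
      have h3 := tr_flow 0
      rw [flow_zero] at h3
      rw [h1, map_one, h3]; simp
    rw [h2]
    unfold trB
    have := Real.one_le_cosh (Real.log (1 + ((2 * m : ℕ) : ℝ) * (1 + M) ^ (2 * m)) /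
      (4 * Real.log (4 / 3)))
    linarith
  obtain ⟨x, L, hL, he, ht⟩ := exists_flow _ (two_lt_abs_tr S h1)
  set δ := γ ^ 2 with hδdef
  have hδ : S.hol δ = x * flow (2 * L) * x⁻¹ := by
    have h2 : x * flow (2 * L) * x⁻¹ = (x * flow L * x⁻¹) * (x * flow L * x⁻¹) := by
      rw [show 2 * L = L + L by ring, ← flow_add]; group
    rw [hδdef, map_pow, sq, h2]
    rcases he with he | he
    · rw [he]
    · rw [he, neg_mul', mul_neg', neg_neg]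
  obtain ⟨ρ, hρ⟩ := c.2
  obtain ⟨b', hb'⟩ := exists_basis s ρ hρ (hN₀ c hc).1 (by simp)
  have hBm := toMatrix_eq s ρ hρ b' hb'
  have hBmul : ∀ γ δ, Bm s c.1 (γ * δ) = Bm s c.1 γ * Bm s c.1 δ := by
    intro γ δ
    rw [← hBm, ← hBm, ← hBm, rho_mul, ← LinearMap.toMatrix_mul]
    congr 1
    ext : 1
    simp [LinearMap.mulLeft_apply, Matrix.mul_assoc]
  have hBone : Bm s c.1 1 = 1 := by
    rw [← hBm, map_one]
    have : LinearMap.mulLeft ℂ (1 : SL(2 * m, ℂ)).1 = LinearMap.id := by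
      ext : 1
      simp
    rw [this, LinearMap.toMatrix_id]
  set f : SurfaceGroup g → (WW m × WW m) → (WW m × WW m) :=
    fun γ v => Matrix.toLin bV bV (Bm s c.1 γ) v with hf
  have hfmul : ∀ γ δ v, f (γ * δ) v = f γ (f δ v) := by
    intro γ δ v
    rw [hf]
    simp only
    rw [hBmul, Matrix.toLin_mul bV bV bV]
    rfl
  have hfone : ∀ v, f 1 v = v := by
    intro v
    rw [hf]
    simp only
    rw [hBone, Matrix.toLin_one]
    rfl
  -- the linear map `Λ`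
  set Λ : Matrix (Fin (2 * m)) (Fin (2 * m)) ℂ →ₗ[ℂ]
      ((WW m × WW m) →L[ℂ] (WW m × WW m)) :=
    (LinearMap.toContinuousLinearMap : ((WW m × WW m) →ₗ[ℂ] (WW m × WW m)) ≃ₗ[ℂ] _).toLinearMap ∘ₗ
      (Matrix.toLin bV bV).toLinearMap ∘ₗ (LinearMap.toMatrix b' b').toLinearMap ∘ₗ
        (LinearMap.mul ℂ (Matrix (Fin (2 * m)) (Fin (2 * m)) ℂ)) with hΛ
  have hΛf : ∀ γ v, Λ (ρ γ).1 v = f γ v := by
    intro γ v
    rw [hf]
    simp only
    rw [← hBm]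
    rfl
  set A := (ρ δ⁻¹).1 with hA
  set h : ℕ → ℝ := fun N => ‖Λ ((ρ (G x)).1 * A ^ N * (ρ (G x)⁻¹).1)‖ with hh
  have hpow : ∀ N, A ^ N = (ρ (δ⁻¹ ^ N)).1 := by
    intro N
    rw [map_pow, hA]
    exact (Matrix.SpecialLinearGroup.coe_pow _ _).symm
  have htr : ∀ j, 1 ≤ j → j ≤ 2 * m → ‖(A ^ j).trace‖ ≤ M := by
    intro j hj1 hj2
    rw [hpow, ← hρ]
    exact hγ j hj1 hj2
  set E := (1 + M) ^ (2 * m) with hE
  have hE0 : 0 ≤ E := by positivity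
  have hcoeff : ∀ k ∈ Finset.range (2 * m), ‖-A.charpoly.coeff k‖ ≤ E := by
    intro k hk
    rw [Finset.mem_range] at hk
    rw [norm_neg]
    refine (coeff_bound A hM htr (2 * m - k) k (by omega)).trans ?_
    exact pow_le_pow_right₀ (by linarith) (by omega)
  have hrec : ∀ N, h (N + 2 * m) ≤ ∑ k ∈ Finset.range (2 * m), E * h (N + k) := by
    intro N
    have e1 : (ρ (G x)).1 * A ^ (N + 2 * m) * (ρ (G x)⁻¹).1 =
        ∑ k ∈ Finset.range (2 * m), (-A.charpoly.coeff k) •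
          ((ρ (G x)).1 * A ^ (N + k) * (ρ (G x)⁻¹).1) := by
      rw [pow_add]
      conv_lhs => rw [cayley A]
      rw [Finset.mul_sum, Finset.mul_sum, Finset.sum_mul]
      refine Finset.sum_congr rfl fun k _ => ?_
      rw [pow_add, Matrix.mul_smul, Matrix.mul_smul, Matrix.smul_mul]
    rw [hh]
    simp only
    rw [e1, map_sum]
    refine (norm_sum_le _ _).trans (Finset.sum_le_sum fun k hk => ?_)
    rw [map_smul, norm_smul]
    exact mul_le_mul_of_nonneg_right (hcoeff k hk) (norm_nonneg _)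
  obtain ⟨C, hC0, hC⟩ := growth (f := h) (fun N => norm_nonneg _) hE0 hrec
  have hm : 0 < m := Nat.pos_of_ne_zero (NeZero.ne m)
  haveI : Nonempty (Fin (2 * m)) := ⟨⟨0, by omega⟩⟩
  haveI : Nonempty (Fin m) := ⟨⟨0, hm⟩⟩
  have hcmp : ∀ N : ℕ, 1 ≤ N * (2 * L) → (4 / 3 : ℝ) ^ ⌊N * (2 * L)⌋₊ ≤
      (4 * R * C) * (1 + ((2 * m : ℕ) : ℝ) * E) ^ N := by
    intro N hN
    obtain ⟨v, hv0, hv⟩ := cone_growth S hR G hG (uW m) (norm_uW m) f hfmul hfone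
      (fun η hη v => (hN₀ c hc).2 η hη v) hδ N hN
    have h3 : f (G x * (δ ^ N)⁻¹ * (G x)⁻¹) v =
        Λ ((ρ (G x)).1 * A ^ N * (ρ (G x)⁻¹).1) v := by
      rw [← hΛf, rho_mul, rho_mul, hpow, inv_pow]
    rw [h3] at hv
    have h4 : ‖Λ ((ρ (G x)).1 * A ^ N * (ρ (G x)⁻¹).1) v‖ ≤ h N * ‖v‖ :=
      ContinuousLinearMap.le_opNorm _ _
    have hvpos : 0 < ‖v‖ := norm_pos_iff.mpr hv0
    have h5 : (4 / 3 : ℝ) ^ ⌊N * (2 * L)⌋₊ * ‖v‖ ≤ (4 * R * h N) * ‖v‖ := by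
      refine hv.trans ?_
      calc 4 * R * ‖Λ ((ρ (G x)).1 * A ^ N * (ρ (G x)⁻¹).1) v‖ ≤ 4 * R * (h N * ‖v‖) := by gcongr
        _ = (4 * R * h N) * ‖v‖ := by ring
    have h6 := le_of_mul_le_mul_right h5 hvpos
    refine h6.trans ?_
    rw [mul_assoc (4 * R)]
    exact mul_le_mul_of_nonneg_left (hC N) (by positivity)
  have hb : 1 ≤ 1 + ((2 * m : ℕ) : ℝ) * E := by
    have : 0 ≤ ((2 * m : ℕ) : ℝ) * E := by positivity
    linarith
  have hfin := compare (l := 2 * L) (by linarith) hb hcmp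
  have hlog : 0 < Real.log (4 / 3) := Real.log_pos (by norm_num)
  rw [ht]
  unfold trB
  have h7 : L / 2 ≤ Real.log (1 + ((2 * m : ℕ) : ℝ) * E) / (4 * Real.log (4 / 3)) := by
    rw [le_div_iff₀ (by positivity)]
    linarith
  have h8 : Real.cosh (L / 2) ≤
      Real.cosh (Real.log (1 + ((2 * m : ℕ) : ℝ) * E) / (4 * Real.log (4 / 3))) := by
    rw [Real.cosh_le_cosh, abs_of_pos (by positivity), abs_of_nonneg]
    · exact h7
    · exact le_trans (by positivity) h7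
  linarith

theorem strong_property (hg : 2 ≤ g) : ∃ (N₀ : Set (CharVar (SurfaceGroup g) (2 * m))),
    IsOpen N₀ ∧ character (rep S m) ∈ N₀ ∧
    ∀ K : Set (CharVar (SurfaceGroup g) (2 * m)), IsCompact K →
      {q : Out (SurfaceGroup g) | ∃ φ : MulAut (SurfaceGroup g),
        (QuotientGroup.mk φ : Out (SurfaceGroup g)) = q ∧ ∃ c ∈ K, act φ c ∈ N₀}.Finite := by
  obtain ⟨N₀, hopen, hmem, hN₀⟩ := trace_bound S m hg
  refine ⟨N₀, hopen, hmem, fun K hK => ?_⟩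
  have h1 : ∀ γ : SurfaceGroup g, ∃ M : ℝ, 0 ≤ M ∧ ∀ c ∈ K, ∀ j, 1 ≤ j → j ≤ 2 * m →
      ‖c.1 ((γ ^ 2)⁻¹ ^ j)‖ ≤ M := by
    intro γ
    have hcont : Continuous fun c : CharVar (SurfaceGroup g) (2 * m) =>
        fun j : Fin (2 * m + 1) => c.1 ((γ ^ 2)⁻¹ ^ (j : ℕ)) :=
      continuous_pi fun j => continuous_char _
    obtain ⟨C, hC⟩ := hK.exists_bound_of_continuousOn hcont.continuousOn
    refine ⟨max C 0, le_max_right _ _, fun c hc j _ hj => ?_⟩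
    refine le_trans ?_ (le_max_left _ _)
    have := (norm_le_pi_norm (fun j : Fin (2 * m + 1) => c.1 ((γ ^ 2)⁻¹ ^ (j : ℕ)))
      ⟨j, by omega⟩).trans (hC c hc)
    exact this
  choose M hM0 hM using h1
  refine (finite_out S (fun γ => trB m (M γ)) (gb_not_comm hg)).subset ?_
  rintro q ⟨φ, rfl, c, hc, hφ⟩
  refine ⟨φ, rfl, fun γ => ?_⟩
  refine hN₀ (M γ) (hM0 γ) _ hφ (φ γ) fun j hj1 hj2 => ?_
  have : (act φ c).1 ((φ γ ^ 2)⁻¹ ^ j) = c.1 ((γ ^ 2)⁻¹ ^ j) := by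
    change c.1 (φ⁻¹ ((φ γ ^ 2)⁻¹ ^ j)) = _
    rw [← map_pow, ← map_inv, ← map_pow, MulAut.inv_apply_self]
  rw [this]
  exact hM γ c hc j hj1 hj2

end Run7.h431.SA
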