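import Pool.Agent.Run7.h431.SA.Tau

open scoped MatrixGroups Topology Kronecker
open UpperHalfPlane Matrix Filter

noncomputable section

namespace Run7.h431.SA

/-- complexification of a real matrix -/
def cx (A : SL(2, ℝ)) : Matrix (Fin 2) (Fin 2) ℂ := A.1.map (algebraMap ℝ ℂ)

lemma cx_apply (A : SL(2, ℝ)) (i j : Fin 2) : cx A i j = ((A i j : ℝ) : ℂ) := rfl

lemma cx_mul (A B : SL(2, ℝ)) : cx (A * B) = cx A * cx B := by
  have h : (A * B).1 = A.1 * B.1 := rfl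
  unfold cx
  rw [h, Matrix.map_mul]

lemma cx_one : cx 1 = 1 := by
  have h : (1 : SL(2, ℝ)).1 = 1 := rfl
  unfold cx
  rw [h, Matrix.map_one _ (map_zero _) (map_one _)]

lemma cx_neg (A : SL(2, ℝ)) : cx (-A) = -cx A := by
  ext i j
  rw [Matrix.neg_apply, cx_apply, cx_apply, neg00]; push_cast; rfl

lemma cx_det (A : SL(2, ℝ)) : (cx A).det = 1 := by
  unfold cx
  have := RingHom.map_det (algebraMap ℝ ℂ) A.1
  rw [RingHom.mapMatrix_apply] at this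
  rw [← this, A.2, map_one]

lemma cx_mul_inv (A : SL(2, ℝ)) : cx A * cx A⁻¹ = 1 := by
  rw [← cx_mul, mul_inv_cancel, cx_one]

lemma cx_inv_mul (A : SL(2, ℝ)) : cx A⁻¹ * cx A = 1 := by
  rw [← cx_mul, inv_mul_cancel, cx_one]

variable {g : ℕ} (S : HypSurface g) (m : ℕ) [NeZero m]

/-- conjugated subalgebra -/
def conjSub (𝒜 : Subalgebra ℂ (Matrix (Fin 2) (Fin 2) ℂ)) (x : SL(2, ℝ)) :
    Subalgebra ℂ (Matrix (Fin 2) (Fin 2) ℂ) where
  carrier := {B | cx x * B * cx x⁻¹ ∈ 𝒜}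
  mul_mem' := fun {a b} ha hb => by
    change cx x * (a * b) * cx x⁻¹ ∈ 𝒜
    have : cx x * (a * b) * cx x⁻¹ = (cx x * a * cx x⁻¹) * (cx x * b * cx x⁻¹) := by
      calc cx x * (a * b) * cx x⁻¹ = cx x * a * 1 * b * cx x⁻¹ := by
            simp only [Matrix.mul_assoc, Matrix.one_mul]
        _ = (cx x * a * cx x⁻¹) * (cx x * b * cx x⁻¹) := by
            rw [← cx_inv_mul x]; simp only [Matrix.mul_assoc]
    rw [this]; exact 𝒜.mul_mem ha hb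
  add_mem' := fun {a b} ha hb => by
    change cx x * (a + b) * cx x⁻¹ ∈ 𝒜
    rw [Matrix.mul_add, Matrix.add_mul]; exact 𝒜.add_mem ha hb
  algebraMap_mem' := fun r => by
    change cx x * (algebraMap ℂ _ r) * cx x⁻¹ ∈ 𝒜
    rw [Algebra.algebraMap_eq_smul_one, Matrix.mul_smul, Matrix.mul_one, Matrix.smul_mul,
      cx_mul_inv]
    exact 𝒜.smul_mem 𝒜.one_mem _

lemma mem_conjSub {𝒜 : Subalgebra ℂ (Matrix (Fin 2) (Fin 2) ℂ)} {x : SL(2, ℝ)}
    {B : Matrix (Fin 2) (Fin 2) ℂ} : B ∈ conjSub 𝒜 x ↔ cx x * B * cx x⁻¹ ∈ 𝒜 := Iff.rfl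

lemma subalg2_aux (𝒜 : Subalgebra ℂ (Matrix (Fin 2) (Fin 2) ℂ)) {L : ℝ} (hL : 0 < L)
    (hF : cx (flow L) ∈ 𝒜) {y : SL(2, ℝ)} (hy : cx y ∈ 𝒜) (h01 : y 0 1 ≠ 0) (h10 : y 1 0 ≠ 0) :
    𝒜 = ⊤ := by
  have hg := exp_gap hL
  have hgc : ((Real.exp (L / 2) - Real.exp (-(L / 2)) : ℝ) : ℂ) ≠ 0 := by
    exact_mod_cast hg.ne'
  have e00 : Matrix.single (0 : Fin 2) (0 : Fin 2) (1 : ℂ) =
      ((Real.exp (L / 2) - Real.exp (-(L / 2)) : ℝ) : ℂ)⁻¹ •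
        (cx (flow L) - ((Real.exp (-(L / 2)) : ℝ) : ℂ) • 1) := by
    ext i j
    rw [Matrix.smul_apply, Matrix.sub_apply, Matrix.smul_apply, cx_apply, Matrix.single_apply]
    fin_cases i <;> fin_cases j
    · simp only [Fin.zero_eta, Fin.isValue, and_self, if_true, flow00, Matrix.one_apply_eq,
        smul_eq_mul, mul_one]
      rw [← Complex.ofReal_sub, inv_mul_cancel₀ hgc]
    · simp [flow01]
    · simp [flow10]
    · simp [flow11]
  have m00 : Matrix.single (0 : Fin 2) (0 : Fin 2) (1 : ℂ) ∈ 𝒜 := by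
    rw [e00]
    exact 𝒜.smul_mem (𝒜.sub_mem hF (𝒜.smul_mem 𝒜.one_mem _)) _
  have e11 : Matrix.single (1 : Fin 2) (1 : Fin 2) (1 : ℂ) = 1 - Matrix.single 0 0 1 := by
    ext i j; fin_cases i <;> fin_cases j <;> simp
  have m11 : Matrix.single (1 : Fin 2) (1 : Fin 2) (1 : ℂ) ∈ 𝒜 := by
    rw [e11]; exact 𝒜.sub_mem 𝒜.one_mem m00
  have e01 : Matrix.single (0 : Fin 2) (1 : Fin 2) (1 : ℂ) = ((y 0 1 : ℝ) : ℂ)⁻¹ •
      (Matrix.single 0 0 1 * cx y * Matrix.single 1 1 1) := by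
    have h : ((y 0 1 : ℝ) : ℂ) ≠ 0 := by exact_mod_cast h01
    ext i j
    fin_cases i <;> fin_cases j <;>
      simp [Matrix.mul_apply, Fin.sum_univ_two, Matrix.single_apply, cx_apply, h]
  have e10 : Matrix.single (1 : Fin 2) (0 : Fin 2) (1 : ℂ) = ((y 1 0 : ℝ) : ℂ)⁻¹ •
      (Matrix.single 1 1 1 * cx y * Matrix.single 0 0 1) := by
    have h : ((y 1 0 : ℝ) : ℂ) ≠ 0 := by exact_mod_cast h10
    ext i j
    fin_cases i <;> fin_cases j <;>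
      simp [Matrix.mul_apply, Fin.sum_univ_two, Matrix.single_apply, cx_apply, h]
  have m01 : Matrix.single (0 : Fin 2) (1 : Fin 2) (1 : ℂ) ∈ 𝒜 := by
    rw [e01]; exact 𝒜.smul_mem (𝒜.mul_mem (𝒜.mul_mem m00 hy) m11) _
  have m10 : Matrix.single (1 : Fin 2) (0 : Fin 2) (1 : ℂ) ∈ 𝒜 := by
    rw [e10]; exact 𝒜.smul_mem (𝒜.mul_mem (𝒜.mul_mem m11 hy) m00) _
  rw [eq_top_iff]
  intro A _
  rw [Matrix.matrix_eq_sum_single A]
  refine sum_mem fun i _ => sum_mem fun j _ => ?_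
  have : Matrix.single i j (A i j) = A i j • Matrix.single i j (1 : ℂ) := by
    rw [Matrix.smul_single]; simp
  rw [this]
  apply 𝒜.smul_mem
  fin_cases i <;> fin_cases j
  · exact m00
  · exact m01
  · exact m10
  · exact m11

lemma subalg2_eq_top (𝒜 : Subalgebra ℂ (Matrix (Fin 2) (Fin 2) ℂ)) {a b : SurfaceGroup g}
    (hab : a * b ≠ b * a) (ha : cx (S.hol a) ∈ 𝒜) (hb : cx (S.hol b) ∈ 𝒜) : 𝒜 = ⊤ := by
  have ha1 : a ≠ 1 := by rintro rfl; simp at hab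
  obtain ⟨x, L, hL, he, ht⟩ := exists_flow _ (two_lt_abs_tr S ha1)
  obtain ⟨h01, h10⟩ := offdiag_ne S hab he
  have hF : cx (flow L) ∈ conjSub 𝒜 x := by
    rw [mem_conjSub, ← cx_mul, ← cx_mul]
    rcases he with he | he
    · rwa [← he]
    · have : cx (x * flow L * x⁻¹) = -cx (S.hol a) := by rw [he, cx_neg, neg_neg]
      rw [this]; exact 𝒜.neg_mem ha
  have hy : cx (x⁻¹ * S.hol b * x) ∈ conjSub 𝒜 x := by
    rw [mem_conjSub, ← cx_mul, ← cx_mul]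
    have : x * (x⁻¹ * S.hol b * x) * x⁻¹ = S.hol b := by group
    rwa [this]
  have htop := subalg2_aux (conjSub 𝒜 x) hL hF hy h01 h10
  rw [eq_top_iff]
  intro B _
  have h1 : cx x⁻¹ * B * cx x ∈ conjSub 𝒜 x := by rw [htop]; trivial
  rw [mem_conjSub] at h1
  have h2 : cx x * (cx x⁻¹ * B * cx x) * cx x⁻¹ = B := by
    calc cx x * (cx x⁻¹ * B * cx x) * cx x⁻¹ = (cx x * cx x⁻¹) * B * (cx x * cx x⁻¹) := by
          simp only [Matrix.mul_assoc]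
      _ = B := by rw [cx_mul_inv, Matrix.one_mul, Matrix.mul_one]
  rwa [h2] at h1

/-- `hol ⊗ τ` as a matrix indexed by `Fin 2 × Fin m` -/
def KM (γ : SurfaceGroup g) : Matrix (Fin 2 × Fin m) (Fin 2 × Fin m) ℂ :=
  cx (S.hol γ) ⊗ₖ tauM m γ

lemma KM_mul (γ δ : SurfaceGroup g) : KM S m (γ * δ) = KM S m γ * KM S m δ := by
  unfold KM
  rw [map_mul, cx_mul, tauM_mul, Matrix.mul_kronecker_mul]

lemma KM_one : KM S m (1 : SurfaceGroup g) = 1 := by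
  unfold KM
  rw [map_one, cx_one, tauM_one, Matrix.one_kronecker_one]

lemma KM_det (γ : SurfaceGroup g) : (KM S m γ).det = 1 := by
  unfold KM
  rw [Matrix.det_kronecker, cx_det, one_pow, one_mul, Fintype.card_fin, SP_det (tauM_SP γ)]

/-- `KM` as a monoid homomorphism -/
def KMh : SurfaceGroup g →* Matrix (Fin 2 × Fin m) (Fin 2 × Fin m) ℂ where
  toFun := KM S m
  map_one' := KM_one S m
  map_mul' := KM_mul S m

/-- first factor -/
def leftSub {m : ℕ} (𝒜 : Subalgebra ℂ (Matrix (Fin 2 × Fin m) (Fin 2 × Fin m) ℂ)) :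
    Subalgebra ℂ (Matrix (Fin 2) (Fin 2) ℂ) where
  carrier := {B | B ⊗ₖ (1 : Matrix (Fin m) (Fin m) ℂ) ∈ 𝒜}
  mul_mem' := fun {a b} ha hb => by
    change (a * b) ⊗ₖ (1 : Matrix (Fin m) (Fin m) ℂ) ∈ 𝒜
    have : (a * b) ⊗ₖ (1 : Matrix (Fin m) (Fin m) ℂ) =
        (a ⊗ₖ (1 : Matrix (Fin m) (Fin m) ℂ)) * (b ⊗ₖ (1 : Matrix (Fin m) (Fin m) ℂ)) := by
      rw [← Matrix.mul_kronecker_mul, Matrix.one_mul]
    rw [this]; exact 𝒜.mul_mem ha hb
  add_mem' := fun {a b} ha hb => by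
    change (a + b) ⊗ₖ (1 : Matrix (Fin m) (Fin m) ℂ) ∈ 𝒜
    rw [Matrix.add_kronecker]; exact 𝒜.add_mem ha hb
  algebraMap_mem' := fun r => by
    change (algebraMap ℂ _ r) ⊗ₖ (1 : Matrix (Fin m) (Fin m) ℂ) ∈ 𝒜
    rw [Algebra.algebraMap_eq_smul_one, Matrix.smul_kronecker, Matrix.one_kronecker_one]
    exact 𝒜.smul_mem 𝒜.one_mem _

/-- second factor -/
def rightSub {m : ℕ} (𝒜 : Subalgebra ℂ (Matrix (Fin 2 × Fin m) (Fin 2 × Fin m) ℂ)) :
    Subalgebra ℂ (Matrix (Fin m) (Fin m) ℂ) where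
  carrier := {B | (1 : Matrix (Fin 2) (Fin 2) ℂ) ⊗ₖ B ∈ 𝒜}
  mul_mem' := fun {a b} ha hb => by
    change (1 : Matrix (Fin 2) (Fin 2) ℂ) ⊗ₖ (a * b) ∈ 𝒜
    have : (1 : Matrix (Fin 2) (Fin 2) ℂ) ⊗ₖ (a * b) =
        ((1 : Matrix (Fin 2) (Fin 2) ℂ) ⊗ₖ a) * ((1 : Matrix (Fin 2) (Fin 2) ℂ) ⊗ₖ b) := by
      rw [← Matrix.mul_kronecker_mul, Matrix.one_mul]
    rw [this]; exact 𝒜.mul_mem ha hb
  add_mem' := fun {a b} ha hb => by
    change (1 : Matrix (Fin 2) (Fin 2) ℂ) ⊗ₖ (a + b) ∈ 𝒜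
    rw [Matrix.kronecker_add]; exact 𝒜.add_mem ha hb
  algebraMap_mem' := fun r => by
    change (1 : Matrix (Fin 2) (Fin 2) ℂ) ⊗ₖ (algebraMap ℂ _ r) ∈ 𝒜
    rw [Algebra.algebraMap_eq_smul_one, Matrix.kronecker_smul, Matrix.one_kronecker_one]
    exact 𝒜.smul_mem 𝒜.one_mem _

lemma adjoin_KM (hg : 2 ≤ g) : Algebra.adjoin ℂ (Set.range (KM S m)) = ⊤ := by
  set 𝒜 := Algebra.adjoin ℂ (Set.range (KM S m)) with h𝒜
  have hmem : ∀ γ, KM S m γ ∈ 𝒜 := fun γ => Algebra.subset_adjoin ⟨γ, rfl⟩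
  have hl : leftSub 𝒜 = ⊤ := by
    refine subalg2_eq_top S _ (gb_not_comm hg) ?_ ?_
    · change cx (S.hol (gb hg 0)) ⊗ₖ (1 : Matrix (Fin m) (Fin m) ℂ) ∈ 𝒜
      have := hmem (gb hg 0)
      unfold KM at this
      rwa [tauM_gb hg] at this
    · change cx (S.hol (gb hg 1)) ⊗ₖ (1 : Matrix (Fin m) (Fin m) ℂ) ∈ 𝒜
      have := hmem (gb hg 1)
      unfold KM at this
      rwa [tauM_gb hg] at this
  have hl' : ∀ B : Matrix (Fin 2) (Fin 2) ℂ, B ⊗ₖ (1 : Matrix (Fin m) (Fin m) ℂ) ∈ 𝒜 := by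
    intro B
    have : B ∈ leftSub 𝒜 := by rw [hl]; trivial
    exact this
  have hτ : ∀ γ : SurfaceGroup g, (1 : Matrix (Fin 2) (Fin 2) ℂ) ⊗ₖ tauM m γ ∈ 𝒜 := by
    intro γ
    have h1 := 𝒜.mul_mem (hl' (cx (S.hol γ)⁻¹)) (hmem γ)
    unfold KM at h1
    rwa [← Matrix.mul_kronecker_mul, Matrix.one_mul, cx_inv_mul] at h1
  have hr : rightSub 𝒜 = ⊤ := by
    apply subalg_eq_top
    · have := hτ (ga hg 0)
      rwa [tauM_ga0] at this
    · have := hτ (ga hg 1)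
      rwa [tauM_ga1] at this
  have hr' : ∀ B : Matrix (Fin m) (Fin m) ℂ, (1 : Matrix (Fin 2) (Fin 2) ℂ) ⊗ₖ B ∈ 𝒜 := by
    intro B
    have : B ∈ rightSub 𝒜 := by rw [hr]; trivial
    exact this
  rw [eq_top_iff]
  intro A _
  rw [Matrix.matrix_eq_sum_single A]
  refine sum_mem fun i _ => sum_mem fun j _ => ?_
  have : Matrix.single i j (A i j) = A i j • ((Matrix.single i.1 j.1 (1 : ℂ) ⊗ₖ
      (1 : Matrix (Fin m) (Fin m) ℂ)) * ((1 : Matrix (Fin 2) (Fin 2) ℂ) ⊗ₖ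
        Matrix.single i.2 j.2 (1 : ℂ))) := by
    rw [← Matrix.mul_kronecker_mul, Matrix.mul_one, Matrix.one_mul]
    ext p q
    rw [Matrix.smul_apply, Matrix.kronecker_apply, Matrix.single_apply, Matrix.single_apply,
      Matrix.single_apply]
    obtain ⟨i1, i2⟩ := i
    obtain ⟨j1, j2⟩ := j
    obtain ⟨p1, p2⟩ := p
    obtain ⟨q1, q2⟩ := q
    simp only [Prod.mk.injEq, smul_eq_mul]
    by_cases h1 : i1 = p1 <;> by_cases h2 : i2 = p2 <;> by_cases h3 : j1 = q1 <;>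
      by_cases h4 : j2 = q2 <;> simp [h1, h2, h3, h4]
  rw [this]
  exact 𝒜.smul_mem (𝒜.mul_mem (hl' _) (hr' _)) _

lemma span_KM (hg : 2 ≤ g) : Submodule.span ℂ (Set.range (KM S m)) = ⊤ := by
  have h1 : (Submonoid.closure (Set.range (KM S m)) : Set _) = Set.range (KM S m) := by
    have : Set.range (KM S m) = (MonoidHom.mrange (KMh S m) : Set _) := rfl
    rw [this, Submonoid.closure_eq]
  have h2 := Algebra.adjoin_eq_span (R := ℂ) (Set.range (KM S m))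
  rw [h1, adjoin_KM S m hg] at h2
  rw [← h2]
  rfl

/-- the representation `hol ⊗ τ` as a matrix indexed by `Fin (2 * m)` -/
def xM (γ : SurfaceGroup g) : Matrix (Fin (2 * m)) (Fin (2 * m)) ℂ :=
  Matrix.reindexAlgEquiv ℂ ℂ finProdFinEquiv (KM S m γ)

lemma xM_apply (γ : SurfaceGroup g) (p q : Fin 2 × Fin m) :
    xM S m γ (finProdFinEquiv p) (finProdFinEquiv q) =
      ((S.hol γ p.1 q.1 : ℝ) : ℂ) * tauM m γ p.2 q.2 := by
  unfold xM
  rw [Matrix.reindexAlgEquiv_apply, Matrix.reindex_apply, Matrix.submatrix_apply,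
    Equiv.symm_apply_apply, Equiv.symm_apply_apply]
  rfl

/-- the representation `hol ⊗ τ` -/
def rep : SurfaceGroup g →* SL(2 * m, ℂ) where
  toFun γ := ⟨xM S m γ, by unfold xM; rw [Matrix.det_reindexAlgEquiv, KM_det]⟩
  map_one' := by
    apply Subtype.ext
    change xM S m 1 = 1
    unfold xM
    rw [KM_one, map_one]
  map_mul' γ δ := by
    apply Subtype.ext
    change xM S m (γ * δ) = xM S m γ * xM S m δ
    unfold xM
    rw [KM_mul, map_mul]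

lemma rep_val (γ : SurfaceGroup g) : (rep S m γ).1 = xM S m γ := rfl

lemma span_xM (hg : 2 ≤ g) : Submodule.span ℂ (Set.range (xM S m)) = ⊤ := by
  have h1 : Set.range (xM S m) =
      (Matrix.reindexAlgEquiv ℂ ℂ (finProdFinEquiv (m := 2) (n := m))).toLinearMap ''
        Set.range (KM S m) := by
    rw [← Set.range_comp]; rfl
  rw [h1, ← Submodule.map_span, span_KM S m hg, Submodule.map_top, LinearMap.range_eq_top]
  exact (Matrix.reindexAlgEquiv ℂ ℂ (finProdFinEquiv (m := 2) (n := m))).surjective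

end Run7.h431.SA
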