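import Pool.Agent.Run7.h431.SA.Rec3

open scoped MatrixGroups Topology Kronecker
open UpperHalfPlane Matrix Filter

noncomputable section

namespace Run7.h431.SA

variable {g : ℕ} (S : HypSurface g) (m : ℕ) [NeZero m]

lemma cx_sq (A : SL(2, ℝ)) : cx A * cx A = ((tr A : ℝ) : ℂ) • cx A - 1 := by
  have hd := det_eq A
  have hd' : ((A 0 0 : ℝ) : ℂ) * ((A 1 1 : ℝ) : ℂ) - ((A 0 1 : ℝ) : ℂ) * ((A 1 0 : ℝ) : ℂ) = 1 := by
    exact_mod_cast congrArg (fun r : ℝ => (r : ℂ)) hd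
  have ht : ((tr A : ℝ) : ℂ) = ((A 0 0 : ℝ) : ℂ) + ((A 1 1 : ℝ) : ℂ) := by
    unfold tr; push_cast; rfl
  have e00 : (cx A * cx A - (((tr A : ℝ) : ℂ) • cx A - 1)) 0 0 = 0 := by
    simp only [Matrix.sub_apply, Matrix.smul_apply, Matrix.mul_apply, Fin.sum_univ_two,
      smul_eq_mul, ht, cx_apply, Matrix.one_apply_eq]
    linear_combination -hd'
  have e01 : (cx A * cx A - (((tr A : ℝ) : ℂ) • cx A - 1)) 0 1 = 0 := by
    simp only [Matrix.sub_apply, Matrix.smul_apply, Matrix.mul_apply, Fin.sum_univ_two,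
      smul_eq_mul, ht, cx_apply, Matrix.one_apply_ne (show (0 : Fin 2) ≠ 1 by decide)]
    ring
  have e10 : (cx A * cx A - (((tr A : ℝ) : ℂ) • cx A - 1)) 1 0 = 0 := by
    simp only [Matrix.sub_apply, Matrix.smul_apply, Matrix.mul_apply, Fin.sum_univ_two,
      smul_eq_mul, ht, cx_apply, Matrix.one_apply_ne (show (1 : Fin 2) ≠ 0 by decide)]
    ring
  have e11 : (cx A * cx A - (((tr A : ℝ) : ℂ) • cx A - 1)) 1 1 = 0 := by
    simp only [Matrix.sub_apply, Matrix.smul_apply, Matrix.mul_apply, Fin.sum_univ_two,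
      smul_eq_mul, ht, cx_apply, Matrix.one_apply_eq]
    linear_combination -hd'
  rw [← sub_eq_zero]
  ext i j
  fin_cases i <;> fin_cases j
  · exact e00
  · exact e01
  · exact e10
  · exact e11

lemma sub_kronecker' {m : ℕ} (A B : Matrix (Fin 2) (Fin 2) ℂ) (C : Matrix (Fin m) (Fin m) ℂ) :
    (A - B) ⊗ₖ C = A ⊗ₖ C - B ⊗ₖ C := by
  ext p q
  simp only [Matrix.kroneckerMap_apply, Matrix.sub_apply, sub_mul]

lemma KM_sq {ζ : SurfaceGroup g} (hζ : tauM m ζ = 1) :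
    KM S m (ζ * ζ) = ((tr (S.hol ζ) : ℝ) : ℂ) • KM S m ζ - 1 := by
  unfold KM
  rw [map_mul, cx_mul, tauM_mul, hζ, cx_sq, Matrix.one_mul, sub_kronecker',
    Matrix.smul_kronecker, Matrix.one_kronecker_one]

lemma xM_mul (γ δ : SurfaceGroup g) : xM S m (γ * δ) = xM S m γ * xM S m δ :=
  rho_mul (rep S m) γ δ

lemma xM_sq {ζ : SurfaceGroup g} (hζ : tauM m ζ = 1) :
    xM S m (ζ * ζ) = ((tr (S.hol ζ) : ℝ) : ℂ) • xM S m ζ - 1 := by
  unfold xM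
  rw [KM_sq S m hζ, map_sub, map_smul, map_one]

lemma xM_trace {ζ : SurfaceGroup g} (hζ : tauM m ζ = 1) :
    (xM S m ζ).trace = ((tr (S.hol ζ) : ℝ) : ℂ) * m := by
  have h1 : (xM S m ζ).trace = ∑ p : Fin 2 × Fin m, xM S m ζ (finProdFinEquiv p)
      (finProdFinEquiv p) := by
    rw [Matrix.trace, ← (finProdFinEquiv (m := 2) (n := m)).sum_comp]
    rfl
  rw [h1, Fintype.sum_prod_type, Fin.sum_univ_two]
  simp only [xM_apply, hζ, Matrix.one_apply_eq, mul_one, Finset.sum_const, Finset.card_univ,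
    Fintype.card_fin, nsmul_eq_mul]
  unfold tr
  push_cast
  ring

/-- the quadratic relation transfers to every representation with the same character -/
lemma quad_rel (hg : 2 ≤ g) (ρ : SurfaceGroup g →* SL(2 * m, ℂ))
    (hρ : character ρ = character (rep S m)) {ζ : SurfaceGroup g} (hζ : tauM m ζ = 1) :
    (ρ ζ).1 * (ρ ζ).1 - ((tr (S.hol ζ) : ℝ) : ℂ) • (ρ ζ).1 + 1 = 0 := by
  obtain ⟨s, b, hb⟩ := exists_index (rep S m) (span_xM S m hg)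
  have hc : ∀ γ, (character (rep S m)).1 γ = (ρ γ).1.trace := by
    intro γ; rw [← hρ]; rfl
  have hdet := det_ne_zero s (rep S m) (c := (character (rep S m)).1) (fun _ => rfl) b hb
  obtain ⟨b', hb'⟩ := exists_basis s ρ hc hdet (by simp)
  set y := (ρ ζ).1 * (ρ ζ).1 - ((tr (S.hol ζ) : ℝ) : ℂ) • (ρ ζ).1 + 1 with hy
  have h1 : ∀ γ, (y * (ρ γ).1).trace = 0 := by
    intro γ
    have e1 : y * (ρ γ).1 = (ρ (ζ * ζ * γ)).1 - ((tr (S.hol ζ) : ℝ) : ℂ) • (ρ (ζ * γ)).1 +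
        (ρ γ).1 := by
      rw [hy, rho_mul, rho_mul, rho_mul, Matrix.add_mul, Matrix.sub_mul, Matrix.smul_mul,
        Matrix.one_mul]
    have e2 : (0 : Matrix (Fin (2 * m)) (Fin (2 * m)) ℂ) =
        xM S m (ζ * ζ * γ) - ((tr (S.hol ζ) : ℝ) : ℂ) • xM S m (ζ * γ) + xM S m γ := by
      rw [xM_mul, xM_sq S m hζ, xM_mul, Matrix.sub_mul, Matrix.smul_mul, Matrix.one_mul]
      abel
    rw [e1, Matrix.trace_add, Matrix.trace_sub, Matrix.trace_smul, ← hc, ← hc, ← hc]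
    have e3 := congrArg Matrix.trace e2
    rw [Matrix.trace_zero, Matrix.trace_add, Matrix.trace_sub, Matrix.trace_smul] at e3
    exact e3.symm
  have h3 : ∀ z : Matrix (Fin (2 * m)) (Fin (2 * m)) ℂ, (y * z).trace = 0 := by
    intro z
    rw [← b'.sum_repr z, Finset.mul_sum, Matrix.trace_sum]
    refine Finset.sum_eq_zero fun i _ => ?_
    rw [Matrix.mul_smul, Matrix.trace_smul, hb', h1, smul_zero]
  ext i j
  have := h3 (Matrix.single j i 1)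
  rw [Matrix.trace_mul_single] at this
  simpa using this

/-- rank of an idempotent matrix is its trace -/
lemma trace_eq_rank {n : ℕ} {P : Matrix (Fin n) (Fin n) ℂ} (hP : P * P = P) :
    P.trace = P.rank := by
  have h1 : LinearMap.IsProj (LinearMap.range (Matrix.toLin' P)) (Matrix.toLin' P) := by
    constructor
    · intro x; exact ⟨x, rfl⟩
    · rintro x ⟨y, rfl⟩
      rw [← LinearMap.comp_apply, ← Matrix.toLin'_mul, hP]
  have h2 := h1.trace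
  rw [Matrix.trace_toLin'_eq] at h2
  rw [h2]
  rfl

/-- The dominated splitting over the axis of `ζ`. -/
lemma spec_lemma {n k : ℕ} (hk1 : 1 ≤ k) (hkn : k < n) {A P : Matrix (Fin n) (Fin n) ℂ}
    {α : ℝ} (hα : 1 < α) (hquad : A * A - ((α + α⁻¹ : ℝ) : ℂ) • A + 1 = 0)
    (hP : P * P = P) (hrank : P.rank = k) (hcomm : P * A = A * P)
    (hdom : ∀ (v w : Fin n → ℂ) (ε ε' : ℂ), v ≠ 0 → w ≠ 0 → P *ᵥ v = v → P *ᵥ w = 0 →
      A *ᵥ v = ε • v → A *ᵥ w = ε' • w → ε ≠ 0 → ε' ≠ 0 → ‖ε‖ < ‖ε'‖) :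
    A.trace = ((α⁻¹ : ℝ) : ℂ) * k + (α : ℂ) * (n - k) := by
  have hα0 : (α : ℂ) ≠ 0 := by exact_mod_cast (show α ≠ 0 by linarith)
  have hβ0 : ((α⁻¹ : ℝ) : ℂ) ≠ 0 := by
    exact_mod_cast (inv_ne_zero (show α ≠ 0 by linarith))
  have hαβ : (α : ℂ) * ((α⁻¹ : ℝ) : ℂ) = 1 := by
    push_cast; exact mul_inv_cancel₀ hα0
  have hfac1 : (A - (α : ℂ) • 1) * (A - ((α⁻¹ : ℝ) : ℂ) • 1) = 0 := by
    have : (A - (α : ℂ) • 1) * (A - ((α⁻¹ : ℝ) : ℂ) • 1) =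
        A * A - ((α + α⁻¹ : ℝ) : ℂ) • A + ((α : ℂ) * ((α⁻¹ : ℝ) : ℂ)) • 1 := by
      rw [Matrix.sub_mul, Matrix.mul_sub, Matrix.mul_sub]
      simp only [Matrix.smul_mul, Matrix.mul_smul, Matrix.one_mul, Matrix.mul_one]
      push_cast
      module
    rw [this, hαβ, one_smul, hquad]
  have hfac2 : (A - ((α⁻¹ : ℝ) : ℂ) • 1) * (A - (α : ℂ) • 1) = 0 := by
    have : (A - ((α⁻¹ : ℝ) : ℂ) • 1) * (A - (α : ℂ) • 1) =
        A * A - ((α + α⁻¹ : ℝ) : ℂ) • A + ((α : ℂ) * ((α⁻¹ : ℝ) : ℂ)) • 1 := by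
      rw [Matrix.sub_mul, Matrix.mul_sub, Matrix.mul_sub]
      simp only [Matrix.smul_mul, Matrix.mul_smul, Matrix.one_mul, Matrix.mul_one]
      push_cast
      module
    rw [this, hαβ, one_smul, hquad]
  have hev : ∀ (c d : ℂ) (v : Fin n → ℂ), (A - c • 1) * (A - d • 1) = 0 →
      A *ᵥ (A *ᵥ v - d • v) = c • (A *ᵥ v - d • v) := by
    intro c d v h
    have h1 := congrArg (fun M => M *ᵥ v) h
    simp only [← Matrix.mulVec_mulVec, Matrix.sub_mulVec, Matrix.smul_mulVec, Matrix.one_mulVec,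
      Matrix.zero_mulVec] at h1
    rwa [sub_eq_zero] at h1
  have hcv : ∀ v, P *ᵥ (A *ᵥ v) = A *ᵥ (P *ᵥ v) := by
    intro v
    rw [Matrix.mulVec_mulVec, hcomm, Matrix.mulVec_mulVec]
  have hnα : ‖(α : ℂ)‖ = α := by
    rw [Complex.norm_real, Real.norm_eq_abs, abs_of_pos (by linarith)]
  have hnβ : ‖((α⁻¹ : ℝ) : ℂ)‖ = α⁻¹ := by
    rw [Complex.norm_real, Real.norm_eq_abs, abs_of_pos (by positivity)]
  have hβα : α⁻¹ < α := by
    have : α⁻¹ < 1 := inv_lt_one_of_one_lt₀ hα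
    linarith
  -- a nonzero vector in the kernel
  obtain ⟨w₀, hw₀, hw₀P⟩ : ∃ w : Fin n → ℂ, w ≠ 0 ∧ P *ᵥ w = 0 := by
    apply Matrix.exists_mulVec_eq_zero_iff.mpr
    by_contra hdet
    have hu : IsUnit P := (Matrix.isUnit_iff_isUnit_det P).mpr (isUnit_iff_ne_zero.mpr hdet)
    have := Matrix.rank_of_isUnit P hu
    rw [hrank, Fintype.card_fin] at this
    omega
  obtain ⟨v₀, hv₀, hv₀P⟩ : ∃ v : Fin n → ℂ, v ≠ 0 ∧ P *ᵥ v = v := by
    by_contra hne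
    push Not at hne
    have h0 : P = 0 := by
      by_contra hP0
      apply hP0
      ext i j
      have h1 : P *ᵥ (Pi.single j 1) = 0 := by
        by_contra h2
        exact hne _ h2 (by rw [Matrix.mulVec_mulVec, hP])
      have h3 := congrFun h1 i
      rw [Matrix.mulVec_single_one] at h3
      exact h3
    rw [h0, Matrix.rank_zero] at hrank
    omega
  -- eigenvector in the kernel
  obtain ⟨w₁, ε', hw₁, hw₁P, hw₁A, hε'0, hε'⟩ : ∃ (w : Fin n → ℂ) (ε' : ℂ), w ≠ 0 ∧ P *ᵥ w = 0 ∧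
      A *ᵥ w = ε' • w ∧ ε' ≠ 0 ∧ ‖ε'‖ ≤ α := by
    by_cases h : A *ᵥ w₀ - (α : ℂ) • w₀ = 0
    · exact ⟨w₀, α, hw₀, hw₀P, by rwa [sub_eq_zero] at h, hα0, by rw [hnα]⟩
    · refine ⟨_, ((α⁻¹ : ℝ) : ℂ), h, ?_, hev _ _ _ hfac2, hβ0, by rw [hnβ]; exact hβα.le⟩
      rw [Matrix.mulVec_sub, hcv, Matrix.mulVec_smul, hw₀P, Matrix.mulVec_zero, smul_zero, sub_zero]
  have hrange : ∀ v, P *ᵥ v = v → A *ᵥ v = ((α⁻¹ : ℝ) : ℂ) • v := by
    intro v hv
    by_contra hne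
    have h1 : A *ᵥ v - ((α⁻¹ : ℝ) : ℂ) • v ≠ 0 := by rwa [ne_eq, sub_eq_zero]
    have h2 := hdom _ w₁ (α : ℂ) ε' h1 hw₁ (by
      rw [Matrix.mulVec_sub, hcv, Matrix.mulVec_smul, hv]) hw₁P (hev _ _ _ hfac1) hw₁A hα0 hε'0
    rw [hnα] at h2
    linarith
  have hker : ∀ w, P *ᵥ w = 0 → A *ᵥ w = (α : ℂ) • w := by
    intro w hw
    by_contra hne
    have h1 : A *ᵥ w - (α : ℂ) • w ≠ 0 := by rwa [ne_eq, sub_eq_zero]
    have h2 := hdom v₀ _ ((α⁻¹ : ℝ) : ℂ) ((α⁻¹ : ℝ) : ℂ) hv₀ h1 hv₀P (by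
      rw [Matrix.mulVec_sub, hcv, Matrix.mulVec_smul, hw, Matrix.mulVec_zero, smul_zero, sub_zero])
      (hrange v₀ hv₀P) (hev _ _ _ hfac2) hβ0 hβ0
    exact lt_irrefl _ h2
  have hA : A = ((α⁻¹ : ℝ) : ℂ) • P + (α : ℂ) • (1 - P) := by
    ext i j
    have h1 : A *ᵥ (Pi.single j 1) = (((α⁻¹ : ℝ) : ℂ) • P + (α : ℂ) • (1 - P)) *ᵥ
        (Pi.single j 1) := by
      set e : Fin n → ℂ := Pi.single j 1 with he
      have h2 : e = P *ᵥ e + (e - P *ᵥ e) := by abel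
      have h3 := hrange (P *ᵥ e) (by rw [Matrix.mulVec_mulVec, hP])
      have h4 := hker (e - P *ᵥ e) (by
        rw [Matrix.mulVec_sub, Matrix.mulVec_mulVec, hP, sub_self])
      calc A *ᵥ e = A *ᵥ (P *ᵥ e + (e - P *ᵥ e)) := by rw [← h2]
        _ = ((α⁻¹ : ℝ) : ℂ) • (P *ᵥ e) + (α : ℂ) • (e - P *ᵥ e) := by
          rw [Matrix.mulVec_add, h3, h4]
        _ = _ := by
          rw [Matrix.add_mulVec, Matrix.smul_mulVec, Matrix.smul_mulVec, Matrix.sub_mulVec,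
            Matrix.one_mulVec]
    have h5 := congrFun h1 i
    rw [Matrix.mulVec_single_one, Matrix.mulVec_single_one] at h5
    exact h5
  rw [hA, Matrix.trace_add, Matrix.trace_smul, Matrix.trace_smul, Matrix.trace_sub,
    Matrix.trace_one, trace_eq_rank hP, hrank, Fintype.card_fin, smul_eq_mul, smul_eq_mul]

end Run7.h431.SA
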