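import Pool.Agent.Run7.h431.SA.Geo4

open scoped MatrixGroups Topology Kronecker
open UpperHalfPlane Matrix Filter

noncomputable section

namespace Run7.h431.SA

/-! ### signed permutation matrices -/

/-- signed permutation matrices -/
def SP {m : ℕ} (A : Matrix (Fin m) (Fin m) ℂ) : Prop :=
  ∃ (σ : Equiv.Perm (Fin m)) (s : Fin m → ℂ), (∀ i, s i = 1 ∨ s i = -1) ∧
    ∀ i j, A i j = if σ i = j then s i else 0

lemma SP_one {m : ℕ} : SP (1 : Matrix (Fin m) (Fin m) ℂ) :=
  ⟨1, fun _ => 1, fun _ => Or.inl rfl, fun i j => by rw [Matrix.one_apply]; rfl⟩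

lemma SP_mul {m : ℕ} {A B : Matrix (Fin m) (Fin m) ℂ} (hA : SP A) (hB : SP B) : SP (A * B) := by
  obtain ⟨σ, s, hs, hA⟩ := hA
  obtain ⟨σ', s', hs', hB⟩ := hB
  refine ⟨σ.trans σ', fun i => s i * s' (σ i), fun i => ?_, fun i j => ?_⟩
  · change s i * s' (σ i) = 1 ∨ s i * s' (σ i) = -1
    rcases hs i with h | h <;> rcases hs' (σ i) with h' | h' <;> rw [h, h'] <;> simp
  · rw [Matrix.mul_apply, Finset.sum_eq_single (σ i)]
    · rw [hA, hB, if_pos rfl, mul_ite, mul_zero]
      rfl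
    · intro k _ hk
      rw [hA, if_neg (Ne.symm hk), zero_mul]
    · simp

lemma SP_transpose_mul {m : ℕ} {A : Matrix (Fin m) (Fin m) ℂ} (hA : SP A) : A * Aᵀ = 1 := by
  obtain ⟨σ, s, hs, hA⟩ := hA
  ext i j
  rw [Matrix.mul_apply, Finset.sum_eq_single (σ i), Matrix.transpose_apply, hA, hA, if_pos rfl,
    Matrix.one_apply]
  · by_cases h : i = j
    · subst h
      rw [if_pos rfl, if_pos rfl]
      rcases hs i with h | h <;> simp [h]
    · rw [if_neg h, if_neg, mul_zero]
      intro h'; exact h (σ.injective h').symm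
  · intro k _ hk
    rw [hA, if_neg (Ne.symm hk), zero_mul]
  · simp

lemma SP_transpose {m : ℕ} {A : Matrix (Fin m) (Fin m) ℂ} (hA : SP A) : SP Aᵀ := by
  obtain ⟨σ, s, hs, hA⟩ := hA
  refine ⟨σ.symm, fun i => s (σ.symm i), fun i => hs _, fun i j => ?_⟩
  rw [Matrix.transpose_apply, hA]
  by_cases h : σ j = i
  · rw [if_pos h, if_pos (by rw [← h]; simp), ← h]; simp
  · rw [if_neg h, if_neg]
    intro h'; apply h; rw [← h']; simp

lemma SP_det {m : ℕ} {A : Matrix (Fin m) (Fin m) ℂ} (hA : SP A) : A.det ^ 2 = 1 := by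
  have := congrArg Matrix.det (SP_transpose_mul hA)
  rwa [Matrix.det_mul, Matrix.det_transpose, Matrix.det_one, ← sq] at this

/-- the group of signed permutation matrices -/
def spGroup (m : ℕ) : Subgroup (Matrix (Fin m) (Fin m) ℂ)ˣ where
  carrier := {U | SP U.1}
  one_mem' := SP_one
  mul_mem' := fun {a b} ha hb => by
    change SP ((a * b : (Matrix (Fin m) (Fin m) ℂ)ˣ) : Matrix (Fin m) (Fin m) ℂ)
    rw [Units.val_mul]
    exact SP_mul ha hb
  inv_mem' := fun {a} ha => by
    have h : (a⁻¹ : (Matrix (Fin m) (Fin m) ℂ)ˣ).1 = a.1ᵀ := by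
      rw [Units.inv_eq_of_mul_eq_one_right (SP_transpose_mul ha)]
    change SP (a⁻¹ : (Matrix (Fin m) (Fin m) ℂ)ˣ).1
    rw [h]; exact SP_transpose ha

lemma spGroup_SP {m : ℕ} (U : spGroup m) : SP U.1.1 := U.2

instance (m : ℕ) : Finite (spGroup m) := by
  have h1 : (Set.pi Set.univ fun _ : Fin m => Set.pi Set.univ fun _ : Fin m =>
      ({0, 1, -1} : Set ℂ)).Finite :=
    Set.Finite.pi fun _ => Set.Finite.pi fun _ => by simp
  have h2 : (Set.univ : Set (spGroup m)).Finite := by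
    refine Set.Finite.of_injOn (f := fun U : spGroup m => fun i j => U.1.1 i j) ?_ ?_ h1
    · intro U _ i _ j _
      obtain ⟨σ, s, hs, hA⟩ := spGroup_SP U
      change U.1.1 i j ∈ ({0, 1, -1} : Set ℂ)
      rw [hA]
      split_ifs
      · rcases hs i with h | h <;> simp [h]
      · simp
    · intro U _ V _ h
      apply Subtype.ext; apply Units.ext; exact h
  exact Set.finite_univ_iff.mp h2

lemma SP_norm {m : ℕ} {A : Matrix (Fin m) (Fin m) ℂ} (hA : SP A) (w : Fin m → ℂ) :
    ‖A *ᵥ w‖ = ‖w‖ := by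
  obtain ⟨σ, s, hs, hA⟩ := hA
  have h1 : ∀ i, (A *ᵥ w) i = s i * w (σ i) := by
    intro i
    rw [Matrix.mulVec, dotProduct, Finset.sum_eq_single (σ i)]
    · rw [hA, if_pos rfl]
    · intro k _ hk
      rw [hA, if_neg (Ne.symm hk), zero_mul]
    · simp
  have h2 : ∀ i, ‖(A *ᵥ w) i‖ = ‖w (σ i)‖ := by
    intro i
    rw [h1, norm_mul]
    rcases hs i with h | h <;> simp [h]
  apply le_antisymm
  · rw [pi_norm_le_iff_of_nonneg (norm_nonneg _)]
    intro i; rw [h2]; exact norm_le_pi_norm _ _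
  · rw [pi_norm_le_iff_of_nonneg (norm_nonneg _)]
    intro i
    have := h2 (σ.symm i)
    rw [Equiv.apply_symm_apply] at this
    rw [← this]; exact norm_le_pi_norm _ _

/-! ### the two generators -/

variable {m : ℕ} [NeZero m]

/-- cyclic shift -/
def Xm (m : ℕ) [NeZero m] : Matrix (Fin m) (Fin m) ℂ := fun i j => if i + 1 = j then 1 else 0

/-- diagonal matrix -/
def Zm (m : ℕ) [NeZero m] : Matrix (Fin m) (Fin m) ℂ :=
  fun i j => if i = j then (if i = 0 then -1 else 1) else 0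

lemma SP_X : SP (Xm m) :=
  ⟨Equiv.addRight 1, fun _ => 1, fun _ => Or.inl rfl, fun _ _ => rfl⟩

lemma SP_Z : SP (Zm m) :=
  ⟨1, fun i => if i = 0 then -1 else 1, fun i => by dsimp only; split_ifs <;> simp,
    fun _ _ => rfl⟩

lemma SP_transpose_mul' {m : ℕ} {A : Matrix (Fin m) (Fin m) ℂ} (hA : SP A) : Aᵀ * A = 1 := by
  have := SP_transpose_mul (SP_transpose hA)
  rwa [Matrix.transpose_transpose] at this

/-- unit from SP -/
def unitOf {m : ℕ} (A : Matrix (Fin m) (Fin m) ℂ) (hA : SP A) : spGroup m :=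
  ⟨⟨A, Aᵀ, SP_transpose_mul hA, SP_transpose_mul' hA⟩, hA⟩

section
open scoped Fin.NatCast Fin.CommRing

lemma X_pow (k : ℕ) (i j : Fin m) : (Xm m ^ k) i j = if i + (k : Fin m) = j then 1 else 0 := by
  induction k generalizing i j with
  | zero => simp [Matrix.one_apply]
  | succ k ih =>
    rw [pow_succ', Matrix.mul_apply, Finset.sum_eq_single (i + 1)]
    · rw [ih]
      simp only [Xm, if_true, one_mul]
      have : i + 1 + (k : Fin m) = i + ((k + 1 : ℕ) : Fin m) := by push_cast; ring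
      rw [this]
    · intro l _ hl
      simp only [Xm, if_neg (Ne.symm hl), zero_mul]
    · simp

lemma unit_eq (i₀ j₀ : Fin m) : Matrix.single i₀ j₀ (1 : ℂ) =
    Xm m ^ ((-i₀ : Fin m) : ℕ) * ((1 / 2 : ℂ) • (1 - Zm m)) * Xm m ^ (j₀ : ℕ) := by
  have h0 : ((1 / 2 : ℂ) • (1 - Zm m)) = Matrix.single (0 : Fin m) (0 : Fin m) (1 : ℂ) := by
    ext i j
    simp only [Matrix.smul_apply, Matrix.sub_apply, Matrix.one_apply, Zm, Matrix.single_apply,
      smul_eq_mul]
    by_cases h : i = j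
    · subst h
      by_cases h' : i = 0
      · subst h'; simp; norm_num
      · simp [h', Ne.symm h']
    · by_cases h' : 0 = i
      · subst h'; simp [h]
      · simp [h, h']
  rw [h0]
  ext i j
  rw [Matrix.mul_apply, Finset.sum_eq_single 0]
  · rw [Matrix.mul_apply, Finset.sum_eq_single 0]
    · rw [X_pow, X_pow, Matrix.single_apply, Matrix.single_apply]
      simp only [Fin.cast_val_eq_self, zero_add, and_self, if_true, mul_one]
      by_cases h : i₀ = i
      · subst h; simp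
      · have : i + -i₀ ≠ 0 := by
          intro h'; apply h; exact (eq_of_sub_eq_zero (by rwa [sub_eq_add_neg])).symm
        simp [h, this]
    · intro k _ hk
      rw [Matrix.single_apply, if_neg (by rintro ⟨h, _⟩; exact hk h.symm), mul_zero]
    · simp
  · intro k _ hk
    rw [Matrix.mul_apply, Finset.sum_eq_zero, zero_mul]
    intro l _
    rw [Matrix.single_apply, if_neg (by rintro ⟨_, h⟩; exact hk h.symm), mul_zero]
  · simp

end

/-- a subalgebra containing `X`, `Z` is everything -/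
lemma subalg_eq_top (𝒜 : Subalgebra ℂ (Matrix (Fin m) (Fin m) ℂ)) (hX : Xm m ∈ 𝒜)
    (hZ : Zm m ∈ 𝒜) : 𝒜 = ⊤ := by
  rw [eq_top_iff]
  intro A _
  rw [Matrix.matrix_eq_sum_single A]
  refine sum_mem fun i _ => sum_mem fun j _ => ?_
  have : Matrix.single i j (A i j) = A i j • Matrix.single i j (1 : ℂ) := by
    rw [Matrix.smul_single]; simp
  rw [this, unit_eq]
  exact 𝒜.smul_mem (𝒜.mul_mem (𝒜.mul_mem (𝒜.pow_mem hX _)
    (𝒜.smul_mem (𝒜.sub_mem 𝒜.one_mem hZ) _)) (𝒜.pow_mem hX _)) _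

/-! ### homomorphisms from the surface group -/

variable {g : ℕ}

lemma lift_relator {G : Type*} [Group G] (f : Fin g × Bool → G)
    (hf : ∀ i, f (i, false) * f (i, true) = f (i, true) * f (i, false)) :
    ∀ r ∈ ({surfaceRelator g} : Set (FreeGroup (Fin g × Bool))), FreeGroup.lift f r = 1 := by
  rintro r rfl
  unfold surfaceRelator
  rw [map_list_prod, List.map_ofFn]
  apply List.prod_eq_one
  intro x hx
  rw [List.mem_ofFn] at hx
  obtain ⟨i, rfl⟩ := hx
  simp only [Function.comp_apply, map_mul, map_inv, FreeGroup.lift_apply_of, hf]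
  group

/-- homomorphism killing all `bᵢ` -/
def homA {G : Type} [Group G] (x z : G) : SurfaceGroup g →* G :=
  PresentedGroup.toGroup (f := fun p : Fin g × Bool =>
    if p.2 then 1 else if p.1.val = 0 then x else if p.1.val = 1 then z else 1)
    (lift_relator _ (fun i => by simp))

/-- homomorphism killing all `aᵢ` -/
def homB {G : Type} [Group G] (x z : G) : SurfaceGroup g →* G :=
  PresentedGroup.toGroup (f := fun p : Fin g × Bool =>
    if p.2 then (if p.1.val = 0 then x else if p.1.val = 1 then z else 1) else 1)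
    (lift_relator _ (fun i => by simp))

lemma homA_gen {G : Type} [Group G] (x z : G) (p : Fin g × Bool) : homA (g := g) x z (gen p) =
    if p.2 then 1 else if p.1.val = 0 then x else if p.1.val = 1 then z else 1 :=
  PresentedGroup.toGroup.of _

lemma homB_gen {G : Type} [Group G] (x z : G) (p : Fin g × Bool) : homB (g := g) x z (gen p) =
    if p.2 then (if p.1.val = 0 then x else if p.1.val = 1 then z else 1) else 1 :=
  PresentedGroup.toGroup.of _

/-- generators -/
def ga (hg : 2 ≤ g) (i : Fin 2) : SurfaceGroup g := gen (⟨i.val, by omega⟩, false)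
/-- generators -/
def gb (hg : 2 ≤ g) (i : Fin 2) : SurfaceGroup g := gen (⟨i.val, by omega⟩, true)

lemma gb_not_comm (hg : 2 ≤ g) : gb hg 0 * gb hg 1 ≠ gb hg 1 * gb hg 0 := by
  intro h
  have h2 := congrArg (homB (g := g) (Equiv.swap (0 : Fin 3) 1) (Equiv.swap (1 : Fin 3) 2)) h
  simp only [map_mul, gb, homB_gen] at h2
  simp only [Fin.isValue, Fin.val_zero, Fin.val_one, if_true, one_ne_zero, if_false] at h2
  revert h2
  decide

/-- the finite-image homomorphism `τ` -/
def tau (m : ℕ) [NeZero m] : SurfaceGroup g →* spGroup m :=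
  homA (unitOf (Xm m) SP_X) (unitOf (Zm m) SP_Z)

/-- the matrix of `τ` -/
def tauM (m : ℕ) [NeZero m] (γ : SurfaceGroup g) : Matrix (Fin m) (Fin m) ℂ := (tau m γ).1.1

lemma tauM_mul (γ δ : SurfaceGroup g) : tauM m (γ * δ) = tauM m γ * tauM m δ := by
  unfold tauM; rw [map_mul]; rfl

lemma tauM_one : tauM m (1 : SurfaceGroup g) = 1 := by
  unfold tauM; rw [map_one]; rfl

lemma tauM_SP (γ : SurfaceGroup g) : SP (tauM m γ) := (tau m γ).2

lemma tauM_gb (hg : 2 ≤ g) (i : Fin 2) : tauM m (gb hg i) = 1 := by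
  unfold tauM tau gb
  rw [homA_gen]; rfl

lemma tauM_ga0 (hg : 2 ≤ g) : tauM m (ga hg 0) = Xm m := by
  unfold tauM tau ga
  rw [homA_gen]; rfl

lemma tauM_ga1 (hg : 2 ≤ g) : tauM m (ga hg 1) = Zm m := by
  unfold tauM tau ga
  rw [homA_gen]; rfl

lemma exists_tau_pow (γ : SurfaceGroup g) : ∃ M : ℕ, 0 < M ∧ tauM m (γ ^ M) = 1 := by
  obtain ⟨M, hM, h⟩ := (isOfFinOrder_of_finite (tau m γ)).exists_pow_eq_one
  refine ⟨M, hM, ?_⟩
  unfold tauM
  rw [map_pow, h]; rfl

end Run7.h431.SA
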